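import Mathlib

/-!
# The firefighter process, and its analysis on trees
-/

namespace Pool.Agent.Hhelper73.Fire

variable {V : Type*}

/-- The set of vertices on fire after step `t`, when the vertex protected in step `i + 1` is
`L[i]` (and nothing more is protected after step `L.length`). -/
def burning (G : SimpleGraph V) (s : V) (L : List V) : ℕ → Set V
  | 0 => {s}
  | t + 1 => burning G s L t ∪
      {w | w ∉ L.take (t + 1) ∧ ∃ u ∈ burning G s L t, G.Adj u w}

/-- `L` is a strategy: the vertex protected in step `t + 1` is not on fire after step `t`. -/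
def IsStrategy (G : SimpleGraph V) (s : V) (L : List V) : Prop :=
  ∀ (t : ℕ) (h : t < L.length), L[t] ∉ burning G s L t

/-- The vertices saved by `L`: those that never burn. -/
def saved (G : SimpleGraph V) (s : V) (L : List V) : Set V :=
  {w | ∀ t, w ∉ burning G s L t}

/-- The vertices burned under `L`. -/
def burned (G : SimpleGraph V) (s : V) (L : List V) : Set V :=
  {w | ∃ t, w ∈ burning G s L t}

/-- `par` and `dep` describe `G` as a tree rooted at `s`. -/
structure Rooted (G : SimpleGraph V) (s : V) (par : V → V) (dep : V → ℕ) : Prop where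
  dep_root : dep s = 0
  dep_par : ∀ v, v ≠ s → dep (par v) + 1 = dep v
  adj_iff : ∀ u v, G.Adj u v ↔ (v ≠ s ∧ par v = u) ∨ (u ≠ s ∧ par u = v)

/-- `v` lies on the path from the root to `w`. -/
def Anc (par : V → V) (dep : V → ℕ) (v w : V) : Prop :=
  ∃ i ≤ dep w, par^[i] w = v

theorem anc_refl {par : V → V} {dep : V → ℕ} (w : V) : Anc par dep w w := ⟨0, Nat.zero_le _, rfl⟩

namespace Rooted

variable {G : SimpleGraph V} {s : V} {par : V → V} {dep : V → ℕ} (R : Rooted G s par dep)
include R

theorem eq_root {v : V} (h : dep v = 0) : v = s := by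
  by_contra hne
  have := R.dep_par v hne
  omega

theorem dep_iterate (w : V) : ∀ i, i ≤ dep w → dep (par^[i] w) = dep w - i := by
  intro i
  induction i with
  | zero => intro _; simp
  | succ i ih =>
    intro hi
    rw [Function.iterate_succ_apply']
    have h1 := ih (by omega)
    have hne : par^[i] w ≠ s := by
      intro h
      rw [h, R.dep_root] at h1
      omega
    have := R.dep_par _ hne
    omega

theorem anc_dep {v w : V} (h : Anc par dep v w) : dep v ≤ dep w := by
  obtain ⟨i, hi, rfl⟩ := h
  rw [R.dep_iterate w i hi]
  omega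

theorem anc_iff_iterate {v w : V} :
    Anc par dep v w ↔ dep v ≤ dep w ∧ par^[dep w - dep v] w = v := by
  constructor
  · rintro ⟨i, hi, h⟩
    have h1 := R.dep_iterate w i hi
    rw [h] at h1
    refine ⟨by omega, ?_⟩
    rw [show dep w - dep v = i by omega]
    exact h
  · rintro ⟨h1, h2⟩
    exact ⟨_, by omega, h2⟩

theorem anc_trans {u v w : V} (h1 : Anc par dep u v) (h2 : Anc par dep v w) :
    Anc par dep u w := by
  obtain ⟨i, hi, rfl⟩ := h1
  obtain ⟨j, hj, rfl⟩ := h2
  rw [R.dep_iterate w j hj] at hi
  exact ⟨i + j, by omega, Function.iterate_add_apply par i j w⟩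

/-- The ancestor of `w` at level `l`. -/
theorem exists_anc (w : V) (l : ℕ) (hl : l ≤ dep w) : ∃ v, Anc par dep v w ∧ dep v = l := by
  have h1 := R.dep_iterate w (dep w - l) (by omega)
  exact ⟨par^[dep w - l] w, ⟨_, by omega, rfl⟩, by omega⟩

theorem anc_unique {u v w : V} (h1 : Anc par dep u w) (h2 : Anc par dep v w)
    (h : dep u = dep v) : u = v := by
  rw [R.anc_iff_iterate] at h1 h2
  rw [← h1.2, ← h2.2, h]

/-- Two ancestors of the same vertex are comparable. -/
theorem anc_total {u v w : V} (h1 : Anc par dep u w) (h2 : Anc par dep v w)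
    (h : dep u ≤ dep v) : Anc par dep u v := by
  obtain ⟨u', hu', hd⟩ := R.exists_anc v (dep u) h
  have := R.anc_unique h1 (R.anc_trans hu' h2) hd.symm
  rwa [this]

theorem anc_root (w : V) : Anc par dep s w := by
  obtain ⟨v, hv, hd⟩ := R.exists_anc w 0 (by omega)
  rwa [R.eq_root hd] at hv

theorem anc_iff {v w : V} (hw : w ≠ s) : Anc par dep v w ↔ v = w ∨ Anc par dep v (par w) := by
  have hd := R.dep_par w hw
  constructor
  · rintro ⟨i, hi, h⟩
    cases i with
    | zero => exact Or.inl h.symm
    | succ i => exact Or.inr ⟨i, by omega, by rw [← h, Function.iterate_succ_apply]⟩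
  · rintro (h | ⟨i, hi, h⟩)
    · subst h; exact anc_refl v
    · exact ⟨i + 1, by omega, by rw [← h, Function.iterate_succ_apply]⟩

theorem anc_root_iff {v : V} : Anc par dep v s ↔ v = s := by
  constructor
  · intro h
    have := R.anc_dep h
    rw [R.dep_root] at this
    exact R.eq_root (by omega)
  · rintro rfl
    exact anc_refl _

/-- The vertices on fire after step `t`. -/
theorem mem_burning_iff (L : List V) (t : ℕ) (w : V) :
    w ∈ burning G s L t ↔ dep w ≤ t ∧ ∀ v, Anc par dep v w → v ∉ L.take (dep v) := by
  induction t generalizing w with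
  | zero =>
    simp only [burning, Set.mem_singleton_iff, Nat.le_zero]
    constructor
    · rintro rfl
      refine ⟨R.dep_root, fun v hv => ?_⟩
      rw [R.anc_root_iff] at hv
      subst hv
      simp [R.dep_root]
    · rintro ⟨h, _⟩
      exact R.eq_root h
  | succ t ih =>
    simp only [burning, Set.mem_union, Set.mem_ofPred_eq]
    constructor
    · rintro (h | ⟨hw, u, hu, hadj⟩)
      · rw [ih] at h
        exact ⟨by omega, h.2⟩
      · rw [ih] at hu
        rw [R.adj_iff] at hadj
        rcases hadj with ⟨hws, hpar⟩ | ⟨hus, hpar⟩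
        · subst hpar
          have hd := R.dep_par w hws
          refine ⟨by omega, fun v hv => ?_⟩
          rw [R.anc_iff hws] at hv
          rcases hv with rfl | hv
          · intro hmem
            exact hw (List.take_subset_take_left L (by omega) hmem)
          · exact hu.2 v hv
        · subst hpar
          have hd := R.dep_par u hus
          refine ⟨by omega, fun v hv => ?_⟩
          apply hu.2
          rw [R.anc_iff hus]
          exact Or.inr hv
    · rintro ⟨h1, h2⟩
      rcases Nat.lt_or_ge t (dep w) with h | h
      · have hdw : dep w = t + 1 := by omega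
        right
        have hws : w ≠ s := by
          rintro rfl
          rw [R.dep_root] at hdw
          omega
        have hd := R.dep_par w hws
        refine ⟨?_, par w, ?_, ?_⟩
        · rw [← hdw]
          exact h2 w (anc_refl w)
        · rw [ih]
          refine ⟨by omega, fun v hv => h2 v ?_⟩
          rw [R.anc_iff hws]
          exact Or.inr hv
        · rw [R.adj_iff]
          exact Or.inl ⟨hws, rfl⟩
      · left
        rw [ih]
        exact ⟨h, h2⟩

theorem mem_saved_iff (L : List V) (w : V) :
    w ∈ saved G s L ↔ ∃ v, Anc par dep v w ∧ v ∈ L.take (dep v) := by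
  simp only [saved, Set.mem_ofPred_eq, R.mem_burning_iff]
  constructor
  · intro h
    have := h (dep w)
    push Not at this
    exact this le_rfl
  · rintro ⟨v, hv, hmem⟩ t ⟨_, h⟩
    exact h v hv hmem

end Rooted

/-- In a tree, every vertex other than the root has exactly one neighbour closer to the root. -/
theorem existsUnique_parent {G : SimpleGraph V} (hG : G.IsTree) (s v : V) (hv : v ≠ s) :
    ∃! w, G.Adj v w ∧ G.dist s w + 1 = G.dist s v := by
  classical
  obtain ⟨p, hp, hpl⟩ := (hG.connected s v).exists_path_of_dist
  have hnil : ¬ p.Nil := by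
    intro h
    exact hv h.eq.symm
  have hadj : G.Adj v p.penultimate := (p.adj_penultimate hnil).symm
  have hlen : G.dist s p.penultimate + 1 = G.dist s v := by
    have h1 : G.dist s p.penultimate ≤ p.dropLast.length := SimpleGraph.dist_le _
    have h2 : p.dropLast.length + 1 = p.length := by
      have := p.length_dropLast_add_one hnil
      exact this
    rcases hG.dist_eq_dist_add_one_of_adj s hadj with h | h <;> omega
  refine ⟨p.penultimate, ⟨hadj, hlen⟩, ?_⟩
  rintro w ⟨hw, hwl⟩
  obtain ⟨q, hq, hql⟩ := (hG.connected s w).exists_path_of_dist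
  have hvq : v ∉ q.support := by
    intro hmem
    have h1 := SimpleGraph.dist_le (q.takeUntil v hmem)
    have h2 := q.length_takeUntil_le_length hmem
    omega
  have hwp := hG.isAcyclic.mem_support_of_ne_mem_support_of_adj_of_isPath hp hq hw hvq
  exact hG.isAcyclic.eq_penultimate_of_adj_end hp hw hwp

theorem exists_rooted {G : SimpleGraph V} (hG : G.IsTree) (s : V) :
    ∃ (par : V → V) (dep : V → ℕ), Rooted G s par dep := by
  classical
  have hex : ∀ v, v ≠ s → ∃ w, G.Adj v w ∧ G.dist s w + 1 = G.dist s v :=
    fun v hv => (existsUnique_parent hG s v hv).exists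
  let par : V → V := fun v => if h : v = s then s else (hex v h).choose
  have hpar : ∀ v, v ≠ s → G.Adj v (par v) ∧ G.dist s (par v) + 1 = G.dist s v := by
    intro v hv
    simp only [par, dif_neg hv]
    exact (hex v hv).choose_spec
  refine ⟨par, fun v => G.dist s v, ?_, ?_, ?_⟩
  · simp
  · intro v hv
    exact (hpar v hv).2
  · intro u v
    constructor
    · intro h
      rcases hG.dist_eq_dist_add_one_of_adj s h with h1 | h1
      · right
        have hu : u ≠ s := by
          rintro rfl
          simp at h1
        refine ⟨hu, ?_⟩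
        exact (existsUnique_parent hG s u hu).unique (hpar u hu) ⟨h, h1.symm⟩
      · left
        have hv : v ≠ s := by
          rintro rfl
          simp at h1
        refine ⟨hv, ?_⟩
        exact (existsUnique_parent hG s v hv).unique (hpar v hv) ⟨h.symm, h1.symm⟩
    · rintro (⟨hv, rfl⟩ | ⟨hu, rfl⟩)
      · exact (hpar v hv).1.symm
      · exact (hpar u hu).1

section Sav

variable [Fintype V] [DecidableEq V]

open Classical in
/-- The vertices lying below some vertex of `P`. -/
noncomputable def sav (par : V → V) (dep : V → ℕ) (P : Finset V) : Finset V :=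
  Finset.univ.filter (fun w => ∃ v ∈ P, Anc par dep v w)

/-- `P` is admissible: at most one vertex at every level, none at level `0`. -/
def Adm (dep : V → ℕ) (P : Finset V) : Prop :=
  Set.InjOn dep (P : Set V) ∧ ∀ v ∈ P, 1 ≤ dep v

omit [DecidableEq V] in
theorem mem_sav {par : V → V} {dep : V → ℕ} {P : Finset V} {w : V} :
    w ∈ sav par dep P ↔ ∃ v ∈ P, Anc par dep v w := by
  simp [sav]

namespace Rooted

variable {G : SimpleGraph V} {s : V} {par : V → V} {dep : V → ℕ} (R : Rooted G s par dep)
include R

omit [DecidableEq V] in
/-- Every strategy is dominated by an admissible set. -/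
theorem normalize (L : List V) : ∃ P : Finset V, Adm dep P ∧ (∀ v ∈ P, dep v ≤ L.length) ∧
    ∀ w ∈ saved G s L, w ∈ sav par dep P := by
  classical
  refine ⟨Finset.univ.filter (fun v => 1 ≤ dep v ∧ ∃ u, L[dep v - 1]? = some u ∧
    Anc par dep v u), ⟨?_, ?_⟩, ?_, ?_⟩
  · intro v hv v' hv' h
    simp only [Finset.coe_filter, Finset.mem_univ, true_and, Set.mem_ofPred_eq] at hv hv'
    obtain ⟨_, u, hu, hvu⟩ := hv
    obtain ⟨_, u', hu', hvu'⟩ := hv'
    rw [← h, hu] at hu'
    simp only [Option.some.injEq] at hu'
    subst hu'
    exact R.anc_unique hvu hvu' h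
  · intro v hv
    simp only [Finset.mem_filter, Finset.mem_univ, true_and] at hv
    exact hv.1
  · intro v hv
    simp only [Finset.mem_filter, Finset.mem_univ, true_and] at hv
    obtain ⟨h1, u, hu, _⟩ := hv
    have := (List.getElem?_eq_some_iff.mp hu).1
    omega
  · intro w hw
    rw [R.mem_saved_iff] at hw
    obtain ⟨v, hv, hmem⟩ := hw
    rw [List.mem_take_iff_getElem] at hmem
    obtain ⟨i, hi, hLi⟩ := hmem
    obtain ⟨v', hv', hd⟩ := R.exists_anc v (i + 1) (by omega)
    rw [mem_sav]
    refine ⟨v', ?_, R.anc_trans hv' hv⟩
    simp only [Finset.mem_filter, Finset.mem_univ, true_and]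
    refine ⟨by omega, v, ?_, hv'⟩
    rw [hd, ← hLi]
    simp

omit R in
omit [Fintype V] in
/-- Ordering an admissible set by levels. -/
theorem exists_list (P : Finset V) (hP : Adm dep P) :
    ∃ L : List V, L.length = P.card ∧ (∀ v, v ∈ L ↔ v ∈ P) ∧
      ∀ (t : ℕ) (h : t < L.length), t + 1 ≤ dep L[t] := by
  induction P using Finset.induction_on_max_value dep with
  | empty => exact ⟨[], by simp⟩
  | insert a P haP hmax ih =>
    obtain ⟨hinj, hpos⟩ := hP
    obtain ⟨L, hL1, hL2, hL3⟩ := ih ⟨hinj.mono (by simp), fun v hv => hpos v (by simp [hv])⟩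
    refine ⟨L ++ [a], by simp [hL1, Finset.card_insert_of_notMem haP], ?_, ?_⟩
    · intro v
      simp [hL2, or_comm]
    · intro t ht
      rw [List.getElem_append]
      split
      · rename_i h
        exact hL3 t h
      · rename_i h
        have hta : t = P.card := by
          simp only [List.length_append, List.length_cons, List.length_nil] at ht
          omega
        simp only [List.getElem_singleton]
        have hcard : P.card ≤ (Finset.Icc 1 (dep a - 1)).card := by
          apply Finset.card_le_card_of_injOn dep
          · intro v hv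
            have h1 := hmax v hv
            have h2 := hpos v (by simp [Finset.mem_coe.mp hv])
            have h3 : dep v ≠ dep a := by
              intro h4
              have := hinj (by simp [Finset.mem_coe.mp hv]) (by simp) h4
              subst this
              exact haP hv
            simp only [Finset.coe_Icc, Set.mem_Icc]
            omega
          · exact hinj.mono (by simp)
        have h1 := hpos a (by simp)
        simp only [Nat.card_Icc] at hcard
        omega

/-- Every admissible set is realised by a strategy. -/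
theorem realize (P : Finset V) (hP : Adm dep P) :
    ∃ L : List V, IsStrategy G s L ∧ L.length = P.card ∧
      ∀ w, w ∈ saved G s L ↔ w ∈ sav par dep P := by
  obtain ⟨L, hL1, hL2, hL3⟩ := exists_list P hP
  refine ⟨L, ?_, hL1, ?_⟩
  · intro t ht hmem
    rw [R.mem_burning_iff] at hmem
    have := hL3 t ht
    omega
  · intro w
    rw [R.mem_saved_iff, mem_sav]
    constructor
    · rintro ⟨v, hv, hmem⟩
      exact ⟨v, (hL2 v).mp (List.mem_of_mem_take hmem), hv⟩
    · rintro ⟨v, hmem, hv⟩
      refine ⟨v, hv, ?_⟩
      rw [← hL2] at hmem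
      obtain ⟨i, hi, hLi⟩ := List.getElem_of_mem hmem
      rw [List.mem_take_iff_getElem]
      have := hL3 i hi
      rw [hLi] at this
      exact ⟨i, by omega, hLi⟩

end Rooted

end Sav

end Pool.Agent.Hhelper73.Fire
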