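import Mathlib

set_option autoImplicit false

open Finset

namespace Pool.Agent.Results.MP_128e7d_lc.Decomposable

/-! # Definitions for the hand-in `Decomposable`

Programs (nondeterministic branching programs with AND-nodes), graphs coded by their edge bits,
isomorphism. -/

/-! ## Decomposable programs -/

/-- A nondeterministic branching program with AND-nodes over Boolean variables indexed by `X`: a
finite acyclic directed graph with a start node and an accepting node. An edge labelled
`some (x, b)` may be used only on inputs whose variable `x` has the value `b`; an edge labelled
`none` may always be used. If `fork u = some (v, w)` then the node `u` may also branch into both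
`v` and `w`, and both branches have to accept. -/
structure Program (X : Type) where
  /-- the nodes -/
  Node : Type
  /-- there are finitely many nodes -/
  [fintypeNode : Fintype Node]
  /-- the start node -/
  start : Node
  /-- the accepting node -/
  accept : Node
  /-- `Edge u l v`: there is an edge from `u` to `v` with label `l` -/
  Edge : Node → Option (X × Bool) → Node → Prop
  /-- `fork u = some (v, w)`: the node `u` is an AND-node with the children `v` and `w` -/
  fork : Node → Option (Node × Node)
  /-- the program has no directed cycle -/
  acyclic : ∃ rank : Node → ℕ, (∀ u l v, Edge u l v → rank u < rank v) ∧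
    ∀ u v w, fork u = some (v, w) → rank u < rank v ∧ rank u < rank w

attribute [instance] Program.fintypeNode

namespace Program

variable {X : Type} (P : Program X)

/-- `P.Tree u T`: there is a computation tree with root `u`, all of whose branches end in the
accepting node, such that `T` is the multiset of the tests on its edges. -/
inductive Tree : P.Node → Multiset (X × Bool) → Prop
  | leaf : Tree P.accept 0
  | guess {u v : P.Node} {T : Multiset (X × Bool)} :
      P.Edge u none v → Tree v T → Tree u T
  | test {u v : P.Node} {x : X} {b : Bool} {T : Multiset (X × Bool)} :
      P.Edge u (some (x, b)) v → Tree v T → Tree u ((x, b) ::ₘ T)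
  | fork {u v w : P.Node} {T T' : Multiset (X × Bool)} :
      P.fork u = some (v, w) → Tree v T → Tree w T' → Tree u (T + T')

/-- The program accepts the input `a` if some computation tree with root `start` has all its tests
satisfied by `a`. -/
def Accepts (a : X → Bool) : Prop :=
  ∃ T, P.Tree P.start T ∧ ∀ t ∈ T, a t.1 = t.2

/-- Every computation tree with root `start` tests at most `k` variables more than once. For
`k = 0` the program is read-once (decomposable): no computation tree tests a variable twice, and in
particular the two branches at an AND-node test disjoint sets of variables. -/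
def RereadsAtMost [DecidableEq X] (k : ℕ) : Prop :=
  ∀ T, P.Tree P.start T → #{x ∈ (T.map Prod.fst).toFinset | 1 < (T.map Prod.fst).count x} ≤ k

/-- The program computes the predicate `f`. -/
def Computes (f : (X → Bool) → Prop) : Prop := ∀ a, P.Accepts a ↔ f a

/-- The size of a program is its number of nodes. -/
def size : ℕ := Fintype.card P.Node

end Program

/-! ## Graph isomorphism -/

/-- Unordered pairs of distinct vertices among `n` vertices. -/
abbrev Pr (n : ℕ) : Type := {e : Sym2 (Fin n) // ¬ e.IsDiag}

/-- The Boolean variables: one for each unordered pair of vertices in each of the two graphs. -/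
abbrev Var (n : ℕ) : Type := Pr n ⊕ Pr n

/-- The simple graph on `n` vertices described by a Boolean adjacency vector. -/
def graphOf {n : ℕ} (x : Pr n → Bool) : SimpleGraph (Fin n) where
  Adj i j := ∃ h : ¬ (s(i, j) : Sym2 (Fin n)).IsDiag, x ⟨s(i, j), h⟩ = true
  symm := ⟨by
    rintro i j ⟨h, hx⟩
    have hs : (s(i, j) : Sym2 (Fin n)) = s(j, i) := Sym2.eq_swap
    refine ⟨hs ▸ h, ?_⟩
    simpa [hs] using hx⟩
  loopless := ⟨by
    rintro i ⟨h, -⟩
    exact h (by simp)⟩

/-- The graph isomorphism predicate: the two graphs described by the input are isomorphic. -/
def Isomorphic (n : ℕ) (a : Var n → Bool) : Prop :=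
  Nonempty (graphOf (fun e => a (Sum.inl e)) ≃g graphOf (fun e => a (Sum.inr e)))

/-- action of a permutation on pairs -/
def pact {n : ℕ} (σ : Equiv.Perm (Fin n)) : Equiv.Perm (Pr n) where
  toFun e := ⟨Sym2.map σ e.1, by rw [Sym2.isDiag_map σ.injective]; exact e.2⟩
  invFun e := ⟨Sym2.map σ.symm e.1, by rw [Sym2.isDiag_map σ.symm.injective]; exact e.2⟩
  left_inv e := by
    apply Subtype.ext
    simp [Sym2.map_map]
  right_inv e := by
    apply Subtype.ext
    simp [Sym2.map_map]

/-- the input consisting of the graph `G` and its image under `π` -/
def inp {n : ℕ} (π : Equiv.Perm (Fin n)) (G : Pr n → Bool) : Var n → Bool :=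
  Sum.elim G (fun e => G (pact π⁻¹ e))

/-! ## One fixed graph -/

variable {n : ℕ}

/-- the labelled copy `e ↦ z (π e)` of the graph `z` -/
def copy (z : Pr n → Bool) (π : Equiv.Perm (Fin n)) : Pr n → Bool := fun e => z (pact π e)

/-- The graph described by `a` is isomorphic to the graph described by `z`. -/
def IsoTo (z a : Pr n → Bool) : Prop := Nonempty (graphOf a ≃g graphOf z)

/-- Every computation tree with root `start` tests at most `k` variables of the first graph more
than once; the variables of the second graph may be tested arbitrarily often. -/
def RereadsFirstAtMost (P : Program (Var n)) (k : ℕ) : Prop :=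
  ∀ T, P.Tree P.start T → #{e : Pr n | 1 < (T.map Prod.fst).count (Sum.inl e)} ≤ k


end Pool.Agent.Results.MP_128e7d_lc.Decomposable
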