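import Pool.Agent.Hhelper73.GIDefs

set_option autoImplicit false

open Finset

namespace Pool.Agent.Results.MP_128e7d_lc.Decomposable

lemma pact_mul {n : ℕ} (σ τ : Equiv.Perm (Fin n)) (e : Pr n) :
    pact (σ * τ) e = pact σ (pact τ e) := by
  apply Subtype.ext
  simp [pact, Sym2.map_map]

lemma pact_inv {n : ℕ} (σ : Equiv.Perm (Fin n)) (e : Pr n) :
    pact σ⁻¹ (pact σ e) = e := by
  rw [← pact_mul]; apply Subtype.ext; simp [pact]

lemma pact_inv' {n : ℕ} (σ : Equiv.Perm (Fin n)) (e : Pr n) :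
    pact σ (pact σ⁻¹ e) = e := by
  rw [← pact_mul]; apply Subtype.ext; simp [pact]

lemma isomorphic_iff {n : ℕ} (a : Var n → Bool) :
    Isomorphic n a ↔ ∃ σ : Equiv.Perm (Fin n), ∀ e : Pr n,
      a (Sum.inr (pact σ e)) = a (Sum.inl e) := by
  constructor
  · rintro ⟨φ⟩
    refine ⟨φ.toEquiv, ?_⟩
    rintro ⟨e, he⟩
    induction e using Sym2.ind with
    | _ i j =>
      have h := φ.map_adj_iff (v := i) (w := j)
      simp only [graphOf] at h
      rw [Bool.eq_iff_iff]
      constructor
      · intro h1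
        obtain ⟨h2, h3⟩ := h.1 ⟨(pact φ.toEquiv ⟨s(i, j), he⟩).2, h1⟩
        exact h3
      · intro h1
        obtain ⟨h2, h3⟩ := h.2 ⟨he, h1⟩
        exact h3
  · rintro ⟨σ, hσ⟩
    refine ⟨⟨σ, ?_⟩⟩
    intro i j
    simp only [graphOf]
    constructor
    · rintro ⟨h, hx⟩
      have hd : ¬ (s(i, j) : Sym2 (Fin n)).IsDiag := by
        intro hd
        apply h
        rw [Sym2.mk_isDiag_iff] at hd ⊢
        rw [hd]
      refine ⟨hd, ?_⟩
      rw [← hσ]
      exact hx
    · rintro ⟨h, hx⟩
      rw [← hσ] at hx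
      exact ⟨(pact σ ⟨s(i, j), h⟩).2, hx⟩

/-! ## Counting solutions of a system of equalities -/

/-- If `β` is injective then the number of `z : Z → Bool` with `z (β e) = z (α e)` for all `e`
drops by a factor `2` for each `e` with `r (α e) < r (β e)`, where `r` is an injective ranking. -/
lemma card_solutions_le {E Z : Type} [Fintype E] [Fintype Z] [DecidableEq Z] [DecidableEq E]
    (α β : E → Z) (hβ : Function.Injective β) (r : Z → ℕ) :
    #{z : Z → Bool | ∀ e, z (β e) = z (α e)} * 2 ^ #{e | r (α e) < r (β e)}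
      ≤ 2 ^ Fintype.card Z := by
  classical
  set T : Finset E := {e | r (α e) < r (β e)} with hT
  set B : Finset Z := T.image β with hB
  have hBcard : #B = #T := Finset.card_image_of_injective _ hβ
  have h1 : #{z : Z → Bool | ∀ e, z (β e) = z (α e)} ≤ 2 ^ (Fintype.card Z - #T) := by
    have hinj : Set.InjOn (fun (z : Z → Bool) => fun (x : {x : Z // x ∉ B}) => z x.1)
        (↑({z : Z → Bool | ∀ e, z (β e) = z (α e)} : Finset (Z → Bool)) : Set (Z → Bool)) := by
      intro z hz z' hz' hzz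
      simp only [Finset.coe_filter, Finset.mem_univ, true_and, Set.mem_ofPred_eq] at hz hz'
      have key : ∀ m : ℕ, ∀ x : Z, r x = m → z x = z' x := by
        intro m
        induction m using Nat.strong_induction_on with
        | _ m ih =>
          intro x hx
          by_cases hxB : x ∈ B
          · rw [hB, Finset.mem_image] at hxB
            obtain ⟨e, he, rfl⟩ := hxB
            rw [hz e, hz' e]
            rw [hT, Finset.mem_filter] at he
            exact ih (r (α e)) (by omega) (α e) rfl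
          · exact congrFun hzz ⟨x, hxB⟩
      funext x
      exact key _ x rfl
    have h2 := Finset.card_le_card_of_injOn (t := (Finset.univ : Finset ({x : Z // x ∉ B} → Bool)))
      _ (by intro z _; simp) hinj
    refine h2.trans (le_of_eq ?_)
    rw [Finset.card_univ, Fintype.card_fun, Fintype.card_bool]
    congr 1
    rw [Fintype.card_subtype_compl]
    simp [hBcard]
  have hTle : #T ≤ Fintype.card Z := by
    rw [← hBcard]; exact Finset.card_le_univ B
  calc #{z : Z → Bool | ∀ e, z (β e) = z (α e)} * 2 ^ #T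
      ≤ 2 ^ (Fintype.card Z - #T) * 2 ^ #T := Nat.mul_le_mul_right _ h1
    _ = 2 ^ Fintype.card Z := by rw [← pow_add]; congr 1; omega

/-- Symmetric version: each nontrivial equality costs a factor `√2`. -/
lemma card_solutions_sq_le {E Z : Type} [Fintype E] [Fintype Z] [DecidableEq Z] [DecidableEq E]
    (α β : E → Z) (hα : Function.Injective α) (hβ : Function.Injective β) :
    #{z : Z → Bool | ∀ e, z (β e) = z (α e)} ^ 2 * 2 ^ #{e | α e ≠ β e}
      ≤ 2 ^ (2 * Fintype.card Z) := by
  classical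
  let r : Z → ℕ := fun z => (Fintype.equivFin Z z : ℕ)
  have hr : Function.Injective r := by
    intro x y hxy
    exact (Fintype.equivFin Z).injective (Fin.ext hxy)
  have h1 := card_solutions_le α β hβ r
  have h2 := card_solutions_le β α hα r
  have h3 : #{z : Z → Bool | ∀ e, z (α e) = z (β e)} = #{z : Z → Bool | ∀ e, z (β e) = z (α e)} := by
    congr 1
    ext z
    simp only [Finset.mem_filter, Finset.mem_univ, true_and]
    exact ⟨fun h e => (h e).symm, fun h e => (h e).symm⟩
  rw [h3] at h2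
  have h4 : #{e | α e ≠ β e} = #{e | r (α e) < r (β e)} + #{e | r (β e) < r (α e)} := by
    rw [← Finset.card_union_of_disjoint]
    · congr 1
      ext e
      simp only [Finset.mem_filter, Finset.mem_univ, true_and, Finset.mem_union]
      constructor
      · intro h
        exact lt_or_gt_of_ne (fun h' => h (hr h'))
      · rintro (h | h) h'
        · rw [h'] at h; exact lt_irrefl _ h
        · rw [h'] at h; exact lt_irrefl _ h
    · rw [Finset.disjoint_filter]
      intro e _ h h'
      exact lt_asymm h h'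
  calc #{z : Z → Bool | ∀ e, z (β e) = z (α e)} ^ 2 * 2 ^ #{e | α e ≠ β e}
      = (#{z : Z → Bool | ∀ e, z (β e) = z (α e)} * 2 ^ #{e | r (α e) < r (β e)}) *
        (#{z : Z → Bool | ∀ e, z (β e) = z (α e)} * 2 ^ #{e | r (β e) < r (α e)}) := by
        rw [h4, pow_add]; ring
    _ ≤ 2 ^ Fintype.card Z * 2 ^ Fintype.card Z := Nat.mul_le_mul h1 h2
    _ = 2 ^ (2 * Fintype.card Z) := by rw [← pow_add]; congr 1; omega

/-! ## Rectangles -/

/-- the first variable of the `e`-th equation -/
def alph {n : ℕ} (S : Finset (Var n)) (e : Pr n) : Pr n ⊕ Pr n :=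
  if Sum.inl e ∈ S then Sum.inl e else Sum.inr e

/-- the second variable of the `e`-th equation -/
def bet {n : ℕ} (S : Finset (Var n)) (π π' σ : Equiv.Perm (Fin n)) (e : Pr n) : Pr n ⊕ Pr n :=
  if Sum.inr (pact σ e) ∈ S then Sum.inl (pact π⁻¹ (pact σ e)) else Sum.inr (pact π'⁻¹ (pact σ e))

lemma alph_inj {n : ℕ} (S : Finset (Var n)) : Function.Injective (alph S) := by
  intro e e' h
  unfold alph at h
  split_ifs at h <;> simpa using h

lemma bet_inj {n : ℕ} (S : Finset (Var n)) (π π' σ : Equiv.Perm (Fin n)) :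
    Function.Injective (bet S π π' σ) := by
  intro e e' h
  unfold bet at h
  split_ifs at h <;> simpa using h

lemma inp_isomorphic {n : ℕ} (π : Equiv.Perm (Fin n)) (G : Pr n → Bool) :
    Isomorphic n (inp π G) := by
  rw [isomorphic_iff]
  refine ⟨π, fun e => ?_⟩
  simp [inp, pact_inv]


/-! ## Large fibres of mixable sets -/

section mix

variable {n : ℕ}

/-- the fibre of `R` over `π` -/
def fib (R : Finset (Equiv.Perm (Fin n) × (Pr n → Bool))) (π : Equiv.Perm (Fin n)) :
    Finset (Pr n → Bool) := {G | (π, G) ∈ R}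

/-- a permutation with a large fibre -/
def Heavy (R : Finset (Equiv.Perm (Fin n) × (Pr n → Bool))) (π : Equiv.Perm (Fin n)) : Prop :=
  2 ^ Fintype.card (Pr n) ≤ n.factorial * #(fib R π)

lemma fib_card_le (R : Finset (Equiv.Perm (Fin n) × (Pr n → Bool))) (π : Equiv.Perm (Fin n)) :
    #(fib R π) ≤ 2 ^ Fintype.card (Pr n) := by
  refine (Finset.card_le_univ _).trans (le_of_eq ?_)
  rw [Fintype.card_fun, Fintype.card_bool]

lemma card_eq_sum_fib (R : Finset (Equiv.Perm (Fin n) × (Pr n → Bool))) :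
    #R = ∑ π, #(fib R π) := by
  rw [Finset.card_eq_sum_card_fiberwise (f := Prod.fst) (t := Finset.univ) (by intro x _; simp)]
  refine Finset.sum_congr rfl fun π _ => ?_
  refine Finset.card_bij' (fun p _ => p.2) (fun G _ => (π, G)) ?_ ?_ ?_ ?_
  · rintro ⟨a, G⟩ h
    simp only [Finset.mem_filter] at h
    obtain ⟨h1, rfl⟩ := h
    simpa [fib] using h1
  · intro G hG
    simpa [fib] using hG
  · rintro ⟨a, G⟩ h
    simp only [Finset.mem_filter] at h
    obtain ⟨h1, rfl⟩ := h
    rfl
  · intro G _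
    rfl

open Classical in
/-- If there are at most `B` heavy permutations, then `R` is small. -/
lemma card_le_of_heavy (R : Finset (Equiv.Perm (Fin n) × (Pr n → Bool))) (B : ℕ)
    (hB : #{π | Heavy R π} ≤ B) : #R ≤ (B + 1) * 2 ^ Fintype.card (Pr n) := by
  set M := Fintype.card (Pr n) with hM
  have hn : 0 < n.factorial := Nat.factorial_pos n
  have h1 : n.factorial * #R ≤ n.factorial * ((B + 1) * 2 ^ M) := by
    rw [card_eq_sum_fib R, Finset.mul_sum,
      ← Finset.sum_filter_add_sum_filter_not Finset.univ (fun π => Heavy R π)]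
    have h2 : ∑ π ∈ ({π | Heavy R π} : Finset (Equiv.Perm (Fin n))), n.factorial * #(fib R π)
        ≤ B * (n.factorial * 2 ^ M) := by
      refine (Finset.sum_le_card_nsmul _ _ (n.factorial * 2 ^ M) ?_).trans ?_
      · intro π _
        exact Nat.mul_le_mul_left _ (fib_card_le R π)
      · rw [smul_eq_mul]
        exact Nat.mul_le_mul_right _ hB
    have h3 : ∑ π ∈ ({π | ¬ Heavy R π} : Finset (Equiv.Perm (Fin n))), n.factorial * #(fib R π)
        ≤ n.factorial * 2 ^ M := by
      refine (Finset.sum_le_card_nsmul _ _ (2 ^ M) ?_).trans ?_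
      · intro π hπ
        simp only [Heavy, Finset.mem_filter, Finset.mem_univ, true_and, not_le] at hπ
        exact hπ.le
      · rw [smul_eq_mul]
        refine Nat.mul_le_mul_right _ ?_
        refine (Finset.card_le_univ _).trans (le_of_eq ?_)
        rw [Fintype.card_perm, Fintype.card_fin]
    calc _ ≤ B * (n.factorial * 2 ^ M) + n.factorial * 2 ^ M := Nat.add_le_add h2 h3
      _ = n.factorial * ((B + 1) * 2 ^ M) := by ring
  exact Nat.le_of_mul_le_mul_left h1 hn

/-- `R` can be mixed along `S`. -/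
def Mixable (S : Finset (Var n)) (R : Finset (Equiv.Perm (Fin n) × (Pr n → Bool))) : Prop :=
  ∀ p ∈ R, ∀ q ∈ R, Isomorphic n (fun x => if x ∈ S then inp p.1 p.2 x else inp q.1 q.2 x)

/-- For two heavy permutations some `σ` yields few nontrivial equations. -/
lemma exists_sigma (S : Finset (Var n)) (R : Finset (Equiv.Perm (Fin n) × (Pr n → Bool)))
    (hmix : Mixable S R) (π π' : Equiv.Perm (Fin n)) (hπ : Heavy R π) (hπ' : Heavy R π') :
    ∃ σ : Equiv.Perm (Fin n), 2 ^ #{e | alph S e ≠ bet S π π' σ e} ≤ n.factorial ^ 6 := by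
  classical
  unfold Heavy at hπ hπ'
  set M := Fintype.card (Pr n) with hM
  let sol : Equiv.Perm (Fin n) → Finset (Pr n ⊕ Pr n → Bool) := fun σ =>
    {z | ∀ e, z (bet S π π' σ e) = z (alph S e)}
  obtain ⟨σ, -, hσ⟩ := Finset.exists_max_image (Finset.univ : Finset (Equiv.Perm (Fin n)))
    (fun σ => #(sol σ)) ⟨1, Finset.mem_univ _⟩
  refine ⟨σ, ?_⟩
  have h1 : #(fib R π) * #(fib R π') ≤ n.factorial * #(sol σ) := by
    have h2 : (fib R π ×ˢ fib R π').image (fun p => (Sum.elim p.1 p.2 : Pr n ⊕ Pr n → Bool)) ⊆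
        (Finset.univ : Finset (Equiv.Perm (Fin n))).biUnion sol := by
      intro z hz
      rw [Finset.mem_image] at hz
      obtain ⟨⟨G, G'⟩, hGG, rfl⟩ := hz
      rw [Finset.mem_product] at hGG
      simp only [fib, Finset.mem_filter, Finset.mem_univ, true_and] at hGG
      have h3 := hmix _ hGG.1 _ hGG.2
      rw [isomorphic_iff] at h3
      obtain ⟨τ, hτ⟩ := h3
      rw [Finset.mem_biUnion]
      refine ⟨τ, Finset.mem_univ _, ?_⟩
      simp only [sol, Finset.mem_filter, Finset.mem_univ, true_and]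
      intro e
      have h4 := hτ e
      unfold bet alph
      split_ifs at h4 ⊢ <;> simpa [inp] using h4
    have h3 : #((fib R π ×ˢ fib R π').image
        (fun p => (Sum.elim p.1 p.2 : Pr n ⊕ Pr n → Bool))) = #(fib R π) * #(fib R π') := by
      rw [Finset.card_image_of_injective, Finset.card_product]
      rintro ⟨G, G'⟩ ⟨K, K'⟩ h
      simp only at h
      have h5 : G = K := by
        funext e
        have := congrFun h (Sum.inl e)
        simpa using this
      have h6 : G' = K' := by
        funext e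
        have := congrFun h (Sum.inr e)
        simpa using this
      rw [h5, h6]
    rw [← h3]
    refine (Finset.card_le_card h2).trans (Finset.card_biUnion_le.trans ?_)
    refine (Finset.sum_le_card_nsmul _ _ (#(sol σ)) ?_).trans (le_of_eq ?_)
    · intro τ hτ
      exact hσ τ hτ
    · rw [smul_eq_mul, Finset.card_univ, Fintype.card_perm, Fintype.card_fin]
  have h2 : #(sol σ) ^ 2 * 2 ^ #{e | alph S e ≠ bet S π π' σ e} ≤ 2 ^ (2 * Fintype.card (Pr n ⊕ Pr n)) :=
    card_solutions_sq_le (alph S) (bet S π π' σ) (alph_inj S) (bet_inj S π π' σ)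
  rw [Fintype.card_sum, ← hM] at h2
  set k := #{e | alph S e ≠ bet S π π' σ e} with hk
  have h3 : (2 ^ M) * (2 ^ M) ≤ (n.factorial * #(fib R π)) * (n.factorial * #(fib R π')) :=
    Nat.mul_le_mul hπ hπ'
  have h4 : (2 ^ M) * (2 ^ M) ≤ n.factorial ^ 3 * #(sol σ) := by
    calc (2 ^ M) * (2 ^ M) ≤ (n.factorial * #(fib R π)) * (n.factorial * #(fib R π')) := h3
      _ = n.factorial ^ 2 * (#(fib R π) * #(fib R π')) := by ring
      _ ≤ n.factorial ^ 2 * (n.factorial * #(sol σ)) := Nat.mul_le_mul_left _ h1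
      _ = n.factorial ^ 3 * #(sol σ) := by ring
  have h5 : 2 ^ k * 2 ^ (2 * (M + M)) ≤ (n.factorial ^ 6) * 2 ^ (2 * (M + M)) := by
    calc 2 ^ k * 2 ^ (2 * (M + M)) = 2 ^ k * ((2 ^ M) * (2 ^ M)) ^ 2 := by
          congr 1
          rw [← pow_add, ← pow_mul]
          congr 1
          ring
      _ ≤ 2 ^ k * (n.factorial ^ 3 * #(sol σ)) ^ 2 :=
          Nat.mul_le_mul_left _ (Nat.pow_le_pow_left h4 2)
      _ = (n.factorial ^ 6) * (#(sol σ) ^ 2 * 2 ^ k) := by ring
      _ ≤ (n.factorial ^ 6) * 2 ^ (2 * (M + M)) := Nat.mul_le_mul_left _ h2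
  exact Nat.le_of_mul_le_mul_right h5 (by positivity)

end mix

/-! ## Degrees -/

/-- `i` and `j` are joined by a pair of `T` -/
def conn {n : ℕ} (T : Finset (Pr n)) (i j : Fin n) : Prop :=
  ∃ h : ¬ (s(i, j) : Sym2 (Fin n)).IsDiag, (⟨s(i, j), h⟩ : Pr n) ∈ T

lemma conn_symm {n : ℕ} {T : Finset (Pr n)} {i j : Fin n} (h : conn T i j) : conn T j i := by
  obtain ⟨h1, h2⟩ := h
  have hs : (s(i, j) : Sym2 (Fin n)) = s(j, i) := Sym2.eq_swap
  refine ⟨hs ▸ h1, ?_⟩
  simpa [hs] using h2

open Classical in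
/-- the degree of `i` in `T` -/
noncomputable def deg {n : ℕ} (T : Finset (Pr n)) (i : Fin n) : ℕ := #{j | conn T i j}

open Classical in
lemma sum_deg_le {n : ℕ} (T : Finset (Pr n)) : ∑ i, deg T i ≤ 2 * #T := by
  have h0 : ∑ i, deg T i = #{p : Fin n × Fin n | conn T p.1 p.2} := by
    rw [Finset.card_eq_sum_card_fiberwise (f := Prod.fst) (t := Finset.univ) (by intro x _; simp)]
    refine Finset.sum_congr rfl fun i _ => ?_
    unfold deg
    refine Finset.card_bij' (fun j _ => (i, j)) (fun p _ => p.2) ?_ ?_ ?_ ?_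
    · intro j hj
      simpa using hj
    · rintro ⟨a, b⟩ h
      simp only [Finset.mem_filter, Finset.mem_univ, true_and] at h
      obtain ⟨h1, rfl⟩ := h
      simpa using h1
    · intro j _
      rfl
    · rintro ⟨a, b⟩ h
      simp only [Finset.mem_filter, Finset.mem_univ, true_and] at h
      obtain ⟨h1, rfl⟩ := h
      rfl
  rw [h0]
  have h1 : #(T.image Subtype.val) = #T := Finset.card_image_of_injective _ Subtype.val_injective
  rw [← h1]
  refine Finset.card_le_mul_card_image_of_maps_to (f := fun p : Fin n × Fin n => (s(p.1, p.2) : Sym2 (Fin n)))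
    ?_ 2 ?_
  · rintro ⟨i, j⟩ h
    simp only [Finset.mem_filter, Finset.mem_univ, true_and] at h
    obtain ⟨h1, h2⟩ := h
    rw [Finset.mem_image]
    exact ⟨_, h2, rfl⟩
  · intro b _
    induction b using Sym2.ind with
    | _ x y =>
      have : ({p ∈ ({p : Fin n × Fin n | conn T p.1 p.2} : Finset (Fin n × Fin n)) |
          (s(p.1, p.2) : Sym2 (Fin n)) = s(x, y)}) ⊆ {(x, y), (y, x)} := by
        rintro ⟨i, j⟩ h
        simp only [Finset.mem_filter, Finset.mem_univ, true_and] at h
        have h2 := h.2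
        rw [Sym2.eq_iff] at h2
        rcases h2 with ⟨rfl, rfl⟩ | ⟨rfl, rfl⟩ <;> simp
      exact (Finset.card_le_card this).trans Finset.card_le_two

open Classical in
lemma count1 {n : ℕ} (T : Finset (Pr n)) (τ : Equiv.Perm (Fin n)) (D K : ℕ)
    (hK : #{e ∈ T | pact τ e ≠ e} ≤ K) :
    (D - 1) * #{i | τ i ≠ i ∧ D ≤ deg T i} ≤ 2 * K := by
  set Nt : Finset (Pr n) := {e ∈ T | pact τ e ≠ e} with hNt
  have h1 : ∀ i ∈ ({i | τ i ≠ i ∧ D ≤ deg T i} : Finset (Fin n)), D - 1 ≤ deg Nt i := by
    intro i hi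
    simp only [Finset.mem_filter, Finset.mem_univ, true_and] at hi
    have h2 : ({j | conn T i j} : Finset (Fin n)).erase (τ i) ⊆ ({j | conn Nt i j} : Finset (Fin n)) := by
      intro j hj
      rw [Finset.mem_erase] at hj
      obtain ⟨hj1, hj2⟩ := hj
      simp only [Finset.mem_filter, Finset.mem_univ, true_and] at hj2 ⊢
      obtain ⟨hd, hm⟩ := hj2
      refine ⟨hd, ?_⟩
      rw [hNt, Finset.mem_filter]
      refine ⟨hm, ?_⟩
      intro he
      have h3 : (s(τ i, τ j) : Sym2 (Fin n)) = s(i, j) := congrArg Subtype.val he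
      rw [Sym2.eq_iff] at h3
      rcases h3 with ⟨h4, _⟩ | ⟨h4, _⟩
      · exact hi.1 h4
      · exact hj1 h4.symm
    have h3 := Finset.card_le_card h2
    have h4 := Finset.pred_card_le_card_erase (s := ({j | conn T i j} : Finset (Fin n))) (a := τ i)
    have h5 : deg T i = #{j | conn T i j} := rfl
    have h6 : deg Nt i = #{j | conn Nt i j} := rfl
    omega
  calc (D - 1) * #{i | τ i ≠ i ∧ D ≤ deg T i}
      = #{i | τ i ≠ i ∧ D ≤ deg T i} • (D - 1) := by rw [smul_eq_mul, mul_comm]
    _ ≤ ∑ i ∈ ({i | τ i ≠ i ∧ D ≤ deg T i} : Finset (Fin n)), deg Nt i :=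
        Finset.card_nsmul_le_sum _ _ _ h1
    _ ≤ ∑ i, deg Nt i := Finset.sum_le_univ_sum_of_nonneg (fun _ => Nat.zero_le _)
    _ ≤ 2 * #Nt := sum_deg_le Nt
    _ ≤ 2 * K := Nat.mul_le_mul_left _ hK

/-- the part of `S` in the first graph -/
def left {n : ℕ} (S : Finset (Var n)) : Finset (Pr n) := {e | Sum.inl e ∈ S}


/-! ## Few disagreements -/

section comb

variable {n : ℕ}

open Classical in
lemma card_disagree_le (S : Finset (Var n)) (D K r : ℕ) (hD : 2 ≤ D)
    (hr : 4 * K ≤ (D - 1) * r) (π π' σ : Equiv.Perm (Fin n))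
    (hK : #{e | alph S e ≠ bet S π π' σ e} ≤ K) :
    #{i | π i ≠ π' i ∧ D ≤ deg (left S) i ∧ D ≤ deg (left S)ᶜ i} ≤ r := by
  have h1 : #{e ∈ left S | pact (π⁻¹ * σ) e ≠ e} ≤ K := by
    refine (Finset.card_le_card ?_).trans hK
    intro e he
    simp only [left, Finset.mem_filter, Finset.mem_univ, true_and] at he ⊢
    obtain ⟨he1, he2⟩ := he
    intro h
    unfold alph bet at h
    rw [if_pos he1] at h
    split_ifs at h with h3
    · apply he2
      rw [pact_mul]
      exact (Sum.inl_injective h).symm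
  have h2 := count1 (left S) (π⁻¹ * σ) D K h1
  have h3 : #{e ∈ (left S)ᶜ | pact (π'⁻¹ * σ) e ≠ e} ≤ K := by
    refine (Finset.card_le_card ?_).trans hK
    intro e he
    simp only [left, Finset.mem_filter, Finset.mem_univ, true_and, Finset.mem_compl] at he ⊢
    obtain ⟨he1, he2⟩ := he
    intro h
    unfold alph bet at h
    rw [if_neg he1] at h
    split_ifs at h with h3
    · apply he2
      rw [pact_mul]
      exact (Sum.inr_injective h).symm
  have h4 := count1 (left S)ᶜ (π'⁻¹ * σ) D K h3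
  have h5 : ({i | π i ≠ π' i ∧ D ≤ deg (left S) i ∧ D ≤ deg (left S)ᶜ i} : Finset (Fin n)) ⊆
      ({i | (π⁻¹ * σ) i ≠ i ∧ D ≤ deg (left S) i} : Finset (Fin n)) ∪
      ({i | (π'⁻¹ * σ) i ≠ i ∧ D ≤ deg (left S)ᶜ i} : Finset (Fin n)) := by
    intro i hi
    simp only [Finset.mem_union, Finset.mem_filter, Finset.mem_univ, true_and] at hi ⊢
    obtain ⟨hi1, hi2, hi3⟩ := hi
    by_contra hcon
    push Not at hcon
    obtain ⟨ha, hb⟩ := hcon
    by_cases h1 : (π⁻¹ * σ) i = i
    · by_cases h2 : (π'⁻¹ * σ) i = i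
      · have ha' : σ i = π i := by
          have := congrArg π h1
          simpa using this
        have hb' : σ i = π' i := by
          have := congrArg π' h2
          simpa using this
        exact hi1 (by rw [← ha', hb'])
      · have := hb h2
        omega
    · have := ha h1
      omega
  have h6 := (Finset.card_le_card h5).trans (Finset.card_union_le _ _)
  have h7 : (D - 1) * #{i | π i ≠ π' i ∧ D ≤ deg (left S) i ∧ D ≤ deg (left S)ᶜ i}
      ≤ (D - 1) * r := by
    calc _ ≤ (D - 1) * (#{i | (π⁻¹ * σ) i ≠ i ∧ D ≤ deg (left S) i} +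
          #{i | (π'⁻¹ * σ) i ≠ i ∧ D ≤ deg (left S)ᶜ i}) := Nat.mul_le_mul_left _ h6
      _ = (D - 1) * #{i | (π⁻¹ * σ) i ≠ i ∧ D ≤ deg (left S) i} +
          (D - 1) * #{i | (π'⁻¹ * σ) i ≠ i ∧ D ≤ deg (left S)ᶜ i} := Nat.mul_add _ _ _
      _ ≤ 2 * K + 2 * K := Nat.add_le_add h2 h4
      _ = 4 * K := by ring
      _ ≤ _ := hr
  exact Nat.le_of_mul_le_mul_left h7 (by omega)

open Classical in
lemma deg_add_compl (T : Finset (Pr n)) (i : Fin n) : deg T i + deg Tᶜ i = n - 1 := by
  unfold deg
  rw [← Finset.card_union_of_disjoint]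
  · have : ({j | conn T i j} : Finset (Fin n)) ∪ ({j | conn Tᶜ i j} : Finset (Fin n)) =
        (Finset.univ : Finset (Fin n)).erase i := by
      ext j
      simp only [Finset.mem_union, Finset.mem_filter, Finset.mem_univ, true_and, Finset.mem_erase,
        and_true, conn]
      constructor
      · rintro (⟨h, -⟩ | ⟨h, -⟩) rfl <;> exact h (by simp)
      · intro h
        have hd : ¬ (s(i, j) : Sym2 (Fin n)).IsDiag := by
          rw [Sym2.mk_isDiag_iff]; exact fun h' => h h'.symm
        by_cases hT : (⟨s(i, j), hd⟩ : Pr n) ∈ T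
        · exact Or.inl ⟨hd, hT⟩
        · exact Or.inr ⟨hd, by simpa using hT⟩
    rw [this, Finset.card_erase_of_mem (Finset.mem_univ _), Finset.card_univ, Fintype.card_fin]
  · rw [Finset.disjoint_filter]
    rintro j - ⟨h1, h2⟩ ⟨h3, h4⟩
    rw [Finset.mem_compl] at h4
    exact h4 h2

open Classical in
lemma deg_union_le (T U : Finset (Pr n)) (i : Fin n) : deg (T ∪ U) i ≤ deg T i + deg U i := by
  unfold deg
  refine le_trans (Finset.card_le_card ?_) (Finset.card_union_le _ _)
  intro j
  simp only [Finset.mem_union, Finset.mem_filter, Finset.mem_univ, true_and, conn]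
  rintro ⟨h1, h2 | h2⟩
  · exact Or.inl ⟨h1, h2⟩
  · exact Or.inr ⟨h1, h2⟩

open Classical in
/-- the number of vertices nearly all of whose pairs lie in `T` -/
noncomputable def pure (D : ℕ) (T : Finset (Pr n)) : ℕ := #{i | deg Tᶜ i < D}

open Classical in
lemma pure_pair (D : ℕ) (hD : 1 ≤ D) (hn : 2 * D ≤ n) (T : Finset (Pr n))
    (hT : 2 * D - 2 < pure D T) : #{i | deg T i < D} ≤ 2 * D - 2 := by
  by_contra hcon
  push Not at hcon
  obtain ⟨A, hA1, hA2⟩ := Finset.exists_subset_card_eq (Nat.succ_le_of_lt hT)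
  obtain ⟨B, hB1, hB2⟩ := Finset.exists_subset_card_eq (Nat.succ_le_of_lt hcon)
  have hA : ∀ i ∈ A, deg Tᶜ i < D := fun i hi => by simpa using hA1 hi
  have hB : ∀ i ∈ B, deg T i < D := fun i hi => by simpa using hB1 hi
  have hne : ∀ i ∈ A, ∀ j ∈ B, i ≠ j := by
    rintro i hi j hj rfl
    have h1 := hA i hi
    have h2 := hB i hj
    have h3 := deg_add_compl T i
    omega
  -- count the pairs in `A × B`
  have h1 : A ×ˢ B ⊆ ({p ∈ A ×ˢ B | conn Tᶜ p.1 p.2} : Finset (Fin n × Fin n)) ∪
      ({p ∈ A ×ˢ B | conn T p.2 p.1} : Finset (Fin n × Fin n)) := by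
    rintro ⟨i, j⟩ hp
    rw [Finset.mem_product] at hp
    have hd : ¬ (s(i, j) : Sym2 (Fin n)).IsDiag := by
      rw [Sym2.mk_isDiag_iff]; exact hne i hp.1 j hp.2
    simp only [Finset.mem_union, Finset.mem_filter, Finset.mem_product]
    by_cases hT : (⟨s(i, j), hd⟩ : Pr n) ∈ T
    · exact Or.inr ⟨hp, conn_symm ⟨hd, hT⟩⟩
    · exact Or.inl ⟨hp, ⟨hd, by simpa using hT⟩⟩
  have h2 : #({p ∈ A ×ˢ B | conn Tᶜ p.1 p.2} : Finset (Fin n × Fin n)) ≤ #A * (D - 1) := by
    refine (Finset.card_le_mul_card_image_of_maps_to (f := Prod.fst) (t := A) ?_ (D - 1) ?_).trans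
      (le_of_eq (mul_comm _ _))
    · rintro ⟨i, j⟩ h
      simp only [Finset.mem_filter, Finset.mem_product] at h
      exact h.1.1
    · intro i hi
      have h3 := hA i hi
      refine le_trans ?_ (Nat.le_sub_one_of_lt h3)
      unfold deg
      refine Finset.card_le_card_of_injOn Prod.snd ?_ ?_
      · rintro ⟨i', j⟩ h
        simp only [Finset.coe_filter, Finset.mem_filter, Finset.mem_product, Set.mem_ofPred_eq,
          Finset.mem_univ, true_and] at h ⊢
        obtain ⟨⟨_, h⟩, rfl⟩ := h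
        exact h
      · rintro ⟨i1, j1⟩ h1 ⟨i2, j2⟩ h2 h
        simp only [Finset.coe_filter, Finset.mem_filter, Finset.mem_product,
          Set.mem_ofPred_eq] at h1 h2 h
        rw [h1.2, h2.2, h]
  have h3 : #({p ∈ A ×ˢ B | conn T p.2 p.1} : Finset (Fin n × Fin n)) ≤ #B * (D - 1) := by
    refine (Finset.card_le_mul_card_image_of_maps_to (f := Prod.snd) (t := B) ?_ (D - 1) ?_).trans
      (le_of_eq (mul_comm _ _))
    · rintro ⟨i, j⟩ h
      simp only [Finset.mem_filter, Finset.mem_product] at h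
      exact h.1.2
    · intro j hj
      have h3 := hB j hj
      refine le_trans ?_ (Nat.le_sub_one_of_lt h3)
      unfold deg
      refine Finset.card_le_card_of_injOn Prod.fst ?_ ?_
      · rintro ⟨i, j'⟩ h
        simp only [Finset.coe_filter, Finset.mem_filter, Finset.mem_product, Set.mem_ofPred_eq,
          Finset.mem_univ, true_and] at h ⊢
        obtain ⟨⟨_, h⟩, rfl⟩ := h
        exact h
      · rintro ⟨i1, j1⟩ h1 ⟨i2, j2⟩ h2 h
        simp only [Finset.coe_filter, Finset.mem_filter, Finset.mem_product,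
          Set.mem_ofPred_eq] at h1 h2 h
        rw [h1.2, h2.2, h]
  have h4 := (Finset.card_le_card h1).trans (Finset.card_union_le _ _)
  rw [Finset.card_product, hA2, hB2] at h4
  rw [hA2] at h2
  rw [hB2] at h3
  obtain ⟨d, rfl⟩ : ∃ d, D = d + 1 := ⟨D - 1, by omega⟩
  have e1 : (2 * (d + 1) - 2).succ = 2 * d + 1 := by omega
  have e2 : d + 1 - 1 = d := by omega
  rw [e1] at h4 h2 h3
  rw [e2] at h2 h3
  nlinarith

end comb


section comb2

variable {n : ℕ}

open Classical in
lemma fork_count (S1 S2 S3 : Finset (Var n)) (hU : left S3 = left S1 ∪ left S2)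
    (D K r : ℕ) (hD : 2 ≤ D) (hr : 4 * K ≤ (D - 1) * r) (hn : 3 * D + 1 ≤ n)
    (h1 : pure D (left S1) ≤ 2 * D - 2) (h2 : pure D (left S2) ≤ 2 * D - 2)
    (h3 : 2 * D - 2 < pure D (left S3)) (π π' : Equiv.Perm (Fin n))
    (hK1 : ∃ σ, #{e | alph S1 e ≠ bet S1 π π' σ e} ≤ K)
    (hK2 : ∃ σ, #{e | alph S2 e ≠ bet S2 π π' σ e} ≤ K)
    (hK3 : ∃ σ, #{e | alph S3 e ≠ bet S3 π π' σ e} ≤ K) :
    #{i | π i ≠ π' i} ≤ 3 * (2 * D - 2) + 3 * r := by
  obtain ⟨σ1, hσ1⟩ := hK1
  obtain ⟨σ2, hσ2⟩ := hK2
  obtain ⟨σ3, hσ3⟩ := hK3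
  have g1 := card_disagree_le S1 D K r hD hr π π' σ1 hσ1
  have g2 := card_disagree_le S2 D K r hD hr π π' σ2 hσ2
  have g3 := card_disagree_le S3 D K r hD hr π π' σ3 hσ3
  have g4 := pure_pair D (by omega) (by omega) (left S3) h3
  unfold pure at h1 h2
  set A1 : Finset (Fin n) := {i | deg (left S1)ᶜ i < D} with hA1
  set A2 : Finset (Fin n) := {i | deg (left S2)ᶜ i < D} with hA2
  set A3 : Finset (Fin n) := {i | deg (left S3) i < D} with hA3
  set B1 : Finset (Fin n) := {i | π i ≠ π' i ∧ D ≤ deg (left S1) i ∧ D ≤ deg (left S1)ᶜ i} with hB1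
  set B2 : Finset (Fin n) := {i | π i ≠ π' i ∧ D ≤ deg (left S2) i ∧ D ≤ deg (left S2)ᶜ i} with hB2
  set B3 : Finset (Fin n) := {i | π i ≠ π' i ∧ D ≤ deg (left S3) i ∧ D ≤ deg (left S3)ᶜ i} with hB3
  have hsub : ({i | π i ≠ π' i} : Finset (Fin n)) ⊆
      ((A1 ∪ A2) ∪ A3) ∪ ((B1 ∪ B2) ∪ B3) := by
    intro i hi
    simp only [hA1, hA2, hA3, hB1, hB2, hB3, Finset.mem_union, Finset.mem_filter,
      Finset.mem_univ, true_and] at hi ⊢
    by_contra hcon
    push Not at hcon
    obtain ⟨⟨⟨c1, c2⟩, c3⟩, ⟨c4, c5⟩, c6⟩ := hcon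
    have d1 := c4 hi
    have d2 := c5 hi
    have d3 := c6 hi c3
    have e3 := deg_add_compl (left S3) i
    have e4 := deg_union_le (left S1) (left S2) i
    rw [← hU] at e4
    rcases le_or_gt D (deg (left S1) i) with f1 | f1
    · have := d1 f1
      omega
    · rcases le_or_gt D (deg (left S2) i) with f2 | f2
      · have := d2 f2
        omega
      · omega
  refine (Finset.card_le_card hsub).trans ((Finset.card_union_le _ _).trans ?_)
  have k1 := Finset.card_union_le (A1 ∪ A2) A3
  have k2 := Finset.card_union_le A1 A2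
  have k3 := Finset.card_union_le (B1 ∪ B2) B3
  have k4 := Finset.card_union_le B1 B2
  omega

open Classical in
lemma edge_count (S : Finset (Var n))
    (D K r : ℕ) (hD : 3 ≤ D) (hr : 4 * K ≤ (D - 2) * r) (hn : 2 * D ≤ n)
    (h1 : #{i | deg (left S)ᶜ i < D - 1} ≤ 2 * D - 2)
    (h3 : 2 * D - 2 < pure D (left S)) (π π' : Equiv.Perm (Fin n))
    (hK : ∃ σ, #{e | alph S e ≠ bet S π π' σ e} ≤ K) :
    #{i | π i ≠ π' i} ≤ 2 * (2 * D - 2) + r := by
  obtain ⟨σ1, hσ1⟩ := hK
  have g1 := card_disagree_le S (D - 1) K r (by omega)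
    (by have : D - 1 - 1 = D - 2 := by omega
        rw [this]; exact hr) π π' σ1 hσ1
  have g4 := pure_pair D (by omega) (by omega) (left S) h3
  set A1 : Finset (Fin n) := {i | deg (left S)ᶜ i < D - 1} with hA1
  set A2 : Finset (Fin n) := {i | deg (left S) i < D} with hA2
  set B1 : Finset (Fin n) :=
    {i | π i ≠ π' i ∧ D - 1 ≤ deg (left S) i ∧ D - 1 ≤ deg (left S)ᶜ i} with hB1
  have hsub : ({i | π i ≠ π' i} : Finset (Fin n)) ⊆ (A1 ∪ A2) ∪ B1 := by
    intro i hi
    simp only [hA1, hA2, hB1, Finset.mem_union, Finset.mem_filter, Finset.mem_univ,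
      true_and] at hi ⊢
    by_contra hcon
    push Not at hcon
    obtain ⟨⟨c1, c2⟩, c4⟩ := hcon
    have := c4 hi (by omega)
    omega
  refine (Finset.card_le_card hsub).trans ((Finset.card_union_le _ _).trans ?_)
  have k2 := Finset.card_union_le A1 A2
  omega

open Classical in
/-- The number of permutations differing from a given one at most on a set `A`. -/
lemma card_fix_off (π0 : Equiv.Perm (Fin n)) (A : Finset (Fin n)) :
    #{π : Equiv.Perm (Fin n) | ∀ i, i ∉ A → π i = π0 i} ≤ (#A).factorial := by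
  have h1 : Fintype.card {f : Equiv.Perm (Fin n) // ∀ a, ¬ (a ∈ A) → f a = a} = (#A).factorial := by
    rw [← Fintype.card_congr (Equiv.Perm.subtypeEquivSubtypePerm (fun a => a ∈ A)),
      Fintype.card_perm, Fintype.card_coe]
  rw [← h1]
  have h2 : ∀ π : Equiv.Perm (Fin n), (∀ i, i ∉ A → π i = π0 i) →
      ∀ a, ¬ (a ∈ A) → (π0⁻¹ * π) a = a := by
    intro π hπ a ha
    rw [Equiv.Perm.mul_apply, hπ a ha]
    simp
  rw [← Fintype.card_subtype]
  refine Fintype.card_le_of_injective
    (fun π : {π : Equiv.Perm (Fin n) // ∀ i, i ∉ A → π i = π0 i} =>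
      (⟨π0⁻¹ * π.1, h2 π.1 π.2⟩ : {f : Equiv.Perm (Fin n) // ∀ a, ¬ (a ∈ A) → f a = a})) ?_
  rintro ⟨x, hx⟩ ⟨y, hy⟩ hxy
  simp only [Subtype.mk.injEq, mul_right_inj] at hxy
  exact Subtype.ext hxy

/-- A family of permutations which pairwise disagree in at most `m` points has at most
`n ^ m` members. -/
lemma card_close {m : ℕ} (hn : 1 ≤ n) (P0 : Finset (Equiv.Perm (Fin n)))
    (h : ∀ π ∈ P0, ∀ π' ∈ P0, #{i | π i ≠ π' i} ≤ m) : #P0 ≤ n ^ m := by
  classical
  rcases Finset.eq_empty_or_nonempty P0 with rfl | ⟨π0, hπ0⟩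
  · simp
  set m' := min m n with hm'
  have h1 : P0 ⊆ (Finset.powersetCard m' (Finset.univ : Finset (Fin n))).biUnion
      (fun A => {π : Equiv.Perm (Fin n) | ∀ i, i ∉ A → π i = π0 i}) := by
    intro π hπ
    have h2 := h π hπ π0 hπ0
    have h3 : #{i | π i ≠ π0 i} ≤ n := by
      refine (Finset.card_le_univ _).trans (le_of_eq (Fintype.card_fin n))
    have h4 : #{i | π i ≠ π0 i} ≤ m' := le_min h2 h3
    have h5 : m' ≤ #(Finset.univ : Finset (Fin n)) := by
      rw [Finset.card_univ, Fintype.card_fin]; exact min_le_right _ _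
    obtain ⟨A, hA1, -, hA3⟩ := Finset.exists_subsuperset_card_eq
      (Finset.subset_univ ({i | π i ≠ π0 i} : Finset (Fin n))) h4 h5
    rw [Finset.mem_biUnion]
    refine ⟨A, ?_, ?_⟩
    · rw [Finset.mem_powersetCard]
      exact ⟨Finset.subset_univ _, hA3⟩
    · simp only [Finset.mem_filter, Finset.mem_univ, true_and]
      intro i hi
      by_contra hne
      exact hi (hA1 (by simpa using hne))
  refine (Finset.card_le_card h1).trans ?_
  refine (Finset.card_biUnion_le_card_mul _ _ (m'.factorial) ?_).trans ?_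
  · intro A hA
    rw [Finset.mem_powersetCard] at hA
    rw [← hA.2]
    exact card_fix_off π0 A
  · rw [Finset.card_powersetCard, Finset.card_univ, Fintype.card_fin, mul_comm,
      ← Nat.descFactorial_eq_factorial_mul_choose]
    refine (Nat.descFactorial_le_pow n m').trans ?_
    exact Nat.pow_le_pow_right hn (min_le_left _ _)

end comb2

/-- the number of true variables of an isomorphic pair is even -/
lemma even_card {n : ℕ} {a : Var n → Bool} (h : Isomorphic n a) : Even #{x | a x = true} := by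
  classical
  rw [isomorphic_iff] at h
  obtain ⟨σ, hσ⟩ := h
  have h1 : #{x : Var n | a x = true} = #{e : Pr n | a (Sum.inl e) = true} + #{e : Pr n | a (Sum.inr e) = true} := by
    rw [Finset.card_filter, Finset.card_filter, Finset.card_filter, Fintype.sum_sum_type]
  have h2 : #{e : Pr n | a (Sum.inl e) = true} = #{e : Pr n | a (Sum.inr e) = true} := by
    refine Finset.card_bij' (fun e _ => pact σ e) (fun e _ => pact σ⁻¹ e) ?_ ?_ ?_ ?_
    · intro e he
      simp only [Finset.mem_filter, Finset.mem_univ, true_and] at he ⊢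
      rw [hσ, he]
    · intro e he
      simp only [Finset.mem_filter, Finset.mem_univ, true_and] at he ⊢
      rw [← hσ, pact_inv', he]
    · intro e _
      exact pact_inv σ e
    · intro e _
      exact pact_inv' σ e
  rw [h1, h2]
  exact ⟨_, rfl⟩

lemma flip_card {X : Type} [Fintype X] [DecidableEq X] (a : X → Bool) (x : X) :
    ¬ (Even #{y | a y = true} ∧ Even #{y | Function.update a x (!a x) y = true}) := by
  rintro ⟨h1, h2⟩
  have key : ∀ b : X → Bool, b x = true →
      #{y | b y = true} = #{y | Function.update b x false y = true} + 1 := by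
    intro b hb
    have : ({y | b y = true} : Finset X) = insert x ({y | Function.update b x false y = true} : Finset X) := by
      ext y
      simp only [Finset.mem_filter, Finset.mem_univ, true_and, Finset.mem_insert]
      by_cases hy : y = x
      · subst hy; simp [hb]
      · simp [hy]
    rw [this, Finset.card_insert_of_notMem]
    simp
  cases hax : a x with
  | true =>
    have h3 := key a hax
    rw [hax] at h2
    simp only [Bool.not_true] at h2
    rw [h3] at h1
    exact (Nat.even_add_one.1 h1) h2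
  | false =>
    have h3 := key (Function.update a x true) (by simp)
    rw [hax] at h2
    simp only [Bool.not_false] at h2
    rw [h3] at h2
    have h4 : Function.update (Function.update a x true) x false = a := by
      rw [Function.update_idem, ← hax, Function.update_eq_self]
    rw [h4] at h2
    exact (Nat.even_add_one.1 h2) h1


/-! ## Counting sets -/

section small

variable {V : Type} [Fintype V] [DecidableEq V]

/-- the number of sets with at most `k` elements -/
lemma card_small (k : ℕ) : #{X : Finset V | #X ≤ k} ≤ (Fintype.card V + 1) ^ k := by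
  classical
  let g : (Fin k → Option V) → Finset V := fun f => {x | ∃ i, f i = some x}
  have hsub : ({X : Finset V | #X ≤ k} : Finset (Finset V)) ⊆
      (Finset.univ : Finset (Fin k → Option V)).image g := by
    intro X hX
    simp only [Finset.mem_filter, Finset.mem_univ, true_and] at hX
    rw [Finset.mem_image]
    refine ⟨fun i => if h : (i : ℕ) < #X then some ((X.equivFin.symm ⟨i, h⟩ : X) : V) else none,
      Finset.mem_univ _, ?_⟩
    ext x
    simp only [g, Finset.mem_filter, Finset.mem_univ, true_and]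
    constructor
    · rintro ⟨i, hi⟩
      split_ifs at hi with h
      simp only [Option.some.injEq] at hi
      rw [← hi]
      exact (X.equivFin.symm ⟨i, h⟩).2
    · intro hx
      have h1 := (X.equivFin ⟨x, hx⟩).2
      refine ⟨⟨(X.equivFin ⟨x, hx⟩ : ℕ), lt_of_lt_of_le h1 hX⟩, ?_⟩
      simp
  refine (Finset.card_le_card hsub).trans (Finset.card_image_le.trans (le_of_eq ?_))
  rw [Finset.card_univ, Fintype.card_fun, Fintype.card_option, Fintype.card_fin]

/-- the number of sets close to a given one -/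
lemma card_ball (k : ℕ) (S : Finset V) :
    #{X : Finset V | #(X \ S) ≤ k ∧ #(S \ X) ≤ k} ≤ (Fintype.card V + 1) ^ (2 * k) := by
  have h1 : #{X : Finset V | #(X \ S) ≤ k ∧ #(S \ X) ≤ k} ≤
      #(({X : Finset V | #X ≤ k} : Finset (Finset V)) ×ˢ ({X : Finset V | #X ≤ k} : Finset (Finset V))) := by
    refine Finset.card_le_card_of_injOn (fun X => (X \ S, S \ X)) ?_ ?_
    · intro X hX
      simpa using hX
    · intro X _ Y _ h
      simp only [Prod.mk.injEq] at h
      obtain ⟨h1, h2⟩ := h
      ext x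
      have h3 : x ∈ X \ S ↔ x ∈ Y \ S := by rw [h1]
      have h4 : x ∈ S \ X ↔ x ∈ S \ Y := by rw [h2]
      rw [Finset.mem_sdiff, Finset.mem_sdiff] at h3 h4
      tauto
  rw [Finset.card_product] at h1
  refine h1.trans ((Nat.mul_le_mul (card_small k) (card_small k)).trans (le_of_eq ?_))
  rw [← pow_add]; congr 1; omega

end small


/-! ## Computation trees -/

namespace Program

variable {X : Type} {P : Program X}

/-- Plugging a tree at `w` gives a tree at `u` with the additional tests `T`. -/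
def Hole (P : Program X) (u : P.Node) (T : Multiset (X × Bool)) (w : P.Node) : Prop :=
  ∀ T', P.Tree w T' → P.Tree u (T + T')

/-- Walk down a computation tree to a critical node. -/
lemma descent (f : Multiset (X × Bool) → ℕ) (q : ℕ) (h0 : f 0 ≤ q) {u : P.Node}
    {T : Multiset (X × Bool)} (h : P.Tree u T) (hq : q < f T) :
    ∃ w Tc Tw, P.Hole u Tc w ∧ P.Tree w Tw ∧ T = Tc + Tw ∧ q < f Tw ∧
      ((∃ t T', Tw = t ::ₘ T' ∧ f T' ≤ q) ∨
        ∃ v1 v2 T1 T2, P.fork w = some (v1, v2) ∧ P.Tree v1 T1 ∧ P.Tree v2 T2 ∧ Tw = T1 + T2 ∧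
          f T1 ≤ q ∧ f T2 ≤ q) := by
  induction h with
  | leaf => omega
  | @guess u v T he hv ih =>
    obtain ⟨w, Tc, Tw, h1, h2, h3, h4⟩ := ih hq
    refine ⟨w, Tc, Tw, ?_, h2, h3, h4⟩
    intro T' hT'
    exact Tree.guess he (h1 T' hT')
  | @test u v x b T he hv ih =>
    by_cases hT : q < f T
    · obtain ⟨w, Tc, Tw, h1, h2, h3, h4⟩ := ih hT
      refine ⟨w, (x, b) ::ₘ Tc, Tw, ?_, h2, ?_, h4⟩
      · intro T' hT'
        rw [Multiset.cons_add]
        exact Tree.test he (h1 T' hT')
      · rw [h3, Multiset.cons_add]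
    · refine ⟨u, 0, (x, b) ::ₘ T, ?_, Tree.test he hv, by simp, hq, Or.inl ⟨(x, b), T, rfl, by omega⟩⟩
      intro T' hT'
      simpa using hT'
  | @fork u v w T T' he hv hw ih1 ih2 =>
    by_cases hT : q < f T
    · obtain ⟨z, Tc, Tw, h1, h2, h3, h4⟩ := ih1 hT
      refine ⟨z, Tc + T', Tw, ?_, h2, ?_, h4⟩
      · intro T'' hT''
        have := Tree.fork he (h1 T'' hT'') hw
        rwa [add_right_comm] at this
      · rw [h3, add_right_comm]
    · by_cases hT' : q < f T'
      · obtain ⟨z, Tc, Tw, h1, h2, h3, h4⟩ := ih2 hT'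
        refine ⟨z, T + Tc, Tw, ?_, h2, ?_, h4⟩
        · intro T'' hT''
          have := Tree.fork he hv (h1 T'' hT'')
          rwa [← add_assoc] at this
        · rw [h3, add_assoc]
      · refine ⟨u, 0, T + T', ?_, Tree.fork he hv hw, by simp, hq,
          Or.inr ⟨v, w, T, T', he, hv, hw, rfl, by omega, by omega⟩⟩
        intro T'' hT''
        simpa using hT''

end Program


/-! ## The generic counting argument -/

section generic

variable {X : Type} [DecidableEq X]

/-- the set of variables of a multiset of tests -/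
def vars (T : Multiset (X × Bool)) : Finset X := (T.map Prod.fst).toFinset

lemma mem_vars {T : Multiset (X × Bool)} {x : X} :
    x ∈ vars T ↔ x ∈ T.map Prod.fst := by
  simp [vars]

lemma vars_add (T T' : Multiset (X × Bool)) : vars (T + T') = vars T ∪ vars T' := by
  ext x
  simp only [Finset.mem_union, mem_vars, Multiset.map_add, Multiset.mem_add]

lemma vars_cons (t : X × Bool) (T : Multiset (X × Bool)) :
    vars (t ::ₘ T) = insert t.1 (vars T) := by
  ext x
  simp only [Finset.mem_insert, mem_vars, Multiset.map_cons, Multiset.mem_cons]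

lemma mem_vars_of_mem {T : Multiset (X × Bool)} {t : X × Bool} (h : t ∈ T) :
    t.1 ∈ vars T := by
  rw [mem_vars]; exact Multiset.mem_map_of_mem _ h

/-- the variables tested more than once -/
def rr (T : Multiset (X × Bool)) : Finset X :=
  {x ∈ (T.map Prod.fst).toFinset | 1 < (T.map Prod.fst).count x}

lemma mem_rr {A B : Multiset (X × Bool)} {x : X} (hA : x ∈ vars A) (hB : x ∈ vars B) :
    x ∈ rr (A + B) := by
  rw [mem_vars] at hA hB
  unfold rr
  rw [Finset.mem_filter, Multiset.mem_toFinset, Multiset.map_add, Multiset.mem_add,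
    Multiset.count_add]
  have h1 := Multiset.one_le_count_iff_mem.2 hA
  have h2 := Multiset.one_le_count_iff_mem.2 hB
  exact ⟨Or.inl hA, by omega⟩

/-- a predicate every accepted input of which is sensitive at every variable -/
def Sensitive (Q : (X → Bool) → Prop) : Prop :=
  ∀ a x, ¬ (Q a ∧ Q (Function.update a x (!a x)))

/-- in a program accepting only inputs satisfying a sensitive predicate, every consistent
computation tree tests every variable -/
lemma covers {P : Program X} {Q : (X → Bool) → Prop} (hQ : Sensitive Q)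
    (hs : ∀ a, P.Accepts a → Q a) {T : Multiset (X × Bool)}
    (hT : P.Tree P.start T) (a : X → Bool) (ha : ∀ t ∈ T, a t.1 = t.2) (x : X) :
    x ∈ vars T := by
  rw [mem_vars]
  by_contra hx
  have ha' : ∀ t ∈ T, Function.update a x (!a x) t.1 = t.2 := by
    intro t ht
    rw [Function.update_of_ne, ha t ht]
    rintro rfl
    exact hx (Multiset.mem_map_of_mem _ ht)
  exact hQ a x ⟨hs a ⟨T, hT, ha⟩, hs _ ⟨T, hT, ha'⟩⟩

/-- read sets of exchangeable parts are close -/
lemma sdiff_le {P : Program X} {k : ℕ} (hk : P.RereadsAtMost k)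
    {Q : (X → Bool) → Prop} (hQ : Sensitive Q)
    (hs : ∀ a, P.Accepts a → Q a) {A B B' : Multiset (X × Bool)}
    (hT : P.Tree P.start (A + B)) (hT' : P.Tree P.start (A + B')) (a : X → Bool)
    (ha : ∀ t ∈ A + B, a t.1 = t.2) : #(vars B' \ vars B) ≤ k := by
  refine (Finset.card_le_card ?_).trans (hk _ hT')
  intro x hx
  rw [Finset.mem_sdiff] at hx
  have h1 := covers hQ hs hT a ha x
  rw [vars_add, Finset.mem_union] at h1
  exact mem_rr (h1.resolve_right hx.2) hx.1

/-- mixing two inputs along the read set of a part of a computation tree -/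
lemma mix_tree {P : Program X} {Q : (X → Bool) → Prop}
    (hs : ∀ a, P.Accepts a → Q a) {A B : Multiset (X × Bool)}
    (hT : P.Tree P.start (A + B)) (a a' : X → Bool) (ha : ∀ t ∈ B, a t.1 = t.2)
    (ha' : ∀ t ∈ A, a' t.1 = t.2) (S : Finset X) (hS : vars B = S)
    (hagree : ∀ x ∈ vars A, x ∈ S → a x = a' x) :
    Q (fun x => if x ∈ S then a x else a' x) := by
  apply hs
  refine ⟨A + B, hT, ?_⟩
  intro t ht
  rcases Multiset.mem_add.1 ht with h | h
  · by_cases h1 : t.1 ∈ S
    · simp only [h1, if_true]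
      rw [hagree _ (mem_vars_of_mem h) h1]
      exact ha' t h
    · simp only [h1, if_false]
      exact ha' t h
  · have h1 : t.1 ∈ S := by
      rw [← hS]; exact mem_vars_of_mem h
    simp only [h1, if_true]
    exact ha t h

variable {ι : Type}

/-- the inputs in `R` can be mixed along `S` -/
def Mixes (Q : (X → Bool) → Prop) (inp : ι → X → Bool) (S : Finset X) (R : Finset ι) : Prop :=
  ∀ p ∈ R, ∀ q ∈ R, Q (fun x => if x ∈ S then inp p x else inp q x)

/-- the input `p` is accepted by a tree with the critical AND-node `w` -/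
def ForkAt (P : Program X) (inp : ι → X → Bool) (μ : Finset X → ℕ) (q : ℕ) (w : P.Node)
    (p : ι) : Prop :=
  ∃ v1 v2 Tc T1 T2, P.Hole P.start Tc w ∧ P.fork w = some (v1, v2) ∧ P.Tree v1 T1 ∧
    P.Tree v2 T2 ∧ (∀ t ∈ Tc + (T1 + T2), inp p t.1 = t.2) ∧
    μ (vars T1) ≤ q ∧ μ (vars T2) ≤ q ∧ q < μ (vars T1 ∪ vars T2)

/-- the input `p` is accepted by a tree with the critical node `w` -/
def EdgeAt (P : Program X) (inp : ι → X → Bool) (μ : Finset X → ℕ) (q : ℕ) (w : P.Node)
    (p : ι) : Prop :=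
  ∃ Tc Tw, P.Hole P.start Tc w ∧ P.Tree w Tw ∧ (∀ t ∈ Tc + Tw, inp p t.1 = t.2) ∧
    q < μ (vars Tw) ∧ ∃ x S, vars Tw = insert x S ∧ μ S ≤ q

lemma exists_node [Fintype X] {P : Program X} {Q : (X → Bool) → Prop} (hQ : Sensitive Q)
    (hs : ∀ a, P.Accepts a → Q a) (inp : ι → X → Bool) (μ : Finset X → ℕ) (q : ℕ)
    (h0 : μ ∅ ≤ q) (hfull : q < μ Finset.univ) (p : ι) (hp : P.Accepts (inp p)) :
    ∃ w, ForkAt P inp μ q w p ∨ EdgeAt P inp μ q w p := by
  obtain ⟨T, hT, hcons⟩ := hp
  have hT2 : vars T = Finset.univ := by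
    ext x
    simp only [Finset.mem_univ, iff_true]
    exact covers hQ hs hT _ hcons x
  obtain ⟨w, Tc, Tw, h1, h2, rfl, h4, h5⟩ := P.descent (fun T => μ (vars T)) q
    (by simpa [vars] using h0) hT (by rw [hT2]; exact hfull)
  refine ⟨w, ?_⟩
  rcases h5 with ⟨t, T', rfl, h6⟩ | ⟨v1, v2, T1, T2, h6, h7, h8, rfl, h9, h10⟩
  · right
    exact ⟨Tc, _, h1, h2, hcons, h4, t.1, vars T', vars_cons t T', h6⟩
  · left
    exact ⟨v1, v2, Tc, T1, T2, h1, h6, h7, h8, hcons, h9, h10, by rw [← vars_add]; exact h4⟩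

/-- the variables shared by two of three sets -/
def shared (S1 S2 Y : Finset X) : Finset X := (S1 ∩ S2) ∪ (S1 ∩ Y) ∪ (S2 ∩ Y)

/-- a class of inputs accepted by trees with the critical AND-node `w` and the same read sets -/
def ForkCls (P : Program X) (inp : ι → X → Bool) (w v1 v2 : P.Node)
    (κ : Finset X × Finset X × Finset X × Finset X) (p : ι) : Prop :=
  ∃ Tc T1 T2, P.Hole P.start Tc w ∧ P.Tree v1 T1 ∧ P.Tree v2 T2 ∧
    (∀ t ∈ Tc, inp p t.1 = t.2) ∧ (∀ t ∈ T1, inp p t.1 = t.2) ∧
    (∀ t ∈ T2, inp p t.1 = t.2) ∧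
    vars T1 = κ.1 ∧ vars T2 = κ.2.1 ∧ vars Tc = κ.2.2.1 ∧
    κ.2.2.2 = ({x ∈ shared κ.1 κ.2.1 κ.2.2.1 | inp p x = true} : Finset X)

lemma mixes_forkCls {P : Program X} {Q : (X → Bool) → Prop}
    (hs : ∀ a, P.Accepts a → Q a) (inp : ι → X → Bool)
    (w v1 v2 : P.Node) (h2 : P.fork w = some (v1, v2))
    (S1 S2 Y W : Finset X) (R : Finset ι)
    (hR : ∀ p ∈ R, ForkCls P inp w v1 v2 (S1, S2, Y, W) p) :
    Mixes Q inp S1 R ∧ Mixes Q inp S2 R ∧ Mixes Q inp (S1 ∪ S2) R := by
  have key : ∀ p ∈ R, ∃ Tc' T1' T2', P.Hole P.start Tc' w ∧ P.Tree v1 T1' ∧ P.Tree v2 T2' ∧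
      (∀ t ∈ Tc', inp p t.1 = t.2) ∧ (∀ t ∈ T1', inp p t.1 = t.2) ∧
      (∀ t ∈ T2', inp p t.1 = t.2) ∧
      vars T1' = S1 ∧ vars T2' = S2 ∧ vars Tc' = Y := by
    intro p hp
    obtain ⟨Tc', T1', T2', g1, g2, g3, g4, g5, g6, g7, g8, g9, -⟩ := hR p hp
    exact ⟨Tc', T1', T2', g1, g2, g3, g4, g5, g6, g7, g8, g9⟩
  have agree : ∀ p ∈ R, ∀ p' ∈ R, ∀ x ∈ shared S1 S2 Y, inp p x = inp p' x := by
    intro p hp p' hp' x hx
    obtain ⟨-, -, -, -, -, -, -, -, -, -, -, -, g1⟩ := hR p hp
    obtain ⟨-, -, -, -, -, -, -, -, -, -, -, -, g2⟩ := hR p' hp'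
    simp only at g1 g2
    have h3 : x ∈ W ↔ inp p x = true := by
      rw [g1, Finset.mem_filter]; simp only [hx, true_and]
    have h4 : x ∈ W ↔ inp p' x = true := by
      rw [g2, Finset.mem_filter]; simp only [hx, true_and]
    rw [Bool.eq_iff_iff, ← h3, ← h4]
  refine ⟨?_, ?_, ?_⟩
  · intro p hp p' hp'
    obtain ⟨Tc', T1', T2', a1, a2, a3, a4, a5, a6, a7, a8, a9⟩ := key p hp
    obtain ⟨Tc'', T1'', T2'', b1, b2, b3, b4, b5, b6, b7, b8, b9⟩ := key p' hp'
    refine mix_tree hs (A := Tc'' + T2'') (B := T1') ?_ _ _ a5 ?_ _ a7 ?_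
    · have := b1 _ (Program.Tree.fork h2 a2 b3)
      rwa [add_comm T1' T2'', ← add_assoc] at this
    · intro t ht
      rcases Multiset.mem_add.1 ht with h | h
      · exact b4 t h
      · exact b6 t h
    · intro x hx hxS
      refine agree p hp p' hp' x ?_
      rw [vars_add, b8, b9, Finset.mem_union] at hx
      simp only [shared, Finset.mem_union, Finset.mem_inter]
      tauto
  · intro p hp p' hp'
    obtain ⟨Tc', T1', T2', a1, a2, a3, a4, a5, a6, a7, a8, a9⟩ := key p hp
    obtain ⟨Tc'', T1'', T2'', b1, b2, b3, b4, b5, b6, b7, b8, b9⟩ := key p' hp'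
    refine mix_tree hs (A := Tc'' + T1'') (B := T2') ?_ _ _ a6 ?_ _ a8 ?_
    · have := b1 _ (Program.Tree.fork h2 b2 a3)
      rwa [← add_assoc] at this
    · intro t ht
      rcases Multiset.mem_add.1 ht with h | h
      · exact b4 t h
      · exact b5 t h
    · intro x hx hxS
      refine agree p hp p' hp' x ?_
      rw [vars_add, b7, b9, Finset.mem_union] at hx
      simp only [shared, Finset.mem_union, Finset.mem_inter]
      tauto
  · intro p hp p' hp'
    obtain ⟨Tc', T1', T2', a1, a2, a3, a4, a5, a6, a7, a8, a9⟩ := key p hp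
    obtain ⟨Tc'', T1'', T2'', b1, b2, b3, b4, b5, b6, b7, b8, b9⟩ := key p' hp'
    refine mix_tree hs (A := Tc'') (B := T1' + T2') ?_ _ _ ?_ b4 _ (by rw [vars_add, a7, a8]) ?_
    · exact b1 _ (Program.Tree.fork h2 a2 a3)
    · intro t ht
      rcases Multiset.mem_add.1 ht with h | h
      · exact a5 t h
      · exact a6 t h
    · intro x hx hxS
      refine agree p hp p' hp' x ?_
      rw [b9] at hx
      rw [Finset.mem_union] at hxS
      simp only [shared, Finset.mem_union, Finset.mem_inter]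
      tauto

lemma shared_card_le {P : Program X} {k : ℕ} (hk : P.RereadsAtMost k)
    {Tc T1 T2 : Multiset (X × Bool)} (hT : P.Tree P.start (Tc + (T1 + T2))) :
    #(shared (vars T1) (vars T2) (vars Tc)) ≤ k := by
  refine (Finset.card_le_card ?_).trans (hk _ hT)
  intro x hx
  simp only [shared, Finset.mem_union, Finset.mem_inter] at hx
  change x ∈ rr (Tc + (T1 + T2))
  rcases hx with (hx | hx) | hx
  · have h1 : x ∈ vars (Tc + T2) := by rw [vars_add]; exact Finset.mem_union_right _ hx.2
    have := mem_rr h1 hx.1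
    rwa [add_assoc, add_comm T2 T1] at this
  · have h1 : x ∈ vars (T1 + T2) := by rw [vars_add]; exact Finset.mem_union_left _ hx.1
    exact mem_rr hx.2 h1
  · have h1 : x ∈ vars (T1 + T2) := by rw [vars_add]; exact Finset.mem_union_right _ hx.1
    exact mem_rr hx.2 h1

open Classical in
lemma bound_fork [Fintype X] [Fintype ι] {P : Program X} {k : ℕ} (hk : P.RereadsAtMost k)
    {Q : (X → Bool) → Prop} (hQ : Sensitive Q) (hs : ∀ a, P.Accepts a → Q a)
    (inp : ι → X → Bool) (μ : Finset X → ℕ) (q B : ℕ)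
    (hB : ∀ (S1 S2 : Finset X) (R : Finset ι), μ S1 ≤ q → μ S2 ≤ q → q < μ (S1 ∪ S2) →
      Mixes Q inp S1 R → Mixes Q inp S2 R → Mixes Q inp (S1 ∪ S2) R → #R ≤ B)
    (w : P.Node) :
    #{p | ForkAt P inp μ q w p} ≤ (Fintype.card X + 1) ^ (7 * k) * B := by
  set R : Finset ι := {p | ForkAt P inp μ q w p} with hRdef
  rcases R.eq_empty_or_nonempty with hR0 | ⟨p0, hp0⟩
  · rw [hR0]; simp
  have hp0' : ForkAt P inp μ q w p0 := by simpa [hRdef] using hp0
  obtain ⟨v1, v2, Tc, T1, T2, h1, h2, h3, h4, h5, h6, h7, h8⟩ := hp0'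
  set Ball : Finset X → Finset (Finset X) :=
    fun S => {X' : Finset X | #(X' \ S) ≤ k ∧ #(S \ X') ≤ k} with hBall
  set Keys : Finset (Finset X × Finset X × Finset X × Finset X) :=
    Ball (vars T1) ×ˢ Ball (vars T2) ×ˢ Ball (vars Tc) ×ˢ
      ({X' : Finset X | #X' ≤ k} : Finset (Finset X)) with hKeys
  set Good : Finset (Finset X × Finset X × Finset X × Finset X) :=
    {κ ∈ Keys | μ κ.1 ≤ q ∧ μ κ.2.1 ≤ q ∧ q < μ (κ.1 ∪ κ.2.1)} with hGood
  have hsub : R ⊆ Good.biUnion (fun κ => ({p | ForkCls P inp w v1 v2 κ p} : Finset ι)) := by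
    intro p hp
    have hp' : ForkAt P inp μ q w p := by simpa [hRdef] using hp
    obtain ⟨v1', v2', Tc', T1', T2', g1, g2, g3, g4, g5, g6, g7, g8⟩ := hp'
    rw [h2] at g2
    obtain ⟨rfl, rfl⟩ : v1 = v1' ∧ v2 = v2' := by
      simpa using g2
    rw [Finset.mem_biUnion]
    refine ⟨(vars T1', vars T2', vars Tc',
      ({x ∈ shared (vars T1') (vars T2') (vars Tc') | inp p x = true} : Finset X)),
      ?_, ?_⟩
    · have e1 : P.Tree P.start ((Tc + T2) + T1) := by
        have := h1 _ (Program.Tree.fork h2 h3 h4)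
        rwa [add_comm T1 T2, ← add_assoc] at this
      have e2 : P.Tree P.start ((Tc + T2) + T1') := by
        have := h1 _ (Program.Tree.fork h2 g3 h4)
        rwa [add_comm T1' T2, ← add_assoc] at this
      have e3 : P.Tree P.start ((Tc + T1) + T2) := by
        have := h1 _ (Program.Tree.fork h2 h3 h4)
        rwa [← add_assoc] at this
      have e4 : P.Tree P.start ((Tc + T1) + T2') := by
        have := h1 _ (Program.Tree.fork h2 h3 g4)
        rwa [← add_assoc] at this
      have e5 : P.Tree P.start ((Tc' + T2') + T1') := by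
        have := g1 _ (Program.Tree.fork h2 g3 g4)
        rwa [add_comm T1' T2', ← add_assoc] at this
      have e6 : P.Tree P.start ((Tc' + T2') + T1) := by
        have := g1 _ (Program.Tree.fork h2 h3 g4)
        rwa [add_comm T1 T2', ← add_assoc] at this
      have e7 : P.Tree P.start ((Tc' + T1') + T2') := by
        have := g1 _ (Program.Tree.fork h2 g3 g4)
        rwa [← add_assoc] at this
      have e8 : P.Tree P.start ((Tc' + T1') + T2) := by
        have := g1 _ (Program.Tree.fork h2 g3 h4)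
        rwa [← add_assoc] at this
      have e9 : P.Tree P.start ((T1 + T2) + Tc) := by
        have := h1 _ (Program.Tree.fork h2 h3 h4)
        rwa [add_comm Tc] at this
      have e10 : P.Tree P.start ((T1 + T2) + Tc') := by
        have := g1 _ (Program.Tree.fork h2 h3 h4)
        rwa [add_comm Tc'] at this
      have e11 : P.Tree P.start ((T1' + T2') + Tc') := by
        have := g1 _ (Program.Tree.fork h2 g3 g4)
        rwa [add_comm Tc'] at this
      have e12 : P.Tree P.start ((T1' + T2') + Tc) := by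
        have := h1 _ (Program.Tree.fork h2 g3 g4)
        rwa [add_comm Tc] at this
      have c1 : ∀ t ∈ (Tc + T2) + T1, inp p0 t.1 = t.2 := by
        intro t ht
        apply h5
        simp only [Multiset.mem_add] at ht ⊢
        tauto
      have c2 : ∀ t ∈ (Tc + T1) + T2, inp p0 t.1 = t.2 := by
        intro t ht
        apply h5
        simp only [Multiset.mem_add] at ht ⊢
        tauto
      have c3 : ∀ t ∈ (T1 + T2) + Tc, inp p0 t.1 = t.2 := by
        intro t ht
        apply h5
        simp only [Multiset.mem_add] at ht ⊢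
        tauto
      have c4 : ∀ t ∈ (Tc' + T2') + T1', inp p t.1 = t.2 := by
        intro t ht
        apply g5
        simp only [Multiset.mem_add] at ht ⊢
        tauto
      have c5 : ∀ t ∈ (Tc' + T1') + T2', inp p t.1 = t.2 := by
        intro t ht
        apply g5
        simp only [Multiset.mem_add] at ht ⊢
        tauto
      have c6 : ∀ t ∈ (T1' + T2') + Tc', inp p t.1 = t.2 := by
        intro t ht
        apply g5
        simp only [Multiset.mem_add] at ht ⊢
        tauto
      simp only [hGood, hKeys, hBall, Finset.mem_product, Finset.mem_filter, Finset.mem_univ,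
        true_and]
      refine ⟨⟨⟨sdiff_le hk hQ hs e1 e2 _ c1, sdiff_le hk hQ hs e5 e6 _ c4⟩,
        ⟨sdiff_le hk hQ hs e3 e4 _ c2, sdiff_le hk hQ hs e7 e8 _ c5⟩,
        ⟨sdiff_le hk hQ hs e9 e10 _ c3, sdiff_le hk hQ hs e11 e12 _ c6⟩, ?_⟩, g6, g7, g8⟩
      exact (Finset.card_le_card (Finset.filter_subset _ _)).trans
        (shared_card_le hk (g1 _ (Program.Tree.fork h2 g3 g4)))
    · simp only [Finset.mem_filter, Finset.mem_univ, true_and]
      exact ⟨Tc', T1', T2', g1, g3, g4, fun t ht => g5 t (Multiset.mem_add.2 (Or.inl ht)),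
        fun t ht => g5 t (Multiset.mem_add.2 (Or.inr (Multiset.mem_add.2 (Or.inl ht)))),
        fun t ht => g5 t (Multiset.mem_add.2 (Or.inr (Multiset.mem_add.2 (Or.inr ht)))),
        rfl, rfl, rfl, rfl⟩
  have hcard : #Good ≤ (Fintype.card X + 1) ^ (7 * k) := by
    refine (Finset.card_le_card (Finset.filter_subset _ _)).trans ?_
    rw [hKeys, Finset.card_product, Finset.card_product, Finset.card_product]
    have b1 := card_ball (V := X) k (vars T1)
    have b2 := card_ball (V := X) k (vars T2)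
    have b3 := card_ball (V := X) k (vars Tc)
    have b4 := card_small (V := X) k
    calc _ ≤ (Fintype.card X + 1) ^ (2 * k) * ((Fintype.card X + 1) ^ (2 * k) *
          ((Fintype.card X + 1) ^ (2 * k) * (Fintype.card X + 1) ^ k)) :=
          Nat.mul_le_mul b1 (Nat.mul_le_mul b2 (Nat.mul_le_mul b3 b4))
      _ = (Fintype.card X + 1) ^ (7 * k) := by
        rw [← pow_add, ← pow_add, ← pow_add]; congr 1; omega
  refine (Finset.card_le_card hsub).trans ?_
  refine (Finset.card_biUnion_le_card_mul _ _ B ?_).trans ?_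
  · rintro ⟨S1, S2, Y, W⟩ hκ
    rw [hGood, Finset.mem_filter] at hκ
    obtain ⟨m1, m2, m3⟩ := mixes_forkCls hs inp w v1 v2 h2 S1 S2 Y W
      ({p | ForkCls P inp w v1 v2 (S1, S2, Y, W) p} : Finset ι)
      (fun p hp => by simpa using hp)
    exact hB S1 S2 _ hκ.2.1 hκ.2.2.1 hκ.2.2.2 m1 m2 m3
  · exact Nat.mul_le_mul_right _ hcard

/-- a class of inputs accepted by trees with the critical node `w` and the same read sets -/
def EdgeCls (P : Program X) (inp : ι → X → Bool) (w : P.Node)
    (κ : Finset X × Finset X × Finset X) (p : ι) : Prop :=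
  ∃ Tc Tw, P.Hole P.start Tc w ∧ P.Tree w Tw ∧
    (∀ t ∈ Tc, inp p t.1 = t.2) ∧ (∀ t ∈ Tw, inp p t.1 = t.2) ∧
    vars Tw = κ.1 ∧ vars Tc = κ.2.1 ∧
    κ.2.2 = ({x ∈ κ.1 ∩ κ.2.1 | inp p x = true} : Finset X)

lemma mixes_edgeCls {P : Program X} {Q : (X → Bool) → Prop}
    (hs : ∀ a, P.Accepts a → Q a) (inp : ι → X → Bool)
    (w : P.Node) (S Y W : Finset X) (R : Finset ι)
    (hR : ∀ p ∈ R, EdgeCls P inp w (S, Y, W) p) : Mixes Q inp S R := by
  have key : ∀ p ∈ R, ∃ Tc' Tw', P.Hole P.start Tc' w ∧ P.Tree w Tw' ∧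
      (∀ t ∈ Tc', inp p t.1 = t.2) ∧ (∀ t ∈ Tw', inp p t.1 = t.2) ∧
      vars Tw' = S ∧ vars Tc' = Y := by
    intro p hp
    obtain ⟨Tc', Tw', g1, g2, g3, g4, g5, g6, -⟩ := hR p hp
    exact ⟨Tc', Tw', g1, g2, g3, g4, g5, g6⟩
  have agree : ∀ p ∈ R, ∀ p' ∈ R, ∀ x ∈ S ∩ Y, inp p x = inp p' x := by
    intro p hp p' hp' x hx
    obtain ⟨-, -, -, -, -, -, -, -, g1⟩ := hR p hp
    obtain ⟨-, -, -, -, -, -, -, -, g2⟩ := hR p' hp'
    simp only at g1 g2
    have h3 : x ∈ W ↔ inp p x = true := by
      rw [g1, Finset.mem_filter]; simp only [hx, true_and]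
    have h4 : x ∈ W ↔ inp p' x = true := by
      rw [g2, Finset.mem_filter]; simp only [hx, true_and]
    rw [Bool.eq_iff_iff, ← h3, ← h4]
  intro p hp p' hp'
  obtain ⟨Tc', Tw', a1, a2, a3, a4, a5, a6⟩ := key p hp
  obtain ⟨Tc'', Tw'', b1, b2, b3, b4, b5, b6⟩ := key p' hp'
  refine mix_tree hs (A := Tc'') (B := Tw') (b1 _ a2) _ _ a4 b3 _ a5 ?_
  intro x hx hxS
  refine agree p hp p' hp' x ?_
  rw [b6] at hx
  exact Finset.mem_inter.2 ⟨hxS, hx⟩

open Classical in
lemma bound_edge [Fintype X] [Fintype ι] {P : Program X} {k : ℕ} (hk : P.RereadsAtMost k)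
    {Q : (X → Bool) → Prop} (hQ : Sensitive Q) (hs : ∀ a, P.Accepts a → Q a)
    (inp : ι → X → Bool) (μ : Finset X → ℕ) (q B : ℕ)
    (hB : ∀ (S : Finset X) (x : X) (R : Finset ι), μ S ≤ q → q < μ (insert x S) →
      Mixes Q inp (insert x S) R → #R ≤ B)
    (w : P.Node) :
    #{p | EdgeAt P inp μ q w p} ≤ (Fintype.card X + 1) ^ (7 * k) * B := by
  set R : Finset ι := {p | EdgeAt P inp μ q w p} with hRdef
  rcases R.eq_empty_or_nonempty with hR0 | ⟨p0, hp0⟩
  · rw [hR0]; simp
  have hp0' : EdgeAt P inp μ q w p0 := by simpa [hRdef] using hp0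
  obtain ⟨Tc, Tw, h1, h2, h3, h4, x0, S0, h5, h6⟩ := hp0'
  set Ball : Finset X → Finset (Finset X) :=
    fun S => {X' : Finset X | #(X' \ S) ≤ k ∧ #(S \ X') ≤ k} with hBall
  set Keys : Finset (Finset X × Finset X × Finset X) :=
    Ball (vars Tw) ×ˢ Ball (vars Tc) ×ˢ
      ({X' : Finset X | #X' ≤ k} : Finset (Finset X)) with hKeys
  set Good : Finset (Finset X × Finset X × Finset X) :=
    {κ ∈ Keys | q < μ κ.1 ∧ ∃ x S, κ.1 = insert x S ∧ μ S ≤ q} with hGood
  have hsub : R ⊆ Good.biUnion (fun κ => ({p | EdgeCls P inp w κ p} : Finset ι)) := by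
    intro p hp
    have hp' : EdgeAt P inp μ q w p := by simpa [hRdef] using hp
    obtain ⟨Tc', Tw', g1, g2, g3, g4, x', S', g5, g6⟩ := hp'
    rw [Finset.mem_biUnion]
    refine ⟨(vars Tw', vars Tc',
      ({x ∈ vars Tw' ∩ vars Tc' | inp p x = true} : Finset X)), ?_, ?_⟩
    · have e1 : P.Tree P.start (Tw + Tc) := by
        have := h1 _ h2
        rwa [add_comm Tc] at this
      have e2 : P.Tree P.start (Tw + Tc') := by
        have := g1 _ h2
        rwa [add_comm Tc'] at this
      have e3 : P.Tree P.start (Tw' + Tc') := by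
        have := g1 _ g2
        rwa [add_comm Tc'] at this
      have e4 : P.Tree P.start (Tw' + Tc) := by
        have := h1 _ g2
        rwa [add_comm Tc] at this
      have c1 : ∀ t ∈ Tw + Tc, inp p0 t.1 = t.2 := by
        intro t ht
        apply h3
        rwa [add_comm]
      have c2 : ∀ t ∈ Tw' + Tc', inp p t.1 = t.2 := by
        intro t ht
        apply g3
        rwa [add_comm]
      simp only [hGood, hKeys, hBall, Finset.mem_product, Finset.mem_filter, Finset.mem_univ,
        true_and]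
      refine ⟨⟨⟨sdiff_le hk hQ hs (h1 _ h2) (h1 _ g2) _ h3,
        sdiff_le hk hQ hs (g1 _ g2) (g1 _ h2) _ g3⟩,
        ⟨sdiff_le hk hQ hs e1 e2 _ c1, sdiff_le hk hQ hs e3 e4 _ c2⟩, ?_⟩, g4, x', S', g5, g6⟩
      refine (Finset.card_le_card (Finset.filter_subset _ _)).trans ?_
      refine (Finset.card_le_card ?_).trans (hk _ (g1 _ g2))
      intro x hx
      rw [Finset.mem_inter] at hx
      exact mem_rr hx.2 hx.1
    · simp only [Finset.mem_filter, Finset.mem_univ, true_and]
      exact ⟨Tc', Tw', g1, g2, fun t ht => g3 t (Multiset.mem_add.2 (Or.inl ht)),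
        fun t ht => g3 t (Multiset.mem_add.2 (Or.inr ht)), rfl, rfl, rfl⟩
  have hcard : #Good ≤ (Fintype.card X + 1) ^ (7 * k) := by
    refine (Finset.card_le_card (Finset.filter_subset _ _)).trans ?_
    rw [hKeys, Finset.card_product, Finset.card_product]
    have b1 := card_ball (V := X) k (vars Tw)
    have b3 := card_ball (V := X) k (vars Tc)
    have b4 := card_small (V := X) k
    calc _ ≤ (Fintype.card X + 1) ^ (2 * k) *
          ((Fintype.card X + 1) ^ (2 * k) * (Fintype.card X + 1) ^ k) :=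
          Nat.mul_le_mul b1 (Nat.mul_le_mul b3 b4)
      _ = (Fintype.card X + 1) ^ (5 * k) := by
        rw [← pow_add, ← pow_add]; congr 1; omega
      _ ≤ (Fintype.card X + 1) ^ (7 * k) := Nat.pow_le_pow_right (by omega) (by omega)
  refine (Finset.card_le_card hsub).trans ?_
  refine (Finset.card_biUnion_le_card_mul _ _ B ?_).trans ?_
  · rintro ⟨S, Y, W⟩ hκ
    rw [hGood, Finset.mem_filter] at hκ
    obtain ⟨-, h7, x, S', h8, h9⟩ := hκ
    simp only at h7 h8
    subst h8
    exact hB S' x _ h9 h7 (mixes_edgeCls hs inp w (insert x S') Y W _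
      (fun p hp => by simpa using hp))
  · exact Nat.mul_le_mul_right _ hcard

open Classical in
/-- The generic bound on the number of accepted inputs. -/
lemma master [Fintype X] [Fintype ι] {P : Program X} {k : ℕ} (hk : P.RereadsAtMost k)
    {Q : (X → Bool) → Prop} (hQ : Sensitive Q) (hs : ∀ a, P.Accepts a → Q a)
    (inp : ι → X → Bool) (μ : Finset X → ℕ) (q B : ℕ)
    (h0 : μ ∅ ≤ q) (hfull : q < μ Finset.univ)
    (hBf : ∀ (S1 S2 : Finset X) (R : Finset ι), μ S1 ≤ q → μ S2 ≤ q → q < μ (S1 ∪ S2) →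
      Mixes Q inp S1 R → Mixes Q inp S2 R → Mixes Q inp (S1 ∪ S2) R → #R ≤ B)
    (hBe : ∀ (S : Finset X) (x : X) (R : Finset ι), μ S ≤ q → q < μ (insert x S) →
      Mixes Q inp (insert x S) R → #R ≤ B) :
    #{p : ι | P.Accepts (inp p)} ≤ P.size * (2 * ((Fintype.card X + 1) ^ (7 * k) * B)) := by
  have h1 : ({p : ι | P.Accepts (inp p)} : Finset ι) ⊆
      (Finset.univ : Finset P.Node).biUnion (fun w =>
        ({p | ForkAt P inp μ q w p} : Finset ι) ∪ ({p | EdgeAt P inp μ q w p} : Finset ι)) := by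
    intro p hp
    simp only [Finset.mem_filter, Finset.mem_univ, true_and] at hp
    obtain ⟨w, hw⟩ := exists_node hQ hs inp μ q h0 hfull p hp
    rw [Finset.mem_biUnion]
    refine ⟨w, Finset.mem_univ _, ?_⟩
    simp only [Finset.mem_union, Finset.mem_filter, Finset.mem_univ, true_and]
    exact hw
  refine (Finset.card_le_card h1).trans ?_
  refine (Finset.card_biUnion_le_card_mul _ _ (2 * ((Fintype.card X + 1) ^ (7 * k) * B)) ?_).trans
    (le_of_eq ?_)
  · intro w _
    refine (Finset.card_union_le _ _).trans ?_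
    have h2 := bound_fork hk hQ hs inp μ q B hBf w
    have h3 := bound_edge hk hQ hs inp μ q B hBe w
    omega
  · rw [Finset.card_univ]
    rfl

end generic


/-! ## Two graphs -/

section pairs

variable {n : ℕ}

lemma sensitive_isomorphic : Sensitive (Isomorphic n) := by
  rintro a x ⟨h1, h2⟩
  exact flip_card a x ⟨even_card h1, even_card h2⟩

open Classical in
lemma deg_mono {T U : Finset (Pr n)} (h : T ⊆ U) (i : Fin n) : deg T i ≤ deg U i := by
  unfold deg
  refine Finset.card_le_card ?_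
  intro j
  simp only [Finset.mem_filter, Finset.mem_univ, true_and, conn]
  rintro ⟨h1, h2⟩
  exact ⟨h1, h h2⟩

open Classical in
lemma deg_singleton_le (e : Pr n) (i : Fin n) : deg {e} i ≤ 1 := by
  unfold deg
  rw [Finset.card_le_one]
  intro j hj j' hj'
  simp only [Finset.mem_filter, Finset.mem_univ, true_and, conn, Finset.mem_singleton] at hj hj'
  obtain ⟨h1, rfl⟩ := hj
  obtain ⟨h2, h3⟩ := hj'
  have h4 : (s(i, j') : Sym2 (Fin n)) = s(i, j) := congrArg Subtype.val h3
  rw [Sym2.eq_iff] at h4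
  rcases h4 with ⟨_, h⟩ | ⟨h5, h6⟩
  · exact h.symm
  · rw [h6, ← h5]

open Classical in
lemma deg_empty (i : Fin n) : deg (∅ : Finset (Pr n)) i = 0 := by
  unfold deg
  rw [Finset.card_eq_zero, Finset.filter_eq_empty_iff]
  rintro j - ⟨h1, h2⟩
  simp at h2

lemma pure_empty (D : ℕ) (hD : D + 1 ≤ n) : pure D (∅ : Finset (Pr n)) = 0 := by
  classical
  unfold pure
  rw [Finset.card_eq_zero, Finset.filter_eq_empty_iff]
  intro i _
  have h2 := deg_add_compl (∅ : Finset (Pr n)) i
  rw [deg_empty] at h2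
  omega

lemma pure_univ (D : ℕ) (hD : 1 ≤ D) : pure D (Finset.univ : Finset (Pr n)) = n := by
  classical
  unfold pure
  rw [Finset.compl_univ, Finset.filter_true_of_mem]
  · simp
  · intro i _
    rw [deg_empty]; omega

open Classical in
lemma pure_insert (D : ℕ) (e : Pr n) (T : Finset (Pr n)) :
    #{i | deg (insert e T)ᶜ i < D - 1} ≤ pure D T := by
  unfold pure
  refine Finset.card_le_card ?_
  intro i
  simp only [Finset.mem_filter, Finset.mem_univ, true_and]
  intro h
  have h1 : Tᶜ ⊆ (insert e T)ᶜ ∪ {e} := by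
    intro e' he'
    rw [Finset.mem_union, Finset.mem_singleton, Finset.mem_compl, Finset.mem_insert]
    rw [Finset.mem_compl] at he'
    tauto
  have h2 := deg_mono h1 i
  have h3 := deg_union_le (insert e T)ᶜ {e} i
  have h4 := deg_singleton_le e i
  omega

open Classical in
lemma pure_insert_left (D : ℕ) (x : Var n) (S : Finset (Var n)) :
    #{i | deg (left (insert x S))ᶜ i < D - 1} ≤ pure D (left S) := by
  cases x with
  | inl e =>
    have h1 : left (insert (Sum.inl e) S) = insert e (left S) := by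
      ext e'
      simp [left]
    rw [h1]
    exact pure_insert D e (left S)
  | inr e =>
    have h1 : left (insert (Sum.inr e) S) = left S := by
      ext e'
      simp [left]
    rw [h1]
    unfold pure
    refine Finset.card_le_card ?_
    intro i
    simp only [Finset.mem_filter, Finset.mem_univ, true_and]
    intro h
    omega

lemma exists_sigma' (S : Finset (Var n)) (R : Finset (Equiv.Perm (Fin n) × (Pr n → Bool)))
    (hmix : Mixable S R) (K : ℕ) (hK : n.factorial ^ 6 ≤ 2 ^ K)
    (π π' : Equiv.Perm (Fin n)) (hπ : Heavy R π) (hπ' : Heavy R π') :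
    ∃ σ : Equiv.Perm (Fin n), #{e | alph S e ≠ bet S π π' σ e} ≤ K := by
  obtain ⟨σ, hσ⟩ := exists_sigma S R hmix π π' hπ hπ'
  exact ⟨σ, (Nat.pow_le_pow_iff_right (by norm_num)).1 (hσ.trans hK)⟩

lemma card_Pr : Fintype.card (Pr n) = n.choose 2 := by
  rw [Sym2.card_subtype_not_diag, Fintype.card_fin]

lemma card_Var_lt (hn : 1 ≤ n) : Fintype.card (Var n) + 1 ≤ n ^ 2 := by
  rw [Fintype.card_sum, card_Pr, Nat.choose_two_right]
  obtain ⟨m, rfl⟩ : ∃ m, n = m + 1 := ⟨n - 1, by omega⟩
  have h1 : (m + 1) * (m + 1 - 1) / 2 * 2 ≤ (m + 1) * (m + 1 - 1) := Nat.div_mul_le_self _ _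
  have h2 : (m + 1) * (m + 1 - 1) = m * m + m := by
    rw [Nat.add_sub_cancel]; ring
  rw [h2] at h1 ⊢
  nlinarith

open Classical in
/-- The bound with parameters. -/
lemma main_bound {P : Program (Var n)} {k : ℕ} (hk : P.RereadsAtMost k)
    (hs : ∀ a, P.Accepts a → Isomorphic n a) (D K r r' m : ℕ) (hD : 3 ≤ D)
    (hr : 4 * K ≤ (D - 1) * r) (hr' : 4 * K ≤ (D - 2) * r') (hn : 3 * D + 1 ≤ n)
    (hK : n.factorial ^ 6 ≤ 2 ^ K) (hm : 3 * (2 * D - 2) + 3 * r ≤ m)
    (hm' : 2 * (2 * D - 2) + r' ≤ m) :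
    #{p : Equiv.Perm (Fin n) × (Pr n → Bool) | P.Accepts (inp p.1 p.2)} ≤
      P.size * (2 * ((Fintype.card (Var n) + 1) ^ (7 * k) *
        ((n ^ m + 1) * 2 ^ Fintype.card (Pr n)))) := by
  refine master hk sensitive_isomorphic hs (fun p : Equiv.Perm (Fin n) × (Pr n → Bool) =>
    inp p.1 p.2) (fun S => pure D (left S)) (2 * D - 2) _ ?_ ?_ ?_ ?_
  · have h1 : left (∅ : Finset (Var n)) = ∅ := by ext e; simp [left]
    simp only [h1]
    rw [pure_empty D (by omega)]
    omega
  · have h1 : left (Finset.univ : Finset (Var n)) = Finset.univ := by ext e; simp [left]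
    simp only [h1]
    rw [pure_univ D (by omega)]
    omega
  · intro S1 S2 R h6 h7 h8 mix1 mix2 mix3
    have hU : left (S1 ∪ S2) = left S1 ∪ left S2 := by
      ext e
      simp only [left, Finset.mem_union, Finset.mem_filter, Finset.mem_univ, true_and]
    refine card_le_of_heavy R (n ^ m) ?_
    refine card_close (by omega) _ ?_
    intro π hπ π' hπ'
    simp only [Finset.mem_filter, Finset.mem_univ, true_and] at hπ hπ'
    exact (fork_count S1 S2 (S1 ∪ S2) hU D K r (by omega) hr hn h6 h7 h8 π π'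
      (exists_sigma' _ R mix1 K hK π π' hπ hπ') (exists_sigma' _ R mix2 K hK π π' hπ hπ')
      (exists_sigma' _ R mix3 K hK π π' hπ hπ')).trans hm
  · intro S x R h4 h5 mix
    refine card_le_of_heavy R (n ^ m) ?_
    refine card_close (by omega) _ ?_
    intro π hπ π' hπ'
    simp only [Finset.mem_filter, Finset.mem_univ, true_and] at hπ hπ'
    exact (edge_count (insert x S) D K r' hD hr' (by omega)
      ((pure_insert_left D x S).trans h4) h5 π π'
      (exists_sigma' _ R mix K hK π π' hπ hπ')).trans hm'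

open Classical in
/-- The average-case lower bound. -/
lemma average_case (hn2 : 2 ≤ n) {P : Program (Var n)} {k : ℕ} (hk : P.RereadsAtMost k)
    (hs : ∀ a, P.Accepts a → Isomorphic n a) :
    #{p : Equiv.Perm (Fin n) × (Pr n → Bool) | P.Accepts (inp p.1 p.2)} ≤
      P.size * n ^ (44 * (Nat.sqrt (n * Nat.clog 2 n) + 1) + 14 * k) * 2 ^ (n.choose 2) := by
  have hsize : 1 ≤ P.size := Fintype.card_pos_iff.2 ⟨P.start⟩
  set x := n * Nat.clog 2 n with hx
  set t := Nat.sqrt x with ht
  have hxt : x < (t + 1) ^ 2 := Nat.lt_succ_sqrt' x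
  have hfac : n.factorial ≤ 2 ^ x := by
    calc n.factorial ≤ n ^ n := Nat.factorial_le_pow n
      _ ≤ (2 ^ Nat.clog 2 n) ^ n := Nat.pow_le_pow_left (Nat.le_pow_clog (by norm_num) n) n
      _ = 2 ^ x := by rw [← pow_mul, mul_comm]
  rcases le_or_gt n (44 * (t + 1)) with hsmall | hlarge
  · -- trivial range
    have h1 : #{p : Equiv.Perm (Fin n) × (Pr n → Bool) | P.Accepts (inp p.1 p.2)} ≤
        n.factorial * 2 ^ (n.choose 2) := by
      refine (Finset.card_le_univ _).trans (le_of_eq ?_)
      rw [Fintype.card_prod, Fintype.card_perm, Fintype.card_fin, Fintype.card_fun,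
        Fintype.card_bool, card_Pr]
    refine h1.trans (Nat.mul_le_mul_right _ ?_)
    calc n.factorial ≤ n ^ n := Nat.factorial_le_pow n
      _ ≤ n ^ (44 * (t + 1) + 14 * k) := Nat.pow_le_pow_right (by omega) (by omega)
      _ = 1 * n ^ (44 * (t + 1) + 14 * k) := (one_mul _).symm
      _ ≤ P.size * n ^ (44 * (t + 1) + 14 * k) := Nat.mul_le_mul_right _ hsize
  · have hK : n.factorial ^ 6 ≤ 2 ^ (6 * x) := by
      calc n.factorial ^ 6 ≤ (2 ^ x) ^ 6 := Nat.pow_le_pow_left hfac 6
        _ = 2 ^ (6 * x) := by rw [← pow_mul, mul_comm]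
    have h1 := main_bound (P := P) hk hs (4 * t + 5) (6 * x) (6 * (t + 1)) (8 * (t + 1))
      (42 * (t + 1)) (by omega)
      (by
        have e : 4 * t + 5 - 1 = 4 * (t + 1) := by omega
        rw [e]
        nlinarith)
      (by
        have e : 4 * t + 5 - 2 = 4 * t + 3 := by omega
        rw [e]
        have h2 : x ≤ t * (t + 2) := by nlinarith
        nlinarith)
      (by omega) hK (by omega) (by omega)
    refine h1.trans ?_
    rw [card_Pr]
    have h2 : 2 * (n ^ (42 * (t + 1)) + 1) ≤ n ^ (44 * (t + 1)) := by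
      have h3 : 1 ≤ n ^ (42 * (t + 1)) := Nat.one_le_pow _ _ (by omega)
      calc 2 * (n ^ (42 * (t + 1)) + 1) ≤ 4 * n ^ (42 * (t + 1)) := by omega
        _ ≤ n ^ 2 * n ^ (42 * (t + 1)) := by
          refine Nat.mul_le_mul_right _ ?_
          nlinarith
        _ = n ^ (2 + 42 * (t + 1)) := by rw [pow_add]
        _ ≤ n ^ (44 * (t + 1)) := Nat.pow_le_pow_right (by omega) (by omega)
    have h4 : (Fintype.card (Var n) + 1) ^ (7 * k) ≤ n ^ (14 * k) := by
      calc (Fintype.card (Var n) + 1) ^ (7 * k) ≤ (n ^ 2) ^ (7 * k) :=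
            Nat.pow_le_pow_left (card_Var_lt (by omega)) _
        _ = n ^ (14 * k) := by rw [← pow_mul]; congr 1; omega
    calc P.size * (2 * ((Fintype.card (Var n) + 1) ^ (7 * k) *
          ((n ^ (42 * (t + 1)) + 1) * 2 ^ n.choose 2)))
        = P.size * ((2 * (n ^ (42 * (t + 1)) + 1)) * (Fintype.card (Var n) + 1) ^ (7 * k)) *
          2 ^ n.choose 2 := by ring
      _ ≤ P.size * (n ^ (44 * (t + 1)) * n ^ (14 * k)) * 2 ^ n.choose 2 := by
        refine Nat.mul_le_mul_right _ (Nat.mul_le_mul_left _ (Nat.mul_le_mul h2 h4))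
      _ = P.size * n ^ (44 * (t + 1) + 14 * k) * 2 ^ n.choose 2 := by rw [← pow_add]

end pairs


/-! ## The brute force program -/

section upper

variable (n : ℕ)

/-- number of pairs -/
abbrev NP : ℕ := Fintype.card (Pr n)

/-- the `i`-th pair -/
noncomputable def pr (i : Fin (NP n)) : Pr n := (Fintype.equivFin (Pr n)).symm i

/-- nodes of the brute force program: for each permutation a chain -/
abbrev BNode : Type := (Equiv.Perm (Fin n) × Fin (NP n + 1) × Option Bool) ⊕ Bool

/-- the edges of the brute force program -/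
inductive BEdge : BNode n → Option (Var n × Bool) → BNode n → Prop
  | init (π : Equiv.Perm (Fin n)) : BEdge (Sum.inr false) none (Sum.inl (π, 0, none))
  | readx (π : Equiv.Perm (Fin n)) (i : Fin (NP n)) (b : Bool) :
      BEdge (Sum.inl (π, i.castSucc, none)) (some (Sum.inl (pr n i), b))
        (Sum.inl (π, i.castSucc, some b))
  | ready (π : Equiv.Perm (Fin n)) (i : Fin (NP n)) (b : Bool) :
      BEdge (Sum.inl (π, i.castSucc, some b)) (some (Sum.inr (pact π (pr n i)), b))
        (Sum.inl (π, i.succ, none))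
  | fin (π : Equiv.Perm (Fin n)) : BEdge (Sum.inl (π, Fin.last _, none)) none (Sum.inr true)

/-- the rank function -/
def brank : BNode n → ℕ
  | Sum.inr false => 0
  | Sum.inl (_, i, none) => 1 + 2 * i
  | Sum.inl (_, i, some _) => 2 + 2 * i
  | Sum.inr true => 2 + 2 * NP n

/-- the brute force program -/
noncomputable def brute : Program (Var n) where
  Node := BNode n
  start := Sum.inr false
  accept := Sum.inr true
  Edge := BEdge n
  fork := fun _ => none
  acyclic := by
    refine ⟨brank n, ?_, ?_⟩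
    · rintro u l v h
      cases h with
      | init π => simp [brank]
      | readx π i b => simp [brank]
      | ready π i b => simp [brank]; omega
      | fin π => simp [brank]
    · intro u v w h
      simp at h

lemma brute_size : (brute n).size = 3 * (n.choose 2 + 1) * n.factorial + 2 := by
  unfold Program.size
  change Fintype.card (BNode n) = _
  have h : NP n = n.choose 2 := by
    change Fintype.card (Pr n) = _
    rw [Sym2.card_subtype_not_diag, Fintype.card_fin]
  rw [Fintype.card_sum, Fintype.card_prod, Fintype.card_prod, Fintype.card_perm, Fintype.card_fin,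
    Fintype.card_fin, Fintype.card_option, Fintype.card_bool, h]
  ring

/-- the rank at which a variable is read in the chain of `π` -/
noncomputable def vrank (π : Equiv.Perm (Fin n)) : Var n → ℕ
  | Sum.inl e => 1 + 2 * (Fintype.equivFin (Pr n) e : ℕ)
  | Sum.inr e => 2 + 2 * (Fintype.equivFin (Pr n) (pact π⁻¹ e) : ℕ)

/-- invariants of trees inside a chain -/
lemma chain_aux (π : Equiv.Perm (Fin n)) (u : (brute n).Node) (T : Multiset (Var n × Bool))
    (h : (brute n).Tree u T) (hu : (∃ i c, u = Sum.inl (π, i, c)) ∨ u = Sum.inr true) :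
    (T.map (fun t => vrank n π t.1)).Nodup ∧
      ∀ t ∈ T, brank n u ≤ vrank n π t.1 := by
  induction h with
  | leaf => simp
  | guess he hp ih =>
    rcases hu with ⟨i, c, rfl⟩ | rfl
    · cases he with
      | fin π' =>
        obtain ⟨h1, h2⟩ := ih (Or.inr rfl)
        refine ⟨h1, fun t ht => le_trans ?_ (h2 t ht)⟩
        simp [brank]
    · cases he
  | test he hp ih =>
    rcases hu with ⟨i, c, rfl⟩ | rfl
    · cases he with
      | readx π' i b =>
        obtain ⟨h1, h2⟩ := ih (Or.inl ⟨_, _, rfl⟩)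
        have h3 : vrank n π (Sum.inl (pr n i)) = 1 + 2 * (i : ℕ) := by
          simp [vrank, pr]
        constructor
        · rw [Multiset.map_cons, Multiset.nodup_cons]
          refine ⟨?_, h1⟩
          intro hr
          rw [Multiset.mem_map] at hr
          obtain ⟨t, ht, htt⟩ := hr
          have := h2 t ht
          simp only [brank, Fin.val_castSucc] at this
          simp only [h3] at htt
          omega
        · intro t ht
          rcases Multiset.mem_cons.1 ht with rfl | ht
          · simp only [h3, brank, Fin.val_castSucc]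
            omega
          · have := h2 t ht
            simp only [brank, Fin.val_castSucc] at this ⊢
            omega
      | ready π' i b =>
        obtain ⟨h1, h2⟩ := ih (Or.inl ⟨_, _, rfl⟩)
        have h3 : vrank n π (Sum.inr (pact π (pr n i))) = 2 + 2 * (i : ℕ) := by
          simp [vrank, pr, pact_inv]
        constructor
        · rw [Multiset.map_cons, Multiset.nodup_cons]
          refine ⟨?_, h1⟩
          intro hr
          rw [Multiset.mem_map] at hr
          obtain ⟨t, ht, htt⟩ := hr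
          have := h2 t ht
          simp only [brank, Fin.val_succ] at this
          simp only [h3] at htt
          omega
        · intro t ht
          rcases Multiset.mem_cons.1 ht with rfl | ht
          · simp only [h3, brank, Fin.val_castSucc]
            omega
          · have := h2 t ht
            simp only [brank, Fin.val_succ, Fin.val_castSucc] at this ⊢
            omega
    · cases he
  | fork he _ _ _ _ => simp [brute] at he

lemma brute_nodup (T : Multiset (Var n × Bool)) (hT : (brute n).Tree (brute n).start T) :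
    (T.map Prod.fst).Nodup := by
  have key : ∀ π : Equiv.Perm (Fin n), ∀ T', (brute n).Tree (Sum.inl (π, 0, none)) T' →
      (T'.map Prod.fst).Nodup := by
    intro π T' hT'
    have h2 := (chain_aux n π _ _ hT' (Or.inl ⟨_, _, rfl⟩)).1
    have h3 : T'.map (fun t => vrank n π t.1) = (T'.map Prod.fst).map (vrank n π) := by
      rw [Multiset.map_map]; rfl
    rw [h3] at h2
    exact Multiset.Nodup.of_map _ h2
  generalize hs : (brute n).start = u at hT
  cases hT with
  | leaf => simp
  | guess he hp =>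
    subst hs
    cases he with
    | init π => exact key π _ hp
  | test he hp =>
    subst hs
    cases he
  | fork he _ _ => simp [brute] at he

lemma brute_readOnce : (brute n).RereadsAtMost 0 := by
  intro T hT
  have h1 := brute_nodup n T hT
  rw [Nat.le_zero, Finset.card_eq_zero, Finset.filter_eq_empty_iff]
  intro x _ hx
  have := Multiset.nodup_iff_count_le_one.1 h1 x
  omega

/-- soundness -/
lemma sound_aux (π : Equiv.Perm (Fin n)) (a : Var n → Bool) (u : (brute n).Node)
    (T : Multiset (Var n × Bool))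
    (h : (brute n).Tree u T) (ha : ∀ t ∈ T, a t.1 = t.2) :
    (∀ i : Fin (NP n + 1), u = Sum.inl (π, i, none) →
      ∀ j : Fin (NP n), (i : ℕ) ≤ j → a (Sum.inr (pact π (pr n j))) = a (Sum.inl (pr n j))) ∧
    (∀ (i : Fin (NP n + 1)) (b : Bool), u = Sum.inl (π, i, some b) →
      ∀ j : Fin (NP n), ((i : ℕ) < j → a (Sum.inr (pact π (pr n j))) = a (Sum.inl (pr n j))) ∧
        ((i : ℕ) = j → a (Sum.inr (pact π (pr n j))) = b)) := by
  induction h with
  | leaf =>
    refine ⟨fun i hi => ?_, fun i b hi => ?_⟩ <;> simp [brute] at hi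
  | guess he hp ih =>
    refine ⟨?_, ?_⟩
    · rintro i rfl
      cases he with
      | fin π' =>
        intro j hj
        simp only [Fin.val_last] at hj
        exact absurd j.2 (by omega)
    · rintro i b rfl
      cases he
  | test he hp ih =>
    have ih' := ih (fun t ht => ha t (Multiset.mem_cons_of_mem ht))
    refine ⟨?_, ?_⟩
    · rintro i rfl
      cases he with
      | readx π' i b =>
        have h1 := (ih'.2 _ _ rfl)
        intro j hj
        simp only [Fin.val_castSucc] at hj
        rcases eq_or_lt_of_le hj with h2 | h2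
        · have h3 := (h1 j).2 (by simpa using h2)
          rw [h3]
          have h4 := ha _ (Multiset.mem_cons_self _ _)
          have h5 : i = j := Fin.ext h2
          rw [← h5]
          exact h4.symm
        · exact (h1 j).1 (by simpa using h2)
    · rintro i b rfl
      cases he with
      | ready π' i b' =>
        have h1 := ih'.1 _ rfl
        intro j
        refine ⟨?_, ?_⟩
        · intro hj
          simp only [Fin.val_castSucc] at hj
          exact h1 j (by simp; omega)
        · intro hj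
          simp only [Fin.val_castSucc] at hj
          have h4 := ha _ (Multiset.mem_cons_self _ _)
          have h5 : i = j := Fin.ext hj
          rw [← h5]
          exact h4
  | fork he _ _ _ _ => simp [brute] at he

/-- completeness -/
lemma complete_aux (π : Equiv.Perm (Fin n)) (a : Var n → Bool)
    (hπ : ∀ e, a (Sum.inr (pact π e)) = a (Sum.inl e)) :
    ∀ k : ℕ, ∀ hk : k ≤ NP n, ∃ T, (brute n).Tree (Sum.inl (π, ⟨NP n - k, by omega⟩, none)) T ∧
      ∀ t ∈ T, a t.1 = t.2 := by
  intro k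
  induction k with
  | zero =>
    intro hk
    refine ⟨0, ?_, by simp⟩
    refine Program.Tree.guess (v := (Sum.inr true : BNode n)) ?_ Program.Tree.leaf
    exact BEdge.fin π
  | succ k ih =>
    intro hk
    obtain ⟨T, hT, hTa⟩ := ih (by omega)
    have hlt : NP n - (k + 1) < NP n := by omega
    let i : Fin (NP n) := ⟨NP n - (k + 1), hlt⟩
    refine ⟨(Sum.inl (pr n i), a (Sum.inl (pr n i))) ::ₘ
      (Sum.inr (pact π (pr n i)), a (Sum.inl (pr n i))) ::ₘ T, ?_, ?_⟩
    · have e1 : (brute n).Edge (Sum.inl (π, i.castSucc, none))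
          (some (Sum.inl (pr n i), a (Sum.inl (pr n i))))
          (Sum.inl (π, i.castSucc, some (a (Sum.inl (pr n i))))) :=
        BEdge.readx π i (a (Sum.inl (pr n i)))
      have e2 : (brute n).Edge (Sum.inl (π, i.castSucc, some (a (Sum.inl (pr n i)))))
          (some (Sum.inr (pact π (pr n i)), a (Sum.inl (pr n i))))
          (Sum.inl (π, i.succ, none)) :=
        BEdge.ready π i (a (Sum.inl (pr n i)))
      have e3 : (i.succ : Fin (NP n + 1)) = ⟨NP n - k, by omega⟩ := by
        apply Fin.ext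
        change NP n - (k + 1) + 1 = NP n - k
        omega
      rw [e3] at e2
      exact Program.Tree.test e1 (Program.Tree.test e2 hT)
    · intro t ht
      rcases Multiset.mem_cons.1 ht with rfl | ht
      · rfl
      · rcases Multiset.mem_cons.1 ht with rfl | ht
        · exact hπ _
        · exact hTa t ht

lemma brute_computes : (brute n).Computes (Isomorphic n) := by
  intro a
  rw [isomorphic_iff]
  constructor
  · rintro ⟨T, hT, ha⟩
    generalize hs : (brute n).start = u at hT
    cases hT with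
    | leaf =>
      change (Sum.inr false : BNode n) = Sum.inr true at hs
      simp at hs
    | guess he hp =>
      subst hs
      cases he with
      | init π =>
        refine ⟨π, fun e => ?_⟩
        have h1 := (sound_aux n π a _ _ hp ha).1 0 rfl (Fintype.equivFin (Pr n) e) (by simp)
        simpa [pr] using h1
    | test he hp =>
      subst hs
      cases he
    | fork he _ _ => simp [brute] at he
  · rintro ⟨π, hπ⟩
    obtain ⟨T, hT, hTa⟩ := complete_aux n π a hπ (NP n) le_rfl
    refine ⟨T, ?_, hTa⟩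
    have e1 : (brute n).Edge (brute n).start none (Sum.inl (π, 0, none)) := BEdge.init π
    have : (⟨NP n - NP n, by omega⟩ : Fin (NP n + 1)) = 0 := by
      apply Fin.ext
      simp
    rw [this] at hT
    exact Program.Tree.guess e1 hT

end upper


/-! ## One fixed graph -/

section fixed

variable {n : ℕ}

lemma isoTo_iff (z a : Pr n → Bool) :
    IsoTo z a ↔ ∃ σ : Equiv.Perm (Fin n), ∀ e : Pr n, z (pact σ e) = a e :=
  isomorphic_iff (Sum.elim a z)

lemma isoTo_copy (z : Pr n → Bool) (π : Equiv.Perm (Fin n)) : IsoTo z (copy z π) := by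
  rw [isoTo_iff]
  exact ⟨π, fun e => rfl⟩

lemma sensitive_isoTo (z : Pr n → Bool) : Sensitive (IsoTo z) := by
  rintro a x ⟨h1, h2⟩
  refine sensitive_isomorphic (n := n) (Sum.elim a z) (Sum.inl x) ⟨h1, ?_⟩
  have h3 : Function.update (Sum.elim a z) (Sum.inl x) (!(Sum.elim a z (Sum.inl x))) =
      Sum.elim (Function.update a x (!a x)) z := by
    rw [Sum.elim_inl, ← Sum.elim_update_left]
  rw [h3]
  exact h2

/-- the images of a pair under a set of permutations -/
def orb (Φ : Finset (Equiv.Perm (Fin n))) (e : Pr n) : Finset (Pr n) :=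
  Φ.image (fun σ => pact σ e)

/-- the pairs with many images, on which `z` is constant -/
def cst (z : Pr n → Bool) (ρ : ℕ) (Φ : Finset (Equiv.Perm (Fin n))) : Finset (Pr n) :=
  {e | ρ + 1 ≤ #(orb Φ e) ∧ ∀ f ∈ orb Φ e, ∀ f' ∈ orb Φ e, z f = z f'}

/-- the pseudorandomness property used -/
def GoodZ (L ρ c : ℕ) (z : Pr n → Bool) : Prop :=
  ∀ Φ : Finset (Equiv.Perm (Fin n)), #Φ ≤ L → #(cst z ρ Φ) ≤ c

lemma orb_nonempty {Φ : Finset (Equiv.Perm (Fin n))} {ρ : ℕ} {e : Pr n} (h : ρ + 1 ≤ #(orb Φ e)) :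
    (orb Φ e).Nonempty := by
  rw [← Finset.card_pos]; omega

open Classical in
lemma count_const (ρ : ℕ) (Φ : Finset (Equiv.Perm (Fin n))) (C : Finset (Pr n))
    (hsize : ∀ e ∈ C, ρ + 1 ≤ #(orb Φ e))
    (hdisj : ∀ e ∈ C, ∀ e' ∈ C, e ≠ e' → Disjoint (orb Φ e) (orb Φ e')) :
    #{z : Pr n → Bool | ∀ e ∈ C, ∀ f ∈ orb Φ e, ∀ f' ∈ orb Φ e, z f = z f'} * 2 ^ (ρ * #C) ≤
      2 ^ Fintype.card (Pr n) := by
  have hne : ∀ e : Pr n, ∃ f, e ∈ C → f ∈ orb Φ e := by
    intro e
    by_cases he : e ∈ C
    · obtain ⟨f, hf⟩ := orb_nonempty (hsize e he)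
      exact ⟨f, fun _ => hf⟩
    · exact ⟨e, fun h => absurd h he⟩
  choose rep hrep using hne
  set U : Finset (Pr n) := C.biUnion (fun e => (orb Φ e).erase (rep e)) with hU
  have hUcard : ρ * #C ≤ #U := by
    rw [hU, Finset.card_biUnion]
    · calc ρ * #C = ∑ e ∈ C, ρ := by rw [Finset.sum_const, smul_eq_mul, mul_comm]
        _ ≤ ∑ e ∈ C, #((orb Φ e).erase (rep e)) := by
          refine Finset.sum_le_sum ?_
          intro e he
          rw [Finset.card_erase_of_mem (hrep e he)]
          have := hsize e he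
          omega
    · intro e he e' he' hee
      exact Disjoint.mono (Finset.erase_subset _ _) (Finset.erase_subset _ _) (hdisj e he e' he' hee)
  have hrepU : ∀ e ∈ C, rep e ∉ U := by
    intro e he hmem
    rw [hU, Finset.mem_biUnion] at hmem
    obtain ⟨e', he', h⟩ := hmem
    rw [Finset.mem_erase] at h
    by_cases hee : e = e'
    · subst hee
      exact h.1 rfl
    · exact Finset.disjoint_left.1 (hdisj e he e' he' hee) (hrep e he) h.2
  have hinj : Set.InjOn (fun (z : Pr n → Bool) => fun (x : {x : Pr n // x ∉ U}) => z x.1)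
      (↑({z : Pr n → Bool | ∀ e ∈ C, ∀ f ∈ orb Φ e, ∀ f' ∈ orb Φ e, z f = z f'} :
        Finset (Pr n → Bool)) : Set (Pr n → Bool)) := by
    intro z hz z' hz' hzz
    simp only [Finset.coe_filter, Finset.mem_univ, true_and, Set.mem_ofPred_eq] at hz hz'
    funext x
    by_cases hx : x ∈ U
    · rw [hU, Finset.mem_biUnion] at hx
      obtain ⟨e, he, h⟩ := hx
      rw [Finset.mem_erase] at h
      rw [hz e he x h.2 (rep e) (hrep e he), hz' e he x h.2 (rep e) (hrep e he)]
      exact congrFun hzz ⟨rep e, hrepU e he⟩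
    · exact congrFun hzz ⟨x, hx⟩
  have h2 := Finset.card_le_card_of_injOn
    (t := (Finset.univ : Finset ({x : Pr n // x ∉ U} → Bool))) _ (by intro z _; simp) hinj
  have h3 : Fintype.card ({x : Pr n // x ∉ U} → Bool) = 2 ^ (Fintype.card (Pr n) - #U) := by
    rw [Fintype.card_fun, Fintype.card_bool]
    congr 1
    rw [Fintype.card_subtype_compl]
    simp
  rw [Finset.card_univ, h3] at h2
  have hUle : #U ≤ Fintype.card (Pr n) := Finset.card_le_univ U
  calc _ ≤ 2 ^ (Fintype.card (Pr n) - #U) * 2 ^ (ρ * #C) := Nat.mul_le_mul_right _ h2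
    _ ≤ 2 ^ (Fintype.card (Pr n) - #U) * 2 ^ #U :=
      Nat.mul_le_mul_left _ (Nat.pow_le_pow_right (by norm_num) hUcard)
    _ = 2 ^ Fintype.card (Pr n) := by rw [← pow_add]; congr 1; omega

/-- Greedy choice of a conflict-free subset. -/
lemma greedy {V : Type} [DecidableEq V] (conf : V → V → Prop) [DecidableRel conf] (d : ℕ)
    (hd : 1 ≤ d) (hrefl : ∀ e, conf e e) (hsymm : ∀ e e', conf e e' → conf e' e) :
    ∀ (m : ℕ) (C : Finset V), (∀ e ∈ C, #{e' ∈ C | conf e e'} ≤ d) → m * d ≤ #C →
      ∃ C' ⊆ C, #C' = m ∧ ∀ e ∈ C', ∀ e' ∈ C', e ≠ e' → ¬ conf e e' := by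
  intro m
  induction m with
  | zero =>
    intro C _ _
    exact ⟨∅, by simp, by simp, by simp⟩
  | succ m ih =>
    intro C hC hm
    have hne : C.Nonempty := by
      rw [← Finset.card_pos]
      nlinarith
    obtain ⟨e, he⟩ := hne
    obtain ⟨C', h1, h2, h3⟩ := ih ({e' ∈ C | ¬ conf e e'})
      (by
        intro e' he'
        rw [Finset.mem_filter] at he'
        refine le_trans (Finset.card_le_card ?_) (hC e' he'.1)
        exact Finset.filter_subset_filter _ (Finset.filter_subset _ _))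
      (by
        have h4 := Finset.card_filter_add_card_filter_not (s := C) (fun e' => conf e e')
        have h5 := hC e he
        have h6 : (m + 1) * d = m * d + d := by ring
        omega)
    have heC' : e ∉ C' := by
      intro h
      have := h1 h
      rw [Finset.mem_filter] at this
      exact this.2 (hrefl e)
    refine ⟨insert e C', ?_, ?_, ?_⟩
    · intro x hx
      rw [Finset.mem_insert] at hx
      rcases hx with rfl | hx
      · exact he
      · exact (Finset.mem_filter.1 (h1 hx)).1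
    · rw [Finset.card_insert_of_notMem heC', h2]
    · intro x hx y hy hxy
      rw [Finset.mem_insert] at hx hy
      rcases hx with rfl | hx
      · rcases hy with rfl | hy
        · exact absurd rfl hxy
        · exact (Finset.mem_filter.1 (h1 hy)).2
      · rcases hy with rfl | hy
        · intro h
          exact (Finset.mem_filter.1 (h1 hx)).2 (hsymm _ _ h)
        · exact h3 x hx y hy hxy

open Classical in
/-- Few graphs fail to be pseudorandom. -/
lemma count_bad (L ρ m : ℕ) (hL : 1 ≤ L) :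
    #{z : Pr n → Bool | ¬ GoodZ L ρ (m * L ^ 2) z} * 2 ^ (ρ * m) ≤
      (n.factorial + 1) ^ L * (Fintype.card (Pr n) + 1) ^ m * 2 ^ Fintype.card (Pr n) := by
  set Pairs : Finset (Finset (Equiv.Perm (Fin n)) × Finset (Pr n)) :=
    (({Φ : Finset (Equiv.Perm (Fin n)) | #Φ ≤ L} : Finset (Finset (Equiv.Perm (Fin n)))) ×ˢ
      ({C : Finset (Pr n) | #C ≤ m} : Finset (Finset (Pr n)))) with hPairs
  set Good : Finset (Finset (Equiv.Perm (Fin n)) × Finset (Pr n)) :=
    {p ∈ Pairs | #p.2 = m ∧ (∀ e ∈ p.2, ρ + 1 ≤ #(orb p.1 e)) ∧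
      (∀ e ∈ p.2, ∀ e' ∈ p.2, e ≠ e' → Disjoint (orb p.1 e) (orb p.1 e'))} with hGood
  have hsub : ({z : Pr n → Bool | ¬ GoodZ L ρ (m * L ^ 2) z} : Finset (Pr n → Bool)) ⊆
      Good.biUnion (fun p => {z : Pr n → Bool |
        ∀ e ∈ p.2, ∀ f ∈ orb p.1 e, ∀ f' ∈ orb p.1 e, z f = z f'}) := by
    intro z hz
    simp only [Finset.mem_filter, Finset.mem_univ, true_and, GoodZ] at hz
    push Not at hz
    obtain ⟨Φ, hΦ1, hΦ2⟩ := hz
    obtain ⟨C', h1, h2, h3⟩ := greedy (fun e e' : Pr n => ¬ Disjoint (orb Φ e) (orb Φ e') ∨ e = e')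
      (L ^ 2) (Nat.one_le_pow _ _ hL) (fun e => Or.inr rfl)
      (by
        rintro e e' (h | h)
        · exact Or.inl (fun h' => h h'.symm)
        · exact Or.inr h.symm) m (cst z ρ Φ)
      (by
        intro e he
        have hne : (orb Φ e).Nonempty := by
          rw [cst, Finset.mem_filter] at he
          exact orb_nonempty he.2.1
        have hsub : ({e' ∈ cst z ρ Φ | ¬ Disjoint (orb Φ e) (orb Φ e') ∨ e = e'} : Finset (Pr n)) ⊆
            (Φ ×ˢ Φ).image (fun p => pact p.1⁻¹ (pact p.2 e)) := by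
          intro e' he'
          rw [Finset.mem_filter] at he'
          have h5 : ¬ Disjoint (orb Φ e) (orb Φ e') := by
            rcases he'.2 with h | rfl
            · exact h
            · rw [Finset.disjoint_self_iff_empty]
              exact hne.ne_empty
          rw [Finset.not_disjoint_iff] at h5
          obtain ⟨f, hf1, hf2⟩ := h5
          rw [orb, Finset.mem_image] at hf1 hf2
          obtain ⟨σ, hσ, rfl⟩ := hf1
          obtain ⟨τ, hτ, hτf⟩ := hf2
          rw [Finset.mem_image]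
          refine ⟨(τ, σ), Finset.mk_mem_product hτ hσ, ?_⟩
          simp only
          rw [← hτf, pact_inv]
        refine (Finset.card_le_card hsub).trans (Finset.card_image_le.trans ?_)
        rw [Finset.card_product, pow_two]
        exact Nat.mul_le_mul hΦ1 hΦ1)
      hΦ2.le
    rw [Finset.mem_biUnion]
    refine ⟨(Φ, C'), ?_, ?_⟩
    · simp only [hGood, hPairs, Finset.mem_filter, Finset.mem_product, Finset.mem_univ, true_and]
      refine ⟨⟨hΦ1, h2.le⟩, h2, ?_, ?_⟩
      · intro e he
        have := h1 he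
        rw [cst, Finset.mem_filter] at this
        exact this.2.1
      · intro e he e' he' hee
        have := h3 e he e' he' hee
        push Not at this
        exact this.1
    · simp only [Finset.mem_filter, Finset.mem_univ, true_and]
      intro e he
      have := h1 he
      rw [cst, Finset.mem_filter] at this
      exact this.2.2
  have hcard : #Good ≤ (n.factorial + 1) ^ L * (Fintype.card (Pr n) + 1) ^ m := by
    refine (Finset.card_le_card (Finset.filter_subset _ _)).trans ?_
    rw [hPairs, Finset.card_product]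
    have h1 := card_small (V := Equiv.Perm (Fin n)) L
    have h2 := card_small (V := Pr n) m
    rw [Fintype.card_perm, Fintype.card_fin] at h1
    exact Nat.mul_le_mul h1 h2
  calc #{z : Pr n → Bool | ¬ GoodZ L ρ (m * L ^ 2) z} * 2 ^ (ρ * m)
      ≤ (∑ p ∈ Good, #{z : Pr n → Bool |
        ∀ e ∈ p.2, ∀ f ∈ orb p.1 e, ∀ f' ∈ orb p.1 e, z f = z f'}) * 2 ^ (ρ * m) := by
        refine Nat.mul_le_mul_right _ ?_
        exact (Finset.card_le_card hsub).trans Finset.card_biUnion_le
    _ = ∑ p ∈ Good, #{z : Pr n → Bool |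
        ∀ e ∈ p.2, ∀ f ∈ orb p.1 e, ∀ f' ∈ orb p.1 e, z f = z f'} * 2 ^ (ρ * m) := by
        rw [Finset.sum_mul]
    _ ≤ ∑ p ∈ Good, 2 ^ Fintype.card (Pr n) := by
        refine Finset.sum_le_sum ?_
        rintro ⟨Φ, C⟩ hp
        simp only [hGood, Finset.mem_filter] at hp
        obtain ⟨-, hp1, hp2, hp3⟩ := hp
        have := count_const ρ Φ C hp2 hp3
        rw [hp1] at this
        exact this
    _ = #Good * 2 ^ Fintype.card (Pr n) := by rw [Finset.sum_const, smul_eq_mul]
    _ ≤ _ := Nat.mul_le_mul_right _ hcard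

end fixed


section fixed2

variable {n : ℕ}

/-- the restriction of `σ` to `W` -/
def restr (W : Finset (Fin n)) (σ : Equiv.Perm (Fin n)) : Fin n → Fin n :=
  fun v => if v ∈ W then σ v else v

open Classical in
/-- Counting functions which mostly take values in prescribed small sets. -/
lemma count_close_fun (A : Fin n → Finset (Fin n)) (r g : ℕ) (hr : 1 ≤ r) (hA : ∀ v, #(A v) ≤ r) :
    #{f : Fin n → Fin n | #{v | f v ∉ A v} ≤ g} ≤ (n ^ 2 + 1) ^ g * r ^ n := by
  set B : Fin n → Finset (Fin n) := fun v => if (A v).Nonempty then A v else {v} with hB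
  have hBcard : ∀ v, #(B v) ≤ r := by
    intro v
    simp only [hB]
    split_ifs
    · exact hA v
    · simpa using hr
  have hBne : ∀ v, (B v).Nonempty := by
    intro v
    simp only [hB]
    split_ifs with h
    · exact h
    · simp
  choose d hd using hBne
  have hAB : ∀ v x, x ∈ A v → x ∈ B v := by
    intro v x hx
    simp only [hB]
    rw [if_pos ⟨x, hx⟩]
    exact hx
  set F : (Fin n → Fin n) → Finset (Fin n × Fin n) × (Fin n → Fin n) := fun f =>
    (({v | f v ∉ A v} : Finset (Fin n)).image (fun v => (v, f v)),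
      fun v => if f v ∈ A v then f v else d v) with hF
  have hinj : Set.InjOn F (↑({f : Fin n → Fin n | #{v | f v ∉ A v} ≤ g} :
      Finset (Fin n → Fin n)) : Set (Fin n → Fin n)) := by
    intro f _ f' _ hff
    simp only [hF, Prod.mk.injEq] at hff
    obtain ⟨h1, h2⟩ := hff
    funext v
    by_cases hv : f v ∈ A v
    · by_cases hv' : f' v ∈ A v
      · have := congrFun h2 v
        simp only [hv, hv', if_true] at this
        exact this
      · have h3 : (v, f' v) ∈ ({v | f' v ∉ A v} : Finset (Fin n)).image (fun v => (v, f' v)) := by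
          rw [Finset.mem_image]
          exact ⟨v, by simpa using hv', rfl⟩
        rw [← h1, Finset.mem_image] at h3
        obtain ⟨w, hw, hww⟩ := h3
        simp only [Prod.mk.injEq] at hww
        obtain ⟨rfl, hww⟩ := hww
        exact hww
    · have h3 : (v, f v) ∈ ({v | f v ∉ A v} : Finset (Fin n)).image (fun v => (v, f v)) := by
        rw [Finset.mem_image]
        exact ⟨v, by simpa using hv, rfl⟩
      rw [h1, Finset.mem_image] at h3
      obtain ⟨w, hw, hww⟩ := h3
      simp only [Prod.mk.injEq] at hww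
      obtain ⟨rfl, hww⟩ := hww
      exact hww.symm
  have hmaps : ∀ f ∈ ({f : Fin n → Fin n | #{v | f v ∉ A v} ≤ g} : Finset (Fin n → Fin n)),
      F f ∈ (({E : Finset (Fin n × Fin n) | #E ≤ g} : Finset (Finset (Fin n × Fin n))) ×ˢ
        Fintype.piFinset B) := by
    intro f hf
    simp only [Finset.mem_filter, Finset.mem_univ, true_and] at hf
    rw [Finset.mem_product]
    simp only [hF]
    constructor
    · simp only [Finset.mem_filter, Finset.mem_univ, true_and]
      exact Finset.card_image_le.trans hf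
    · rw [Fintype.mem_piFinset]
      intro v
      split_ifs with h
      · exact hAB v _ h
      · exact hd v
  have h1 := Finset.card_le_card_of_injOn F hmaps hinj
  refine h1.trans ?_
  rw [Finset.card_product, Fintype.card_piFinset]
  have h2 := card_small (V := Fin n × Fin n) g
  rw [Fintype.card_prod, Fintype.card_fin, ← pow_two] at h2
  refine Nat.mul_le_mul h2 ?_
  calc ∏ v, #(B v) ≤ ∏ _v : Fin n, r := Finset.prod_le_prod' (fun v _ => hBcard v)
    _ = r ^ n := by rw [Finset.prod_const, Finset.card_univ, Fintype.card_fin]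

/-- the images of a vertex -/
def im (Φ : Finset (Equiv.Perm (Fin n))) (v : Fin n) : Finset (Fin n) := Φ.image (fun σ => σ v)

lemma im_le_orb (Φ : Finset (Equiv.Perm (Fin n))) {v : Fin n} {e : Pr n} (he : v ∈ e.1) :
    #(im Φ v) ≤ #(orb Φ e) * 2 := by
  classical
  have hsub : im Φ v ⊆ (orb Φ e).biUnion (fun f => ({x | x ∈ f.1} : Finset (Fin n))) := by
    intro x hx
    rw [im, Finset.mem_image] at hx
    obtain ⟨σ, hσ, rfl⟩ := hx
    rw [Finset.mem_biUnion]
    refine ⟨pact σ e, Finset.mem_image_of_mem _ hσ, ?_⟩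
    simp only [Finset.mem_filter, Finset.mem_univ, true_and]
    exact Sym2.mem_map.2 ⟨v, he, rfl⟩
  refine (Finset.card_le_card hsub).trans (Finset.card_biUnion_le_card_mul _ _ 2 ?_)
  rintro ⟨f, hf⟩ _
  induction f using Sym2.ind with
  | _ x y =>
    have : ({z | z ∈ (s(x, y) : Sym2 (Fin n))} : Finset (Fin n)) ⊆ {x, y} := by
      intro z hz
      simpa using hz
    exact (Finset.card_le_card this).trans Finset.card_le_two

/-- the potential of a set of permutations -/
def pot (r : ℕ) (Φ : Finset (Equiv.Perm (Fin n))) : ℕ := ∑ v, min #(im Φ v) (r + 1)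

lemma pot_le (r : ℕ) (Φ : Finset (Equiv.Perm (Fin n))) : pot r Φ ≤ n * (r + 1) := by
  unfold pot
  calc ∑ v : Fin n, min #(im Φ v) (r + 1) ≤ ∑ _v : Fin n, (r + 1) :=
        Finset.sum_le_sum (fun v _ => min_le_right _ _)
    _ = n * (r + 1) := by rw [Finset.sum_const, Finset.card_univ, Fintype.card_fin, smul_eq_mul]

open Classical in
lemma pot_insert (r : ℕ) (Φ : Finset (Equiv.Perm (Fin n))) (σ : Equiv.Perm (Fin n)) :
    pot r Φ + #{v | #(im Φ v) ≤ r ∧ σ v ∉ im Φ v} ≤ pot r (insert σ Φ) := by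
  unfold pot
  rw [Finset.card_filter, ← Finset.sum_add_distrib]
  refine Finset.sum_le_sum ?_
  intro v _
  have h1 : im (insert σ Φ) v = insert (σ v) (im Φ v) := by
    unfold im
    rw [Finset.image_insert]
  rw [h1]
  split_ifs with h
  · rw [Finset.card_insert_of_notMem h.2]
    have := h.1
    omega
  · have := Finset.card_le_card (Finset.subset_insert (σ v) (im Φ v))
    omega

open Classical in
/-- A small subfamily capturing almost all unsaturated values. -/
lemma exists_core (Sg : Finset (Equiv.Perm (Fin n))) (r g L : ℕ) (hg : 1 ≤ g)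
    (hL : n * (r + 1) ≤ g * L) :
    ∃ Φ ⊆ Sg, #Φ ≤ L ∧ ∀ σ ∈ Sg, #{v | #(im Φ v) ≤ r ∧ σ v ∉ im Φ v} ≤ g := by
  set Fam : Finset (Finset (Equiv.Perm (Fin n))) := {Φ ∈ Sg.powerset | g * #Φ ≤ pot r Φ} with hFam
  have hne : Fam.Nonempty := ⟨∅, by simp [hFam]⟩
  obtain ⟨Φ, hΦ, hmax⟩ := Finset.exists_max_image Fam (fun Φ => #Φ) hne
  rw [hFam, Finset.mem_filter, Finset.mem_powerset] at hΦ
  refine ⟨Φ, hΦ.1, ?_, ?_⟩
  · have h1 : g * #Φ ≤ g * L := hΦ.2.trans ((pot_le r Φ).trans hL)
    exact Nat.le_of_mul_le_mul_left h1 (by omega)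
  · intro σ hσ
    by_cases hσΦ : σ ∈ Φ
    · have : ({v | #(im Φ v) ≤ r ∧ σ v ∉ im Φ v} : Finset (Fin n)) = ∅ := by
        rw [Finset.filter_eq_empty_iff]
        rintro v - ⟨-, h⟩
        exact h (Finset.mem_image_of_mem _ hσΦ)
      rw [this]; simp
    · have h2 : insert σ Φ ∉ Fam := by
        intro h
        have := hmax _ h
        rw [Finset.card_insert_of_notMem hσΦ] at this
        omega
      have h3 : ¬ (g * #(insert σ Φ) ≤ pot r (insert σ Φ)) := by
        intro h
        apply h2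
        rw [hFam, Finset.mem_filter, Finset.mem_powerset]
        exact ⟨Finset.insert_subset hσ hΦ.1, h⟩
      rw [Finset.card_insert_of_notMem hσΦ] at h3
      have h4 := pot_insert r Φ σ
      have h5 : g * (#Φ + 1) = g * #Φ + g := by ring
      omega

/-- `z` is constant on `T` along the family `Sg` -/
def ConstOn (z : Pr n → Bool) (T : Finset (Pr n)) (Sg : Finset (Equiv.Perm (Fin n))) : Prop :=
  ∀ σ ∈ Sg, ∀ σ' ∈ Sg, ∀ e ∈ T, z (pact σ e) = z (pact σ' e)

open Classical in
/-- **Key lemma**: a family of permutations along which a pseudorandom graph is constant on `T` has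
few restrictions to the vertices of large `T`-degree. -/
lemma key_restr (z : Pr n → Bool) (L ρ c r g s D : ℕ) (hz : GoodZ L ρ c z)
    (hr : 2 * ρ + 1 ≤ r) (hg : 1 ≤ g) (hL : n * (r + 1) ≤ g * L) (hD : 1 ≤ D)
    (hs : 2 * c ≤ s * D)
    (T : Finset (Pr n)) (Sg : Finset (Equiv.Perm (Fin n))) (hconst : ConstOn z T Sg)
    (W : Finset (Fin n)) (hW : ∀ v ∈ W, D ≤ deg T v) :
    #(Sg.image (restr W)) ≤ (n ^ 2 + 1) ^ (s + g) * r ^ n := by
  obtain ⟨Φ, hΦ1, hΦ2, hΦ3⟩ := exists_core Sg r g L hg hL
  set Sat : Finset (Fin n) := {v ∈ W | r + 1 ≤ #(im Φ v)} with hSat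
  have hC := hz Φ hΦ2
  -- few saturated vertices
  have hSatcard : #Sat ≤ s := by
    have h1 : ∀ v ∈ Sat, D ≤ deg (cst z ρ Φ) v := by
      intro v hv
      rw [hSat, Finset.mem_filter] at hv
      refine (hW v hv.1).trans ?_
      unfold deg
      refine Finset.card_le_card ?_
      intro w
      simp only [Finset.mem_filter, Finset.mem_univ, true_and]
      rintro ⟨hd, hT⟩
      refine ⟨hd, ?_⟩
      simp only [cst, Finset.mem_filter, Finset.mem_univ, true_and]
      constructor
      · have h2 := im_le_orb Φ (v := v) (e := ⟨s(v, w), hd⟩) (Sym2.mem_mk_left v w)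
        omega
      · intro f hf f' hf'
        rw [orb, Finset.mem_image] at hf hf'
        obtain ⟨σ, hσ, rfl⟩ := hf
        obtain ⟨σ', hσ', rfl⟩ := hf'
        exact hconst σ (hΦ1 hσ) σ' (hΦ1 hσ') _ hT
    have h2 : #Sat * D ≤ s * D := by
      calc #Sat * D = #Sat • D := by rw [smul_eq_mul]
        _ ≤ ∑ v ∈ Sat, deg (cst z ρ Φ) v := Finset.card_nsmul_le_sum _ _ _ h1
        _ ≤ ∑ v, deg (cst z ρ Φ) v := Finset.sum_le_univ_sum_of_nonneg (fun _ => Nat.zero_le _)
        _ ≤ 2 * #(cst z ρ Φ) := sum_deg_le _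
        _ ≤ 2 * c := Nat.mul_le_mul_left _ hC
        _ ≤ s * D := hs
    exact Nat.le_of_mul_le_mul_right h2 (by omega)
  set A : Fin n → Finset (Fin n) := fun v =>
    if v ∈ W then (if v ∈ Sat then ∅ else im Φ v) else {v} with hA
  have hAcard : ∀ v, #(A v) ≤ r := by
    intro v
    simp only [hA]
    split_ifs with h1 h2
    · simp
    · rw [hSat, Finset.mem_filter] at h2
      have : ¬ (r + 1 ≤ #(im Φ v)) := fun h => h2 ⟨h1, h⟩
      omega
    · rw [Finset.card_singleton]; omega
  refine le_trans (Finset.card_le_card ?_) (count_close_fun A r (s + g) (by omega) hAcard)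
  intro f hf
  rw [Finset.mem_image] at hf
  obtain ⟨σ, hσ, rfl⟩ := hf
  simp only [Finset.mem_filter, Finset.mem_univ, true_and]
  have h3 : ({v | restr W σ v ∉ A v} : Finset (Fin n)) ⊆
      Sat ∪ ({v | #(im Φ v) ≤ r ∧ σ v ∉ im Φ v} : Finset (Fin n)) := by
    intro v hv
    simp only [Finset.mem_filter, Finset.mem_univ, true_and, restr, hA] at hv
    rw [Finset.mem_union]
    by_cases hvW : v ∈ W
    · simp only [hvW, if_true] at hv
      by_cases hvS : v ∈ Sat
      · exact Or.inl hvS
      · right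
        simp only [hvS, if_false] at hv
        simp only [Finset.mem_filter, Finset.mem_univ, true_and]
        refine ⟨?_, hv⟩
        rw [hSat, Finset.mem_filter] at hvS
        have : ¬ (r + 1 ≤ #(im Φ v)) := fun h => hvS ⟨hvW, h⟩
        omega
    · simp [hvW] at hv
  refine (Finset.card_le_card h3).trans ((Finset.card_union_le _ _).trans ?_)
  exact Nat.add_le_add hSatcard (hΦ3 σ hσ)

end fixed2


section fixed3

variable {n : ℕ}

lemma restr_of_mem {W : Finset (Fin n)} {σ : Equiv.Perm (Fin n)} {v : Fin n} (h : v ∈ W) :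
    restr W σ v = σ v := by
  simp [restr, h]

lemma restr_card_le_pow (R : Finset (Equiv.Perm (Fin n))) (W : Finset (Fin n)) :
    #(R.image (restr W)) ≤ n ^ #W := by
  classical
  have h1 : #(R.image (restr W)) ≤ #(Finset.univ : Finset (W → Fin n)) := by
    refine Finset.card_le_card_of_injOn (fun f => fun w : W => f w.1) (by intro _ _; simp) ?_
    intro f hf g hg hfg
    rw [Finset.mem_coe, Finset.mem_image] at hf hg
    obtain ⟨σ, _, rfl⟩ := hf
    obtain ⟨τ, _, rfl⟩ := hg
    funext v
    by_cases hv : v ∈ W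
    · exact congrFun hfg ⟨v, hv⟩
    · simp [restr, hv]
  refine h1.trans (le_of_eq ?_)
  rw [Finset.card_univ, Fintype.card_fun, Fintype.card_fin, Fintype.card_coe]

lemma restr_union_le (R : Finset (Equiv.Perm (Fin n))) (A B : Finset (Fin n)) :
    #(R.image (restr (A ∪ B))) ≤ #(R.image (restr A)) * #(R.image (restr B)) := by
  classical
  rw [← Finset.card_product]
  have hsub : R.image (restr (A ∪ B)) ⊆
      ((R.image (restr A)) ×ˢ (R.image (restr B))).image
        (fun p => fun v => if v ∈ A then p.1 v else p.2 v) := by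
    intro f hf
    rw [Finset.mem_image] at hf
    obtain ⟨σ, hσ, rfl⟩ := hf
    rw [Finset.mem_image]
    refine ⟨(restr A σ, restr B σ), Finset.mk_mem_product (Finset.mem_image_of_mem _ hσ)
      (Finset.mem_image_of_mem _ hσ), ?_⟩
    funext v
    by_cases hA : v ∈ A
    · simp [restr, hA]
    · by_cases hB : v ∈ B
      · simp [restr, hA, hB]
      · simp [restr, hA, hB]
  exact (Finset.card_le_card hsub).trans Finset.card_image_le

lemma restr_mono (R : Finset (Equiv.Perm (Fin n))) {A B : Finset (Fin n)} (h : A ⊆ B) :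
    #(R.image (restr A)) ≤ #(R.image (restr B)) := by
  classical
  have hsub : R.image (restr A) ⊆
      (R.image (restr B)).image (fun f => fun v => if v ∈ A then f v else v) := by
    intro f hf
    rw [Finset.mem_image] at hf
    obtain ⟨σ, hσ, rfl⟩ := hf
    rw [Finset.mem_image]
    refine ⟨restr B σ, Finset.mem_image_of_mem _ hσ, ?_⟩
    funext v
    by_cases hA : v ∈ A
    · simp [restr, hA, h hA]
    · simp [restr, hA]
  exact (Finset.card_le_card hsub).trans Finset.card_image_le

lemma card_eq_restr_univ (R : Finset (Equiv.Perm (Fin n))) :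
    #R = #(R.image (restr Finset.univ)) := by
  classical
  rw [Finset.card_image_of_injective]
  intro σ τ h
  apply Equiv.ext
  intro v
  have := congrFun h v
  simpa [restr] using this

/-- `R` can be mixed along `S`, inside the labelled copies of `z` -/
def MixZ (z : Pr n → Bool) (S : Finset (Pr n)) (R : Finset (Equiv.Perm (Fin n))) : Prop :=
  Mixes (IsoTo z) (copy z) S R

lemma mixZ_spec {z : Pr n → Bool} {S : Finset (Pr n)} {R : Finset (Equiv.Perm (Fin n))}
    (h : MixZ z S R) {π π' : Equiv.Perm (Fin n)} (hπ : π ∈ R) (hπ' : π' ∈ R) :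
    ∃ σ : Equiv.Perm (Fin n), (∀ e ∈ S, z (pact σ e) = z (pact π e)) ∧
      (∀ e ∉ S, z (pact σ e) = z (pact π' e)) := by
  have h1 := h π hπ π' hπ'
  rw [isoTo_iff] at h1
  obtain ⟨σ, hσ⟩ := h1
  refine ⟨σ, ?_, ?_⟩
  · intro e he
    rw [hσ e, if_pos he]
    rfl
  · intro e he
    rw [hσ e, if_neg he]
    rfl

lemma mixZ_compl {z : Pr n → Bool} {S : Finset (Pr n)} {R : Finset (Equiv.Perm (Fin n))}
    (h : MixZ z S R) : MixZ z Sᶜ R := by
  intro π hπ π' hπ'
  have h1 := h π' hπ' π hπ
  have h2 : (fun x => if x ∈ Sᶜ then copy z π x else copy z π' x) =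
      (fun x => if x ∈ S then copy z π' x else copy z π x) := by
    funext x
    by_cases hx : x ∈ S
    · simp [hx]
    · simp [hx]
  rw [h2]
  exact h1

/-- the pairs of `S` inside `V` -/
def inside (S : Finset (Pr n)) (V : Finset (Fin n)) : Finset (Pr n) :=
  {e ∈ S | ∀ v ∈ e.1, v ∈ V}

open Classical in
/-- The restrictions of a mixable set to the vertices of large degree on both sides. -/
lemma part_bound (z : Pr n → Bool) (hn : 1 ≤ n) (D K E : ℕ) (S : Finset (Pr n))
    (hkey : ∀ (T : Finset (Pr n)) (Sg : Finset (Equiv.Perm (Fin n))), ConstOn z T Sg →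
      ∀ W : Finset (Fin n), (∀ v ∈ W, D ≤ deg T v) → #(Sg.image (restr W)) ≤ K)
    (R : Finset (Equiv.Perm (Fin n))) (hmix : MixZ z S R)
    (V V1 : Finset (Fin n)) (hV : ∀ v ∈ V, D ≤ deg Sᶜ v)
    (hE : #{v ∈ V1 | deg (inside S V) v < D} ≤ E) :
    #(R.image (restr V1)) ≤ K * (K * n ^ E) := by
  rcases R.eq_empty_or_nonempty with rfl | ⟨π0, hπ0⟩
  · simp
  have hex : ∀ π : Equiv.Perm (Fin n), ∃ σ : Equiv.Perm (Fin n), π ∈ R →
      (∀ e ∈ S, z (pact σ e) = z (pact π e)) ∧ (∀ e ∉ S, z (pact σ e) = z (pact π0 e)) := by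
    intro π
    by_cases hπ : π ∈ R
    · obtain ⟨σ, hσ⟩ := mixZ_spec hmix hπ hπ0
      exact ⟨σ, fun _ => hσ⟩
    · exact ⟨1, fun h => absurd h hπ⟩
  choose sg hsg using hex
  have hfirst : #((R.image sg).image (restr V)) ≤ K := by
    refine hkey Sᶜ (R.image sg) ?_ V hV
    intro σ hσ σ' hσ' e he
    rw [Finset.mem_image] at hσ hσ'
    obtain ⟨π, hπ, rfl⟩ := hσ
    obtain ⟨π', hπ', rfl⟩ := hσ'
    rw [Finset.mem_compl] at he
    rw [(hsg π hπ).2 e he, (hsg π' hπ').2 e he]
  -- pairs of restrictions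
  set P : Finset ((Fin n → Fin n) × (Fin n → Fin n)) :=
    R.image (fun π => (restr V (sg π), restr V1 π)) with hP
  have h1 : #(R.image (restr V1)) ≤ #P := by
    have : R.image (restr V1) ⊆ P.image Prod.snd := by
      intro f hf
      rw [Finset.mem_image] at hf
      obtain ⟨π, hπ, rfl⟩ := hf
      rw [Finset.mem_image]
      exact ⟨(restr V (sg π), restr V1 π), Finset.mem_image_of_mem _ hπ, rfl⟩
    exact (Finset.card_le_card this).trans Finset.card_image_le
  refine h1.trans ?_
  have h2 : #P ≤ (K * n ^ E) * #((R.image sg).image (restr V)) := by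
    refine Finset.card_le_mul_card_image_of_maps_to (f := Prod.fst) ?_ _ ?_
    · intro p hp
      rw [hP, Finset.mem_image] at hp
      obtain ⟨π, hπ, rfl⟩ := hp
      exact Finset.mem_image_of_mem _ (Finset.mem_image_of_mem _ hπ)
    · intro τ _
      set R' : Finset (Equiv.Perm (Fin n)) := {π ∈ R | restr V (sg π) = τ} with hR'
      have h3 : #{p ∈ P | p.1 = τ} ≤ #(R'.image (restr V1)) := by
        refine Finset.card_le_card_of_injOn Prod.snd ?_ ?_
        · intro p hp
          rw [Finset.mem_coe, Finset.mem_filter, hP, Finset.mem_image] at hp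
          obtain ⟨⟨π, hπ, rfl⟩, hτ⟩ := hp
          rw [Finset.mem_coe, Finset.mem_image]
          refine ⟨π, ?_, rfl⟩
          rw [hR', Finset.mem_filter]
          exact ⟨hπ, hτ⟩
        · intro p hp q hq hpq
          rw [Finset.mem_coe, Finset.mem_filter] at hp hq
          exact Prod.ext (hp.2.trans hq.2.symm) hpq
      refine h3.trans ?_
      have hconst : ConstOn z (inside S V) R' := by
        intro π hπ π' hπ' e he
        rw [hR', Finset.mem_filter] at hπ hπ'
        rw [inside, Finset.mem_filter] at he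
        have h4 : pact (sg π) e = pact (sg π') e := by
          apply Subtype.ext
          change Sym2.map (sg π) e.1 = Sym2.map (sg π') e.1
          apply Sym2.map_congr
          intro v hv
          have hvV := he.2 v hv
          have h5 : restr V (sg π) v = restr V (sg π') v := by rw [hπ.2, hπ'.2]
          rwa [restr_of_mem hvV, restr_of_mem hvV] at h5
        rw [← (hsg π hπ.1).1 e he.1, ← (hsg π' hπ'.1).1 e he.1, h4]
      set W : Finset (Fin n) := {v ∈ V1 | D ≤ deg (inside S V) v} with hW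
      set Ex : Finset (Fin n) := {v ∈ V1 | deg (inside S V) v < D} with hEx
      have hcover : V1 ⊆ W ∪ Ex := by
        intro v hv
        rw [Finset.mem_union, hW, hEx, Finset.mem_filter, Finset.mem_filter]
        rcases le_or_gt D (deg (inside S V) v) with h | h
        · exact Or.inl ⟨hv, h⟩
        · exact Or.inr ⟨hv, h⟩
      refine (restr_mono R' hcover).trans ((restr_union_le R' W Ex).trans ?_)
      refine Nat.mul_le_mul ?_ ?_
      · refine hkey (inside S V) R' hconst W ?_
        intro v hv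
        rw [hW, Finset.mem_filter] at hv
        exact hv.2
      · refine (restr_card_le_pow R' Ex).trans ?_
        exact Nat.pow_le_pow_right hn hE
  calc #P ≤ (K * n ^ E) * #((R.image sg).image (restr V)) := h2
    _ ≤ (K * n ^ E) * K := Nat.mul_le_mul_left _ hfirst
    _ = K * (K * n ^ E) := by ring

open Classical in
/-- Few vertices of large degree have most neighbours at vertices of small degree. -/
lemma few_exceptions (S : Finset (Pr n)) (D q Δ : ℕ)
    (hq : #{v | deg Sᶜ v < D} ≤ q)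
    (hΔ : n ≤ 4 * (Δ - D - q)) (hn : 1 ≤ n)
    (V V1 : Finset (Fin n)) (hV : ∀ v, D ≤ deg S v → D ≤ deg Sᶜ v → v ∈ V)
    (hV1 : ∀ v ∈ V1, v ∈ V ∧ Δ ≤ deg S v) :
    #{v ∈ V1 | deg (inside S V) v < D} ≤ 4 * D := by
  set Ex : Finset (Fin n) := {v ∈ V1 | deg (inside S V) v < D} with hEx
  set U : Finset (Fin n) := {v | deg S v < D} with hU
  set U2 : Finset (Fin n) := {v | deg Sᶜ v < D} with hU2
  have h1 : ∀ v ∈ Ex, Δ - D - q ≤ #{w ∈ U | conn S v w} := by
    intro v hv
    rw [hEx, Finset.mem_filter] at hv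
    obtain ⟨hvV, h2⟩ := hV1 v hv.1
    have h3 : ({w | conn S v w} : Finset (Fin n)) ⊆
        (({w | conn (inside S V) v w} : Finset (Fin n)) ∪ U2) ∪
          ({w ∈ U | conn S v w} : Finset (Fin n)) := by
      intro w hw
      simp only [Finset.mem_filter, Finset.mem_univ, true_and] at hw
      simp only [Finset.mem_union, Finset.mem_filter, Finset.mem_univ, true_and, hU, hU2]
      by_cases ha : deg Sᶜ w < D
      · exact Or.inl (Or.inr ha)
      · by_cases hb : deg S w < D
        · exact Or.inr ⟨hb, hw⟩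
        · left; left
          obtain ⟨hd, hw'⟩ := hw
          refine ⟨hd, ?_⟩
          rw [inside, Finset.mem_filter]
          refine ⟨hw', ?_⟩
          intro x hx
          rw [Sym2.mem_iff] at hx
          rcases hx with rfl | rfl
          · exact hvV
          · exact hV x (by omega) (by omega)
    have h4 := Finset.card_le_card h3
    have h5 := Finset.card_union_le (({w | conn (inside S V) v w} : Finset (Fin n)) ∪ U2)
      ({w ∈ U | conn S v w} : Finset (Fin n))
    have h6 := Finset.card_union_le ({w | conn (inside S V) v w} : Finset (Fin n)) U2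
    have h7 : deg S v = #({w | conn S v w} : Finset (Fin n)) := rfl
    have h8 : deg (inside S V) v = #({w | conn (inside S V) v w} : Finset (Fin n)) := rfl
    omega
  have h2 : ∑ v, #{w ∈ U | conn S v w} ≤ n * D := by
    have h3 : ∑ v, #{w ∈ U | conn S v w} = ∑ w ∈ U, #{v | conn S v w} := by
      simp only [Finset.card_filter]
      rw [Finset.sum_comm]
    rw [h3]
    refine (Finset.sum_le_card_nsmul _ _ D ?_).trans ?_
    · intro w hw
      rw [hU, Finset.mem_filter] at hw
      refine le_trans (le_of_eq ?_) hw.2.le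
      unfold deg
      congr 1
      ext v
      simp only [Finset.mem_filter, Finset.mem_univ, true_and]
      exact ⟨conn_symm, conn_symm⟩
    · rw [smul_eq_mul]
      refine Nat.mul_le_mul_right _ ?_
      refine (Finset.card_le_univ _).trans (le_of_eq (Fintype.card_fin n))
  have h3 : #Ex * (Δ - D - q) ≤ n * D := by
    calc #Ex * (Δ - D - q) = #Ex • (Δ - D - q) := by rw [smul_eq_mul]
      _ ≤ ∑ v ∈ Ex, #{w ∈ U | conn S v w} := Finset.card_nsmul_le_sum _ _ _ h1
      _ ≤ ∑ v, #{w ∈ U | conn S v w} := Finset.sum_le_univ_sum_of_nonneg (fun _ => Nat.zero_le _)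
      _ ≤ n * D := h2
  have h4 : #Ex * n ≤ (4 * D) * n := by
    calc #Ex * n ≤ #Ex * (4 * (Δ - D - q)) := Nat.mul_le_mul_left _ hΔ
      _ = 4 * (#Ex * (Δ - D - q)) := by ring
      _ ≤ 4 * (n * D) := Nat.mul_le_mul_left _ h3
      _ = (4 * D) * n := by ring
  exact Nat.le_of_mul_le_mul_right h4 (by omega)

/-- the vertices well covered by the part `S` -/
noncomputable def wellCov (D Δ : ℕ) (S : Finset (Pr n)) : Finset (Fin n) :=
  {v | D ≤ deg S v ∧ D ≤ deg Sᶜ v ∧ Δ ≤ deg S v}

open Classical in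
lemma wellCov_bound (z : Pr n → Bool) (hn : 1 ≤ n) (D K q Δ : ℕ) (S : Finset (Pr n))
    (hkey : ∀ (T : Finset (Pr n)) (Sg : Finset (Equiv.Perm (Fin n))), ConstOn z T Sg →
      ∀ W : Finset (Fin n), (∀ v ∈ W, D ≤ deg T v) → #(Sg.image (restr W)) ≤ K)
    (R : Finset (Equiv.Perm (Fin n))) (hmix : MixZ z S R)
    (hq : #{v | deg Sᶜ v < D} ≤ q) (hΔ : n ≤ 4 * (Δ - D - q)) :
    #(R.image (restr (wellCov D Δ S))) ≤ K * (K * n ^ (4 * D)) := by
  refine part_bound z hn D K (4 * D) S hkey R hmix {v | D ≤ deg S v ∧ D ≤ deg Sᶜ v}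
    (wellCov D Δ S) ?_ ?_
  · intro v hv
    simp only [Finset.mem_filter, Finset.mem_univ, true_and] at hv
    exact hv.2
  · refine few_exceptions S D q Δ hq hΔ hn _ _ ?_ ?_
    · intro v h1 h2
      simp only [Finset.mem_filter, Finset.mem_univ, true_and]
      exact ⟨h1, h2⟩
    · intro v hv
      simp only [wellCov, Finset.mem_filter, Finset.mem_univ, true_and] at hv ⊢
      exact ⟨⟨hv.1, hv.2.1⟩, hv.2.2⟩

open Classical in
/-- The bound for a critical AND-node. -/
lemma fixed_fork (z : Pr n → Bool) (D K Δ : ℕ) (S1 S2 : Finset (Pr n)) (hD : 1 ≤ D)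
    (hkey : ∀ (T : Finset (Pr n)) (Sg : Finset (Equiv.Perm (Fin n))), ConstOn z T Sg →
      ∀ W : Finset (Fin n), (∀ v ∈ W, D ≤ deg T v) → #(Sg.image (restr W)) ≤ K)
    (hΔ : n ≤ 4 * (Δ - D - 2 * D)) (hΔ' : 3 * Δ ≤ n - 1) (hn : 2 * (D + 1) ≤ n)
    (R : Finset (Equiv.Perm (Fin n)))
    (h1 : pure (D + 1) S1 ≤ 2 * D) (h2 : pure (D + 1) S2 ≤ 2 * D)
    (h3 : 2 * D < pure (D + 1) (S1 ∪ S2))
    (mix1 : MixZ z S1 R) (mix2 : MixZ z S2 R) (mix3 : MixZ z (S1 ∪ S2) R) :
    #R ≤ (K * (K * n ^ (4 * D))) ^ 3 * n ^ (6 * D) := by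
  have hn1 : 1 ≤ n := by omega
  have h4 : #{i | deg (S1 ∪ S2) i < D + 1} ≤ 2 * D :=
    pure_pair (D + 1) (by omega) hn (S1 ∪ S2) h3
  unfold pure at h1 h2
  set A1 : Finset (Fin n) := {i | deg S1ᶜ i < D + 1} with hA1
  set A2 : Finset (Fin n) := {i | deg S2ᶜ i < D + 1} with hA2
  set A3 : Finset (Fin n) := {i | deg (S1 ∪ S2) i < D + 1} with hA3
  have hlow : ∀ T : Finset (Pr n), #{v | deg T v < D} ≤ #{v | deg T v < D + 1} := by
    intro T
    refine Finset.card_le_card ?_
    intro v
    simp only [Finset.mem_filter, Finset.mem_univ, true_and]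
    omega
  have b1 := wellCov_bound z hn1 D K (2 * D) Δ S1 hkey R mix1 ((hlow _).trans h1) hΔ
  have b2 := wellCov_bound z hn1 D K (2 * D) Δ S2 hkey R mix2 ((hlow _).trans h2) hΔ
  have b3 := wellCov_bound z hn1 D K (2 * D) Δ (S1 ∪ S2)ᶜ hkey R (mixZ_compl mix3)
    (by rw [compl_compl]; exact (hlow _).trans h4) hΔ
  have hcover : (Finset.univ : Finset (Fin n)) ⊆
      ((wellCov D Δ S1 ∪ wellCov D Δ S2) ∪ wellCov D Δ (S1 ∪ S2)ᶜ) ∪ ((A1 ∪ A2) ∪ A3) := by
    intro v _
    simp only [Finset.mem_union, wellCov, hA1, hA2, hA3, Finset.mem_filter, Finset.mem_univ,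
      true_and, compl_compl]
    by_contra hcon
    push Not at hcon
    obtain ⟨⟨⟨c1, c2⟩, c3⟩, ⟨c4, c5⟩, c6⟩ := hcon
    have d1 := deg_add_compl (S1 ∪ S2) v
    have d2 := deg_union_le S1 S2 v
    rcases le_or_gt Δ (deg S1 v) with e1 | e1
    · have := c1 (by omega) (by omega)
      omega
    · rcases le_or_gt Δ (deg S2 v) with e2 | e2
      · have := c2 (by omega) (by omega)
        omega
      · have := c3 (by omega) (by omega)
        omega
  have hX : #((A1 ∪ A2) ∪ A3) ≤ 6 * D := by
    have k1 := Finset.card_union_le (A1 ∪ A2) A3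
    have k2 := Finset.card_union_le A1 A2
    omega
  rw [card_eq_restr_univ R]
  refine (restr_mono R hcover).trans ((restr_union_le R _ _).trans ?_)
  refine Nat.mul_le_mul ?_ ((restr_card_le_pow R _).trans (Nat.pow_le_pow_right hn1 hX))
  refine (restr_union_le R _ _).trans ?_
  calc _ ≤ ((K * (K * n ^ (4 * D))) * (K * (K * n ^ (4 * D)))) * (K * (K * n ^ (4 * D))) :=
        Nat.mul_le_mul ((restr_union_le R _ _).trans (Nat.mul_le_mul b1 b2)) b3
    _ = (K * (K * n ^ (4 * D))) ^ 3 := by ring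

open Classical in
/-- The bound for a critical node which is not an AND-node. -/
lemma fixed_edge (z : Pr n → Bool) (D K Δ : ℕ) (S : Finset (Pr n)) (x : Pr n) (hD : 1 ≤ D)
    (hK : 1 ≤ K)
    (hkey : ∀ (T : Finset (Pr n)) (Sg : Finset (Equiv.Perm (Fin n))), ConstOn z T Sg →
      ∀ W : Finset (Fin n), (∀ v ∈ W, D ≤ deg T v) → #(Sg.image (restr W)) ≤ K)
    (hΔ : n ≤ 4 * (Δ - D - 2 * D)) (hΔ' : 3 * Δ ≤ n - 1) (hn : 2 * (D + 1) ≤ n)
    (R : Finset (Equiv.Perm (Fin n)))
    (h1 : pure (D + 1) S ≤ 2 * D)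
    (h3 : 2 * D < pure (D + 1) (insert x S))
    (mix : MixZ z (insert x S) R) :
    #R ≤ (K * (K * n ^ (4 * D))) ^ 3 * n ^ (6 * D) := by
  have hn1 : 1 ≤ n := by omega
  have h4 : #{i | deg (insert x S) i < D + 1} ≤ 2 * D :=
    pure_pair (D + 1) (by omega) hn (insert x S) h3
  have h5 : #{i | deg (insert x S)ᶜ i < D} ≤ 2 * D := (pure_insert (D + 1) x S).trans h1
  set A1 : Finset (Fin n) := {i | deg (insert x S)ᶜ i < D} with hA1
  set A3 : Finset (Fin n) := {i | deg (insert x S) i < D + 1} with hA3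
  have hlow : ∀ T : Finset (Pr n), #{v | deg T v < D} ≤ #{v | deg T v < D + 1} := by
    intro T
    refine Finset.card_le_card ?_
    intro v
    simp only [Finset.mem_filter, Finset.mem_univ, true_and]
    omega
  have b1 := wellCov_bound z hn1 D K (2 * D) Δ (insert x S) hkey R mix h5 hΔ
  have b3 := wellCov_bound z hn1 D K (2 * D) Δ (insert x S)ᶜ hkey R (mixZ_compl mix)
    (by rw [compl_compl]; exact (hlow _).trans h4) hΔ
  have hcover : (Finset.univ : Finset (Fin n)) ⊆
      (wellCov D Δ (insert x S) ∪ wellCov D Δ (insert x S)ᶜ) ∪ (A1 ∪ A3) := by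
    intro v _
    simp only [Finset.mem_union, wellCov, hA1, hA3, Finset.mem_filter, Finset.mem_univ,
      true_and, compl_compl]
    by_contra hcon
    push Not at hcon
    obtain ⟨⟨c1, c3⟩, c5, c6⟩ := hcon
    have d1 := deg_add_compl (insert x S) v
    rcases le_or_gt Δ (deg (insert x S) v) with e1 | e1
    · have := c1 (by omega) (by omega)
      omega
    · have := c3 (by omega) (by omega)
      omega
  have hX : #(A1 ∪ A3) ≤ 6 * D := by
    have k2 := Finset.card_union_le A1 A3
    omega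
  rw [card_eq_restr_univ R]
  refine (restr_mono R hcover).trans ((restr_union_le R _ _).trans ?_)
  refine Nat.mul_le_mul ?_ ((restr_card_le_pow R _).trans (Nat.pow_le_pow_right hn1 hX))
  have hpos : 1 ≤ K * (K * n ^ (4 * D)) := by
    have h6 : 1 ≤ n ^ (4 * D) := Nat.one_le_pow _ _ hn1
    exact Nat.mul_pos hK (Nat.mul_pos hK h6)
  calc _ ≤ (K * (K * n ^ (4 * D))) * (K * (K * n ^ (4 * D))) :=
        (restr_union_le R _ _).trans (Nat.mul_le_mul b1 b3)
    _ = (K * (K * n ^ (4 * D))) ^ 2 := by ring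
    _ ≤ (K * (K * n ^ (4 * D))) ^ 3 := Nat.pow_le_pow_right hpos (by norm_num)

end fixed3


section fixed4

variable {n : ℕ}

lemma pow8_aux (l : ℕ) (hl : 64 ≤ l) : 12400 * l ^ 8 ≤ 2 ^ (l - 1) := by
  induction l, hl using Nat.le_induction with
  | base => norm_num
  | succ l hl ih =>
    have h1 : 64 ^ 8 * (l + 1) ^ 8 ≤ 64 ^ 8 * (2 * l ^ 8) := by
      calc 64 ^ 8 * (l + 1) ^ 8 = (64 * (l + 1)) ^ 8 := by rw [mul_pow]
        _ ≤ (65 * l) ^ 8 := Nat.pow_le_pow_left (by omega) 8
        _ = 65 ^ 8 * l ^ 8 := by rw [mul_pow]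
        _ ≤ (2 * 64 ^ 8) * l ^ 8 := Nat.mul_le_mul_right _ (by norm_num)
        _ = 64 ^ 8 * (2 * l ^ 8) := by ring
    have h2 : (l + 1) ^ 8 ≤ 2 * l ^ 8 := Nat.le_of_mul_le_mul_left h1 (by norm_num)
    have h3 : l + 1 - 1 = (l - 1) + 1 := by omega
    rw [h3, pow_succ]
    calc 12400 * (l + 1) ^ 8 ≤ 12400 * (2 * l ^ 8) := Nat.mul_le_mul_left _ h2
      _ = (12400 * l ^ 8) * 2 := by ring
      _ ≤ 2 ^ (l - 1) * 2 := Nat.mul_le_mul_right _ ih

open Classical in
/-- The bound for one pseudorandom graph, with parameters. -/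
lemma fixed_main (z : Pr n → Bool) (D K Δ : ℕ) (hD : 1 ≤ D) (hK : 1 ≤ K)
    (hkey : ∀ (T : Finset (Pr n)) (Sg : Finset (Equiv.Perm (Fin n))), ConstOn z T Sg →
      ∀ W : Finset (Fin n), (∀ v ∈ W, D ≤ deg T v) → #(Sg.image (restr W)) ≤ K)
    (hΔ : n ≤ 4 * (Δ - D - 2 * D)) (hΔ' : 3 * Δ ≤ n - 1) (hn : 2 * (D + 1) ≤ n)
    {P : Program (Pr n)} {k : ℕ} (hk : P.RereadsAtMost k)
    (hs : ∀ a, P.Accepts a → IsoTo z a) :
    #{π : Equiv.Perm (Fin n) | P.Accepts (copy z π)} ≤
      P.size * (2 * ((Fintype.card (Pr n) + 1) ^ (7 * k) *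
        ((K * (K * n ^ (4 * D))) ^ 3 * n ^ (6 * D)))) := by
  refine master hk (sensitive_isoTo z) hs (copy z) (fun S => pure (D + 1) S) (2 * D) _ ?_ ?_ ?_ ?_
  · rw [pure_empty (D + 1) (by omega)]
    omega
  · rw [pure_univ (D + 1) (by omega)]
    omega
  · intro S1 S2 R h1 h2 h3 mix1 mix2 mix3
    exact fixed_fork z D K Δ S1 S2 hD hkey hΔ hΔ' hn R h1 h2 h3 mix1 mix2 mix3
  · intro S x R h1 h3 mix
    exact fixed_edge z D K Δ S x hD hK hkey hΔ hΔ' hn R h1 h3 mix

open Classical in
/-- The bound for one pseudorandom graph. -/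
lemma fixed_bound (hn2 : 2 ≤ n) (z : Pr n → Bool) (l L : ℕ) (hl : l = Nat.clog 2 n)
    (hL : L = (6 * l + 2) * l)
    (hz : GoodZ L (3 * l) (((L + 1) * n) * L ^ 2) z)
    {P : Program (Pr n)} {k : ℕ} (hk : P.RereadsAtMost k)
    (hs : ∀ a, P.Accepts a → IsoTo z a) :
    #{π : Equiv.Perm (Fin n) | P.Accepts (copy z π)} ≤
      P.size * (256 * l) ^ (6 * n) * n ^ (14 * k) := by
  have hsize : 1 ≤ P.size := Fintype.card_pos_iff.2 ⟨P.start⟩
  have hl1 : 1 ≤ l := by rw [hl]; exact Nat.clog_pos (by norm_num) hn2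
  have hnl : n ≤ 2 ^ l := by rw [hl]; exact Nat.le_pow_clog (by norm_num) n
  rcases lt_or_ge l 64 with hsmall | hlarge
  · -- trivial range
    have h1 : #{π : Equiv.Perm (Fin n) | P.Accepts (copy z π)} ≤ n.factorial := by
      refine (Finset.card_le_univ _).trans (le_of_eq ?_)
      rw [Fintype.card_perm, Fintype.card_fin]
    have h2 : n ≤ (256 * l) ^ 6 := by
      calc n ≤ 2 ^ l := hnl
        _ ≤ (256 * l) ^ 6 := by
          interval_cases l <;> norm_num
    have h3 : 1 ≤ n ^ (14 * k) := Nat.one_le_pow _ _ (by omega)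
    calc #{π : Equiv.Perm (Fin n) | P.Accepts (copy z π)} ≤ n.factorial := h1
      _ ≤ n ^ n := Nat.factorial_le_pow n
      _ ≤ ((256 * l) ^ 6) ^ n := Nat.pow_le_pow_left h2 n
      _ = (256 * l) ^ (6 * n) := by rw [← pow_mul]
      _ = 1 * (256 * l) ^ (6 * n) * 1 := by ring
      _ ≤ P.size * (256 * l) ^ (6 * n) * n ^ (14 * k) := by gcongr
  · -- the main range
    have hn1 : 2 ^ (l - 1) < n := by
      rw [hl]; exact Nat.pow_pred_clog_lt_self (by norm_num) (by omega)
    have hbig : 12400 * l ^ 8 ≤ n := (pow8_aux l hlarge).trans hn1.le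
    set g := n / l + 1 with hg
    have hgl : n ≤ g * l := by
      have := Nat.lt_div_mul_add (a := n) (b := l) (by omega)
      rw [hg]
      nlinarith
    have hg1 : 1 ≤ g := by rw [hg]; exact Nat.succ_le_succ (Nat.zero_le _)
    have hln : l ≤ n := by
      have h8 : l ≤ l ^ 8 := Nat.le_self_pow (by norm_num) l
      omega
    have hgl' : g * l ≤ n + l := by
      have := Nat.div_mul_le_self n l
      rw [hg]
      nlinarith
    set D := 2 * L ^ 2 * (L + 1) * l with hDdef
    have hL7 : L + 1 ≤ 7 * l ^ 2 := by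
      rw [hL]; nlinarith
    have hL7' : L ≤ 7 * l ^ 2 := by omega
    have hL1 : 1 ≤ L := by
      rw [hL]; nlinarith
    have hD1 : 1 ≤ D := by
      rw [hDdef]
      have : 0 < 2 * L ^ 2 * (L + 1) * l := by positivity
      omega
    have hDl : D * l ≤ 686 * l ^ 8 := by
      calc D * l = 2 * L ^ 2 * (L + 1) * l * l := by rw [hDdef]
        _ ≤ 2 * (7 * l ^ 2) ^ 2 * (7 * l ^ 2) * l * l := by gcongr
        _ = 686 * l ^ 8 := by ring
    have hD64 : 64 * D ≤ 686 * l ^ 8 := by nlinarith
    set K := (n ^ 2 + 1) ^ (g + g) * (6 * l + 1) ^ n with hKdef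
    have hK1 : 1 ≤ K := by
      rw [hKdef]
      have : 0 < (n ^ 2 + 1) ^ (g + g) * (6 * l + 1) ^ n := by positivity
      omega
    have hkey : ∀ (T : Finset (Pr n)) (Sg : Finset (Equiv.Perm (Fin n))), ConstOn z T Sg →
        ∀ W : Finset (Fin n), (∀ v ∈ W, D ≤ deg T v) → #(Sg.image (restr W)) ≤ K := by
      intro T Sg hconst W hW
      refine key_restr z L (3 * l) (((L + 1) * n) * L ^ 2) (6 * l + 1) g g D hz (by omega)
        hg1 ?_ hD1 ?_ T Sg hconst W hW
      · rw [hL]
        calc n * (6 * l + 1 + 1) ≤ (g * l) * (6 * l + 1 + 1) := Nat.mul_le_mul_right _ hgl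
          _ = g * ((6 * l + 2) * l) := by ring
      · rw [hDdef]
        calc 2 * ((L + 1) * n * L ^ 2) ≤ 2 * ((L + 1) * (g * l) * L ^ 2) := by gcongr
          _ = g * (2 * L ^ 2 * (L + 1) * l) := by ring
    have h1 := fixed_main z D K ((n - 1) / 3) hD1 hK1 hkey (by omega) (by omega) (by omega) hk hs
    refine h1.trans ?_
    -- numerical estimates
    have e1 : (Fintype.card (Pr n) + 1) ^ (7 * k) ≤ n ^ (14 * k) := by
      have h2 : Fintype.card (Pr n) + 1 ≤ n ^ 2 := by
        refine le_trans ?_ (card_Var_lt (n := n) (by omega))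
        rw [Fintype.card_sum]; omega
      calc (Fintype.card (Pr n) + 1) ^ (7 * k) ≤ (n ^ 2) ^ (7 * k) := Nat.pow_le_pow_left h2 _
        _ = n ^ (14 * k) := by rw [← pow_mul]; congr 1; omega
    have e2 : (n ^ 2 + 1) ^ (12 * g) ≤ 2 ^ (25 * n + 24 * l + 12) := by
      have h3 : n ^ 2 + 1 ≤ 2 ^ (2 * l + 1) := by
        calc n ^ 2 + 1 ≤ 2 * n ^ 2 := by nlinarith
          _ ≤ 2 * (2 ^ l) ^ 2 := by gcongr
          _ = 2 ^ (2 * l + 1) := by rw [← pow_mul, pow_succ]; ring_nf
      have h4 : 64 * g ≤ n + l := by nlinarith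
      calc (n ^ 2 + 1) ^ (12 * g) ≤ (2 ^ (2 * l + 1)) ^ (12 * g) := Nat.pow_le_pow_left h3 _
        _ = 2 ^ ((2 * l + 1) * (12 * g)) := by rw [← pow_mul]
        _ ≤ 2 ^ (25 * n + 24 * l + 12) := by
          refine Nat.pow_le_pow_right (by norm_num) ?_
          have h5 : (2 * l + 1) * (12 * g) = 24 * (g * l) + 12 * g := by ring
          rw [h5]
          omega
    have e3 : n ^ (18 * D) ≤ 2 ^ (18 * (D * l)) := by
      calc n ^ (18 * D) ≤ (2 ^ l) ^ (18 * D) := Nat.pow_le_pow_left hnl _
        _ = 2 ^ (18 * (D * l)) := by rw [← pow_mul]; congr 1; ring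
    have e4 : 2 * ((K * (K * n ^ (4 * D))) ^ 3 * n ^ (6 * D)) ≤ (256 * l) ^ (6 * n) := by
      have h6 : (K * (K * n ^ (4 * D))) ^ 3 * n ^ (6 * D) = K ^ 6 * n ^ (18 * D) := by
        have : n ^ (18 * D) = (n ^ (4 * D)) ^ 3 * n ^ (6 * D) := by
          rw [← pow_mul, ← pow_add]; congr 1; ring
        rw [this]; ring
      have h7 : K ^ 6 = (n ^ 2 + 1) ^ (12 * g) * (6 * l + 1) ^ (6 * n) := by
        rw [hKdef, mul_pow, ← pow_mul, ← pow_mul]
        congr 2 <;> ring
      rw [h6, h7]
      calc 2 * ((n ^ 2 + 1) ^ (12 * g) * (6 * l + 1) ^ (6 * n) * n ^ (18 * D))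
          ≤ 2 * (2 ^ (25 * n + 24 * l + 12) * (8 * l) ^ (6 * n) * 2 ^ (18 * (D * l))) := by
            gcongr
            omega
        _ = 2 ^ (25 * n + 24 * l + 13 + 18 * (D * l)) * (8 * l) ^ (6 * n) := by
            rw [show 25 * n + 24 * l + 13 + 18 * (D * l) =
              1 + (25 * n + 24 * l + 12) + 18 * (D * l) by ring, pow_add, pow_add]
            ring
        _ ≤ 2 ^ (30 * n) * (8 * l) ^ (6 * n) := by
            refine Nat.mul_le_mul_right _ (Nat.pow_le_pow_right (by norm_num) ?_)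
            have h8 : l ≤ l ^ 8 := Nat.le_self_pow (by norm_num) l
            omega
        _ = (256 * l) ^ (6 * n) := by
            rw [show (2 : ℕ) ^ (30 * n) = (2 ^ 5) ^ (6 * n) by rw [← pow_mul]; congr 1; ring,
              ← mul_pow]
            congr 1
            ring
    calc P.size * (2 * ((Fintype.card (Pr n) + 1) ^ (7 * k) *
          ((K * (K * n ^ (4 * D))) ^ 3 * n ^ (6 * D))))
        = P.size * (2 * ((K * (K * n ^ (4 * D))) ^ 3 * n ^ (6 * D))) *
          (Fintype.card (Pr n) + 1) ^ (7 * k) := by ring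
      _ ≤ P.size * (256 * l) ^ (6 * n) * n ^ (14 * k) := by
        refine Nat.mul_le_mul (Nat.mul_le_mul_left _ e4) e1

open Classical in
/-- Almost all graphs are pseudorandom. -/
lemma bad_few (hn2 : 2 ≤ n) (l L : ℕ) (hl : l = Nat.clog 2 n) (hL : L = (6 * l + 2) * l) :
    #{z : Pr n → Bool | ¬ GoodZ L (3 * l) (((L + 1) * n) * L ^ 2) z} * n ^ n ≤
      2 ^ (n.choose 2) := by
  have hl1 : 1 ≤ l := by rw [hl]; exact Nat.clog_pos (by norm_num) hn2
  have hnl : n ≤ 2 ^ l := by rw [hl]; exact Nat.le_pow_clog (by norm_num) n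
  have hL1 : 1 ≤ L := by
    rw [hL]; nlinarith
  have h1 := count_bad (n := n) L (3 * l) ((L + 1) * n) hL1
  rw [card_Pr] at h1
  have hfac : n.factorial + 1 ≤ 2 ^ (n * l) := by
    have h2 : n.factorial < n ^ n := by
      obtain ⟨m, rfl⟩ : ∃ m, n = m + 2 := ⟨n - 2, by omega⟩
      calc (m + 2).factorial = (m + 2) * (m + 1).factorial := Nat.factorial_succ _
        _ < (m + 2) * (m + 2) ^ (m + 1) := by
          refine Nat.mul_lt_mul_of_pos_left ?_ (by omega)
          calc (m + 1).factorial ≤ (m + 1) ^ (m + 1) := Nat.factorial_le_pow _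
            _ < (m + 2) ^ (m + 1) := Nat.pow_lt_pow_left (by omega) (by omega)
        _ = (m + 2) ^ (m + 2) := by rw [pow_succ (m + 2) (m + 1)]; ring
    have h3 : n ^ n ≤ 2 ^ (n * l) := by
      calc n ^ n ≤ (2 ^ l) ^ n := Nat.pow_le_pow_left hnl n
        _ = 2 ^ (n * l) := by rw [← pow_mul, mul_comm]
    omega
  have hM : n.choose 2 + 1 ≤ 2 ^ (2 * l) := by
    have h2 : Fintype.card (Pr n) + 1 ≤ n ^ 2 := by
      refine le_trans ?_ (card_Var_lt (n := n) (by omega))
      rw [Fintype.card_sum]; omega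
    rw [card_Pr] at h2
    calc n.choose 2 + 1 ≤ n ^ 2 := h2
      _ ≤ (2 ^ l) ^ 2 := Nat.pow_le_pow_left hnl 2
      _ = 2 ^ (2 * l) := by rw [← pow_mul, mul_comm]
  set B := #{z : Pr n → Bool | ¬ GoodZ L (3 * l) (((L + 1) * n) * L ^ 2) z} with hB
  have h4 : (B * 2 ^ (l * n)) * 2 ^ (n * l * L + 2 * l * ((L + 1) * n)) ≤
      2 ^ (n.choose 2) * 2 ^ (n * l * L + 2 * l * ((L + 1) * n)) := by
    calc (B * 2 ^ (l * n)) * 2 ^ (n * l * L + 2 * l * ((L + 1) * n))
        = B * 2 ^ (3 * l * ((L + 1) * n)) := by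
          rw [mul_assoc, ← pow_add]; congr 2; ring
      _ ≤ (n.factorial + 1) ^ L * (n.choose 2 + 1) ^ ((L + 1) * n) * 2 ^ (n.choose 2) := h1
      _ ≤ (2 ^ (n * l)) ^ L * (2 ^ (2 * l)) ^ ((L + 1) * n) * 2 ^ (n.choose 2) := by
          gcongr
      _ = 2 ^ (n.choose 2) * 2 ^ (n * l * L + 2 * l * ((L + 1) * n)) := by
          rw [← pow_mul, ← pow_mul, pow_add]; ring
  have h5 : B * 2 ^ (l * n) ≤ 2 ^ (n.choose 2) := Nat.le_of_mul_le_mul_right h4 (by positivity)
  refine le_trans (Nat.mul_le_mul_left _ ?_) h5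
  calc n ^ n ≤ (2 ^ l) ^ n := Nat.pow_le_pow_left hnl n
    _ = 2 ^ (l * n) := by rw [← pow_mul]

end fixed4


/-! ## The brute force program for one graph -/

section upper2

variable {n : ℕ}

/-- nodes of the brute force program for one graph: a chain for each permutation -/
abbrev CNode (n : ℕ) : Type := (Equiv.Perm (Fin n) × Fin (NP n + 1)) ⊕ Bool

/-- the edges of the brute force program for one graph -/
inductive CEdge (z : Pr n → Bool) : CNode n → Option (Pr n × Bool) → CNode n → Prop
  | init (π : Equiv.Perm (Fin n)) : CEdge z (Sum.inr false) none (Sum.inl (π, 0))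
  | read (π : Equiv.Perm (Fin n)) (i : Fin (NP n)) :
      CEdge z (Sum.inl (π, i.castSucc)) (some (pr n i, z (pact π (pr n i)))) (Sum.inl (π, i.succ))
  | fin (π : Equiv.Perm (Fin n)) : CEdge z (Sum.inl (π, Fin.last _)) none (Sum.inr true)

/-- the rank function -/
def crank : CNode n → ℕ
  | Sum.inr false => 0
  | Sum.inl (_, i) => 1 + i
  | Sum.inr true => 2 + NP n

/-- the brute force program for one graph -/
noncomputable def brute1 (z : Pr n → Bool) : Program (Pr n) where
  Node := CNode n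
  start := Sum.inr false
  accept := Sum.inr true
  Edge := CEdge z
  fork := fun _ => none
  acyclic := by
    refine ⟨crank, ?_, ?_⟩
    · rintro u l v h
      cases h with
      | init π => simp [crank]
      | read π i => simp [crank]
      | fin π => simp [crank]
    · intro u v w h
      simp at h

lemma brute1_size (z : Pr n → Bool) :
    (brute1 z).size = (n.choose 2 + 1) * n.factorial + 2 := by
  unfold Program.size
  change Fintype.card (CNode n) = _
  have h : NP n = n.choose 2 := card_Pr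
  rw [Fintype.card_sum, Fintype.card_prod, Fintype.card_perm, Fintype.card_fin,
    Fintype.card_fin, Fintype.card_bool, h]
  ring

/-- invariants of trees inside a chain -/
lemma chain1_aux (z : Pr n → Bool) (π : Equiv.Perm (Fin n)) (u : (brute1 z).Node)
    (T : Multiset (Pr n × Bool))
    (h : (brute1 z).Tree u T) (hu : (∃ i, u = Sum.inl (π, i)) ∨ u = Sum.inr true) :
    (T.map Prod.fst).Nodup ∧
      (∀ t ∈ T, crank u ≤ 1 + (Fintype.equivFin (Pr n) t.1 : ℕ)) ∧
      (∀ a : Pr n → Bool, (∀ t ∈ T, a t.1 = t.2) → ∀ j : Fin (NP n), crank u ≤ 1 + (j : ℕ) →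
        a (pr n j) = z (pact π (pr n j))) := by
  induction h with
  | leaf =>
    refine ⟨by simp, by simp, ?_⟩
    intro a _ j hj
    have hj2 := j.2
    change crank (Sum.inr true : CNode n) ≤ _ at hj
    simp only [crank] at hj
    omega
  | guess he hp ih =>
    rcases hu with ⟨i, rfl⟩ | rfl
    · cases he with
      | fin π' =>
        obtain ⟨h1, h2, h3⟩ := ih (Or.inr rfl)
        refine ⟨h1, fun t ht => le_trans ?_ (h2 t ht), ?_⟩
        · simp [crank]
        · intro a _ j hj
          have hj2 := j.2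
          simp only [crank, Fin.val_last] at hj
          omega
    · cases he
  | test he hp ih =>
    rcases hu with ⟨i, rfl⟩ | rfl
    · cases he with
      | read π' i =>
        obtain ⟨h1, h2, h3⟩ := ih (Or.inl ⟨_, rfl⟩)
        refine ⟨?_, ?_, ?_⟩
        · rw [Multiset.map_cons, Multiset.nodup_cons]
          refine ⟨?_, h1⟩
          intro hr
          rw [Multiset.mem_map] at hr
          obtain ⟨t, ht, htt⟩ := hr
          have h4 := h2 t ht
          simp only at htt
          rw [htt] at h4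
          simp only [crank, Fin.val_succ, pr, Equiv.apply_symm_apply] at h4
          omega
        · intro t ht
          rcases Multiset.mem_cons.1 ht with rfl | ht
          · simp [crank, pr]
          · have h4 := h2 t ht
            simp only [crank, Fin.val_succ, Fin.val_castSucc] at h4 ⊢
            omega
        · intro a ha j hj
          simp only [crank, Fin.val_castSucc] at hj
          rcases Nat.lt_or_ge (i : ℕ) j with hij | hij
          · refine h3 a (fun t ht => ha t (Multiset.mem_cons_of_mem ht)) j ?_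
            simp only [crank, Fin.val_succ]
            omega
          · have h5 : j = i := Fin.ext (by omega)
            subst h5
            exact ha _ (Multiset.mem_cons_self _ _)
    · cases he
  | fork he _ _ _ _ => simp [brute1] at he

lemma brute1_readOnce (z : Pr n → Bool) : (brute1 z).RereadsAtMost 0 := by
  intro T hT
  have h1 : (T.map Prod.fst).Nodup := by
    generalize hs : (brute1 z).start = u at hT
    cases hT with
    | leaf => simp
    | guess he hp =>
      subst hs
      cases he with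
      | init π => exact (chain1_aux z π _ _ hp (Or.inl ⟨_, rfl⟩)).1
    | test he hp =>
      subst hs
      cases he
    | fork he _ _ => simp [brute1] at he
  rw [Nat.le_zero, Finset.card_eq_zero, Finset.filter_eq_empty_iff]
  intro x _ hx
  have := Multiset.nodup_iff_count_le_one.1 h1 x
  omega

lemma complete1_aux (z : Pr n → Bool) (π : Equiv.Perm (Fin n)) (a : Pr n → Bool)
    (hπ : ∀ e, z (pact π e) = a e) :
    ∀ k : ℕ, ∀ hk : k ≤ NP n, ∃ T, (brute1 z).Tree (Sum.inl (π, ⟨NP n - k, by omega⟩)) T ∧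
      ∀ t ∈ T, a t.1 = t.2 := by
  intro k
  induction k with
  | zero =>
    intro hk
    refine ⟨0, ?_, by simp⟩
    refine Program.Tree.guess (v := (Sum.inr true : CNode n)) ?_ Program.Tree.leaf
    exact CEdge.fin π
  | succ k ih =>
    intro hk
    obtain ⟨T, hT, hTa⟩ := ih (by omega)
    have hlt : NP n - (k + 1) < NP n := by omega
    let i : Fin (NP n) := ⟨NP n - (k + 1), hlt⟩
    refine ⟨(pr n i, z (pact π (pr n i))) ::ₘ T, ?_, ?_⟩
    · have e1 : (brute1 z).Edge (Sum.inl (π, i.castSucc))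
          (some (pr n i, z (pact π (pr n i)))) (Sum.inl (π, i.succ)) := CEdge.read π i
      have e3 : (i.succ : Fin (NP n + 1)) = ⟨NP n - k, by omega⟩ := by
        apply Fin.ext
        change NP n - (k + 1) + 1 = NP n - k
        omega
      rw [e3] at e1
      exact Program.Tree.test e1 hT
    · intro t ht
      rcases Multiset.mem_cons.1 ht with rfl | ht
      · exact (hπ _).symm
      · exact hTa t ht

lemma brute1_computes (z : Pr n → Bool) : (brute1 z).Computes (IsoTo z) := by
  intro a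
  rw [isoTo_iff]
  constructor
  · rintro ⟨T, hT, ha⟩
    generalize hs : (brute1 z).start = u at hT
    cases hT with
    | leaf =>
      change (Sum.inr false : CNode n) = Sum.inr true at hs
      simp at hs
    | guess he hp =>
      subst hs
      cases he with
      | init π =>
        refine ⟨π, fun e => ?_⟩
        have h1 := (chain1_aux z π _ _ hp (Or.inl ⟨_, rfl⟩)).2.2 a ha
          (Fintype.equivFin (Pr n) e) (by simp [crank])
        simpa [pr] using h1.symm
    | test he hp =>
      subst hs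
      cases he
    | fork he _ _ => simp [brute1] at he
  · rintro ⟨π, hπ⟩
    obtain ⟨T, hT, hTa⟩ := complete1_aux z π a hπ (NP n) le_rfl
    refine ⟨T, ?_, hTa⟩
    have e1 : (brute1 z).Edge (brute1 z).start none (Sum.inl (π, 0)) := CEdge.init π
    have : (⟨NP n - NP n, by omega⟩ : Fin (NP n + 1)) = 0 := by
      apply Fin.ext
      simp
    rw [this] at hT
    exact Program.Tree.guess e1 hT

end upper2


/-! ## Free access to the second graph -/

section free

variable {n : ℕ}

/-- the program obtained by fixing the second graph to be `z` -/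
def fixRight (P : Program (Var n)) (z : Pr n → Bool) : Program (Pr n) where
  Node := P.Node
  start := P.start
  accept := P.accept
  Edge u l v := (∃ e b, l = some (e, b) ∧ P.Edge u (some (Sum.inl e, b)) v) ∨
    (l = none ∧ (P.Edge u none v ∨ ∃ e, P.Edge u (some (Sum.inr e, z e)) v))
  fork := P.fork
  acyclic := by
    obtain ⟨rank, h1, h2⟩ := P.acyclic
    refine ⟨rank, ?_, h2⟩
    rintro u l v (⟨e, b, rfl, h⟩ | ⟨rfl, h | ⟨e, h⟩⟩)
    · exact h1 _ _ _ h
    · exact h1 _ _ _ h
    · exact h1 _ _ _ h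

lemma fixRight_tree (P : Program (Var n)) (z : Pr n → Bool) (u : (fixRight P z).Node)
    (T : Multiset (Pr n × Bool)) (h : (fixRight P z).Tree u T) :
    ∃ T' : Multiset (Var n × Bool), P.Tree u T' ∧
      (∀ e, (T.map Prod.fst).count e = (T'.map Prod.fst).count (Sum.inl e)) ∧
      (∀ a : Pr n → Bool, (∀ t ∈ T, a t.1 = t.2) → ∀ t ∈ T', Sum.elim a z t.1 = t.2) := by
  induction h with
  | leaf => exact ⟨0, Program.Tree.leaf, by simp, by simp⟩
  | @guess u v T he hv ih =>
    obtain ⟨T', h1, h2, h3⟩ := ih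
    rcases he with ⟨e, b, hl, -⟩ | ⟨-, he | ⟨e, he⟩⟩
    · simp at hl
    · exact ⟨T', Program.Tree.guess he h1, h2, h3⟩
    · refine ⟨(Sum.inr e, z e) ::ₘ T', Program.Tree.test he h1, ?_, ?_⟩
      · intro e'
        rw [h2, Multiset.map_cons, Multiset.count_cons_of_ne]
        simp
      · intro a ha t ht
        rcases Multiset.mem_cons.1 ht with rfl | ht
        · rfl
        · exact h3 a ha t ht
  | @test u v x b T he hv ih =>
    obtain ⟨T', h1, h2, h3⟩ := ih
    rcases he with ⟨e, b', hl, he⟩ | ⟨hl, -⟩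
    · simp only [Option.some.injEq, Prod.mk.injEq] at hl
      obtain ⟨rfl, rfl⟩ := hl
      refine ⟨(Sum.inl x, b) ::ₘ T', Program.Tree.test he h1, ?_, ?_⟩
      · intro e'
        rw [Multiset.map_cons, Multiset.map_cons, Multiset.count_cons, Multiset.count_cons, h2]
        simp only [Sum.inl.injEq]
      · intro a ha t ht
        rcases Multiset.mem_cons.1 ht with rfl | ht
        · exact ha _ (Multiset.mem_cons_self _ _)
        · exact h3 a (fun t ht => ha t (Multiset.mem_cons_of_mem ht)) t ht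
    · simp at hl
  | @fork u v w T T' he hv hw ih1 ih2 =>
    obtain ⟨T1, h1, h2, h3⟩ := ih1
    obtain ⟨T2, g1, g2, g3⟩ := ih2
    refine ⟨T1 + T2, Program.Tree.fork he h1 g1, ?_, ?_⟩
    · intro e
      rw [Multiset.map_add, Multiset.map_add, Multiset.count_add, Multiset.count_add, h2, g2]
    · intro a ha t ht
      rcases Multiset.mem_add.1 ht with ht | ht
      · exact h3 a (fun t ht => ha t (Multiset.mem_add.2 (Or.inl ht))) t ht
      · exact g3 a (fun t ht => ha t (Multiset.mem_add.2 (Or.inr ht))) t ht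

lemma tree_fixRight (P : Program (Var n)) (z a : Pr n → Bool) (u : P.Node)
    (T' : Multiset (Var n × Bool)) (h : P.Tree u T')
    (ha : ∀ t ∈ T', Sum.elim a z t.1 = t.2) :
    ∃ T : Multiset (Pr n × Bool), (fixRight P z).Tree u T ∧ ∀ t ∈ T, a t.1 = t.2 := by
  induction h with
  | leaf => exact ⟨0, Program.Tree.leaf, by simp⟩
  | @guess u v T he hv ih =>
    obtain ⟨T1, h1, h2⟩ := ih ha
    exact ⟨T1, Program.Tree.guess (P := fixRight P z) (Or.inr ⟨rfl, Or.inl he⟩) h1, h2⟩
  | @test u v x b T he hv ih =>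
    obtain ⟨T1, h1, h2⟩ := ih (fun t ht => ha t (Multiset.mem_cons_of_mem ht))
    have h3 := ha _ (Multiset.mem_cons_self _ _)
    cases x with
    | inl e =>
      refine ⟨(e, b) ::ₘ T1, Program.Tree.test (P := fixRight P z)
        (Or.inl ⟨e, b, rfl, he⟩) h1, ?_⟩
      intro t ht
      rcases Multiset.mem_cons.1 ht with rfl | ht
      · exact h3
      · exact h2 t ht
    | inr e =>
      have h4 : z e = b := h3
      subst h4
      exact ⟨T1, Program.Tree.guess (P := fixRight P z) (Or.inr ⟨rfl, Or.inr ⟨e, he⟩⟩) h1, h2⟩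
  | @fork u v w T T' he hv hw ih1 ih2 =>
    obtain ⟨T1, h1, h2⟩ := ih1 (fun t ht => ha t (Multiset.mem_add.2 (Or.inl ht)))
    obtain ⟨T2, g1, g2⟩ := ih2 (fun t ht => ha t (Multiset.mem_add.2 (Or.inr ht)))
    refine ⟨T1 + T2, Program.Tree.fork (P := fixRight P z) he h1 g1, ?_⟩
    intro t ht
    rcases Multiset.mem_add.1 ht with ht | ht
    · exact h2 t ht
    · exact g2 t ht

lemma fixRight_rereads {P : Program (Var n)} {k : ℕ} (hk : RereadsFirstAtMost P k)
    (z : Pr n → Bool) : (fixRight P z).RereadsAtMost k := by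
  intro T hT
  obtain ⟨T', h1, h2, -⟩ := fixRight_tree P z _ T hT
  refine le_trans (Finset.card_le_card ?_) (hk T' h1)
  intro e he
  rw [Finset.mem_filter] at he ⊢
  refine ⟨Finset.mem_univ _, ?_⟩
  rw [← h2]
  exact he.2

lemma fixRight_accepts (P : Program (Var n)) (z a : Pr n → Bool) :
    (fixRight P z).Accepts a ↔ P.Accepts (Sum.elim a z) := by
  constructor
  · rintro ⟨T, hT, ha⟩
    obtain ⟨T', h1, -, h3⟩ := fixRight_tree P z _ T hT
    exact ⟨T', h1, h3 a ha⟩
  · rintro ⟨T', hT', ha⟩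
    obtain ⟨T, h1, h2⟩ := tree_fixRight P z a _ T' hT' ha
    exact ⟨T, h1, h2⟩

end free


end Pool.Agent.Results.MP_128e7d_lc.Decomposable
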